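import Pool.Agent.H26.HR.Coef2

/-!
# Module CcL (HR): the structure constants `Cc`

PLAN. `Cc w w' = hc w⁻¹ (wrd w')`, `wrd_isReduced`, `wrd_prod`, `wrd_length`. `coef_Cc`: `coef_eq`. `Cc_eq`: `hc_congr`.
`Cc_symm`: by `finsupp_ext_HA` it suffices that `∑ u, Cc w w' u * X u 1 = ∑ u, Cc w' w u⁻¹ * X u 1` for all `x ∈ HA` (use
`Finsupp.mapDomain` or `Finsupp.equivMapDomain` along `u ↦ u⁻¹` for the right side): the left side is `X w⁻¹ w'⁻¹` (`coef_Cc`)
`= ∑ u, hc w'⁻¹ (wrd w) u * X 1 u` (`coef_eq'`) and `X 1 u = X u⁻¹ 1` (`coef_one`).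
`Cc_descent`: `i :: wrd (s_i w')` is a reduced word of `w'`; `Cc_eq`, `hc_cons`, `w⁻¹ s_i = (s_i w)⁻¹`, `i` is a right descent of
`w⁻¹` (`pr`). `Cc_supp`: `hc_supp` gives `ℓ (w⁻¹ w') ≤ ℓ u`, and `gp_add`. `Cc_supp_le`, `Cc_supp_eq`, `Cc_of_add`:
`hc_supp_le`, `hc_supp_eq`, `hc_of_reduced`.
-/

set_option autoImplicit false

open scoped ComplexOrder InnerProductSpace

namespace Pool.Agent.H26.HR

open Pool.Agent.H26.HB Pool.Agent.H73.HVN

universe u v

variable {B : Type v} {W : Type u} [Group W] {M : CoxeterMatrix B} {cs : CoxeterSystem M W}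

/-- the main formula -/
theorem coef_Cc {q : B → ℝ} (hq : Admissible cs q) {x : L2 W →L[ℂ] L2 W} (hx : x ∈ HA cs q)
    (w w' : W) : cf x w⁻¹ w'⁻¹ = (Cc cs q w w').sum fun u c => c * cf x u 1 := by
  have h := coef_eq hq hx w⁻¹ (wrd_isReduced cs w')
  rw [wrd_prod] at h
  exact h

theorem Cc_eq {q : B → ℝ} (hq : Admissible cs q) (w : W) {ω : List B} (hω : cs.IsReduced ω) :
    Cc cs q w (cs.wordProd ω) = hc cs q w⁻¹ ω :=
  hc_congr hq w⁻¹ (wrd_isReduced cs _) hω (wrd_prod cs _)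

theorem Cc_symm {q : B → ℝ} (hq : Admissible cs q) (w w' u : W) :
    Cc cs q w w' u = Cc cs q w' w u⁻¹ := by
  have key : Cc cs q w w' = (Cc cs q w' w).equivMapDomain (Equiv.inv W) := by
    refine finsupp_ext_HA (cs := cs) q (fun x hx => ?_)
    rw [← coef_Cc hq hx, Finsupp.sum_equivMapDomain]
    have h := coef_eq' hq hx w'⁻¹ (wrd_isReduced cs w)
    rw [wrd_prod] at h
    rw [h]
    refine Finsupp.sum_congr (fun v _ => ?_)
    rw [coef_one hq hx v, Equiv.inv_apply]
  rw [key, Finsupp.equivMapDomain_apply]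
  rfl

theorem Cc_descent {q : B → ℝ} (hq : Admissible cs q) {w w' : W} {i : B}
    (hw : cs.IsLeftDescent w i) (hw' : cs.IsLeftDescent w' i) (u : W) :
    Cc cs q w w' u = Cc cs q (cs.simple i * w) (cs.simple i * w') u +
      ((pp q i : ℝ) : ℂ) * Cc cs q w (cs.simple i * w') u := by
  have hlen : cs.length (cs.simple i * w') + 1 = cs.length w' := (cs.isLeftDescent_iff).mp hw'
  have hprod : cs.wordProd (i :: wrd cs (cs.simple i * w')) = w' := by
    rw [CoxeterSystem.wordProd_cons, wrd_prod, CoxeterSystem.simple_mul_simple_cancel_left]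
  have hred : cs.IsReduced (i :: wrd cs (cs.simple i * w')) := by
    unfold CoxeterSystem.IsReduced
    rw [hprod, List.length_cons, wrd_length, hlen]
  have h1 : Cc cs q w w' = hc cs q w⁻¹ (i :: wrd cs (cs.simple i * w')) := by
    have h2 := Cc_eq hq w hred
    rw [hprod] at h2
    exact h2
  have hr : cs.IsRightDescent w⁻¹ i := by
    rw [CoxeterSystem.isRightDescent_inv_iff]
    exact hw
  have hp : pr cs q i w⁻¹ = ((pp q i : ℝ) : ℂ) := by
    unfold pr
    rw [if_pos hr]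
  have hinv : w⁻¹ * cs.simple i = (cs.simple i * w)⁻¹ := by
    rw [mul_inv_rev, CoxeterSystem.inv_simple]
  rw [h1, hc_cons, hp, hinv, Finsupp.add_apply, Finsupp.smul_apply, smul_eq_mul]
  rfl

/-- the support of `Cc w w'` -/
theorem Cc_supp (q : B → ℝ) {w w' u : W} (h : Cc cs q w w' u ≠ 0) :
    cs.length w + cs.length w' ≤ cs.length u + gp cs w w' := by
  have h1 := hc_supp q (wrd_isReduced cs w') h
  rw [wrd_prod] at h1
  have h2 := gp_add (cs := cs) w w'
  unfold wd at h2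
  omega

theorem Cc_supp_le (q : B → ℝ) {w w' u : W} (h : Cc cs q w w' u ≠ 0) :
    cs.length u ≤ cs.length w + cs.length w' := by
  have h1 := hc_supp_le q h
  rw [wrd_length, CoxeterSystem.length_inv] at h1
  exact h1

theorem Cc_of_add (q : B → ℝ) {w w' : W} (h : cs.length (w⁻¹ * w') = cs.length w + cs.length w') :
    Cc cs q w w' = Finsupp.single (w⁻¹ * w') 1 := by
  have h1 : cs.length (w⁻¹ * cs.wordProd (wrd cs w')) = cs.length w⁻¹ + (wrd cs w').length := by
    rw [wrd_prod, wrd_length, CoxeterSystem.length_inv, h]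
  have h2 := hc_of_reduced (cs := cs) q h1
  rw [wrd_prod] at h2
  exact h2

theorem Cc_supp_eq (q : B → ℝ) {w w' u : W} (h : Cc cs q w w' u ≠ 0)
    (hu : cs.length u = cs.length w + cs.length w') : u = w⁻¹ * w' := by
  have h1 : cs.length u = cs.length w⁻¹ + (wrd cs w').length := by
    rw [wrd_length, CoxeterSystem.length_inv, hu]
  have h2 := hc_supp_eq q h h1
  rw [wrd_prod] at h2
  exact h2

end Pool.Agent.H26.HR
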