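import Pool.Agent.H26.HR.KDefs
import Pool.Agent.H26.HR.CcL

/-!
# Module BaseB (HR): the kernel of a matrix of operators

PLAN. `KX x oneW (i, w) (j, w') = cf (Y i j) w⁻¹ w'⁻¹` (`coef_Cc`). The form with `A`, `s`, `t` is
`∑ i, ∑ j, ⟪η i, Y i j (ξ j)⟫` for `ξ j = ∑ w, s (j, w) • δ w⁻¹` (sum over the `w` with `(j, w) ∈ A`, or over the set `A₂` of all
second coordinates with coefficient `0` if `(j, w) ∉ A`), similarly `η` (`inner_δ`, `‖ξ j‖² = ∑ ‖s (j, w)‖²`, see the private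
lemmas `CBCore_norm`, `CBCore_inner` of `Pool/Agent/H26/HB/CBCore.lean`, which you may copy; the map `w ↦ w⁻¹` is injective).
-/

set_option autoImplicit false

open scoped ComplexOrder InnerProductSpace
open Filter Topology

namespace Pool.Agent.H26.HR

open Pool.Agent.H26.HB Pool.Agent.H73.HVN

universe u v

variable {B : Type v} {W : Type u} [Group W] {M : CoxeterMatrix B} {cs : CoxeterSystem M W}

private theorem BaseB_coe_sum {Z : Type*} {ι : Type*} (F : Finset ι) (f : ι → L2 Z) (x : Z) :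
    (∑ e ∈ F, f e : L2 Z) x = ∑ e ∈ F, (f e) x := by
  rw [lp.coeFn_sum, Finset.sum_apply]

private theorem BaseB_coe_smul {Z : Type*} (z : ℂ) (f : L2 Z) (x : Z) :
    (z • f : L2 Z) x = z * f x := by
  rw [lp.coeFn_smul, Pi.smul_apply, smul_eq_mul]

private theorem BaseB_val_mem {Z : Type*} (F : Finset Z) (z : Z → ℂ) {x : Z} (hx : x ∈ F) :
    (∑ e ∈ F, z e • (δ e : L2 Z) : L2 Z) x = z x := by
  rw [BaseB_coe_sum, Finset.sum_eq_single x]
  · rw [BaseB_coe_smul, δ_self, mul_one]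
  · intro e _ he
    rw [BaseB_coe_smul, δ_ne (Ne.symm he), mul_zero]
  · intro h
    exact absurd hx h

private theorem BaseB_val_not {Z : Type*} (F : Finset Z) (z : Z → ℂ) {x : Z} (hx : x ∉ F) :
    (∑ e ∈ F, z e • (δ e : L2 Z) : L2 Z) x = 0 := by
  rw [BaseB_coe_sum]
  refine Finset.sum_eq_zero fun e he => ?_
  rw [BaseB_coe_smul, δ_ne, mul_zero]
  rintro rfl
  exact hx he

private theorem BaseB_norm {Z : Type*} (F : Finset Z) (z : Z → ℂ) :
    ‖∑ e ∈ F, z e • (δ e : L2 Z)‖ ^ 2 = ∑ e ∈ F, ‖z e‖ ^ 2 := by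
  have h1 := hasSum_normsq (∑ e ∈ F, z e • (δ e : L2 Z) : L2 Z)
  have h2 : HasSum (fun x => ‖(∑ e ∈ F, z e • (δ e : L2 Z) : L2 Z) x‖ ^ 2)
      (∑ x ∈ F, ‖(∑ e ∈ F, z e • (δ e : L2 Z) : L2 Z) x‖ ^ 2) := by
    refine hasSum_sum_of_ne_finset_zero fun x hx => ?_
    rw [BaseB_val_not F z hx, norm_zero]
    norm_num
  rw [h1.unique h2]
  refine Finset.sum_congr rfl fun x hx => ?_
  rw [BaseB_val_mem F z hx]

private theorem BaseB_inner {Z : Type*} (F : Finset Z) (z : Z → ℂ) (g : L2 Z) :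
    ⟪(∑ e ∈ F, z e • (δ e : L2 Z) : L2 Z), g⟫_ℂ = ∑ e ∈ F, (starRingEnd ℂ) (z e) * g e := by
  rw [sum_inner]
  refine Finset.sum_congr rfl fun e _ => ?_
  rw [inner_smul_left, inner_δ]

private theorem BaseB_sum {n : ℕ} [DecidableEq W] (A : Finset (Fin n × W)) {R : Type*} [AddCommMonoid R]
    (G : Fin n × W → R) :
    ∑ j, ∑ v ∈ A.image (fun p => p.2⁻¹), (if (j, v⁻¹) ∈ A then G (j, v⁻¹) else 0) =
      ∑ b ∈ A, G b := by
  rw [← Finset.sum_product', ← Finset.sum_filter]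
  refine Finset.sum_nbij' (fun p => (p.1, p.2⁻¹)) (fun b => (b.1, b.2⁻¹)) ?_ ?_ ?_ ?_ ?_
  · intro p hp
    exact (Finset.mem_filter.1 hp).2
  · intro b hb
    refine Finset.mem_filter.2 ⟨Finset.mem_product.2 ⟨Finset.mem_univ _, ?_⟩, ?_⟩
    · exact Finset.mem_image.2 ⟨b, hb, rfl⟩
    · simpa using hb
  · intro p _
    simp
  · intro b _
    simp
  · intro p _
    rfl

theorem base_bd {q : B → ℝ} (hq : Admissible cs q) {n : ℕ} (Y : Fin n → Fin n → HA cs q) {K0 : ℝ}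
    (hY : ∀ ξ η : Fin n → L2 W, ‖∑ i, ∑ j, ⟪η i, (Y i j : L2 W →L[ℂ] L2 W) (ξ j)⟫_ℂ‖ ≤
      K0 * (√(∑ j, ‖ξ j‖ ^ 2) * √(∑ i, ‖η i‖ ^ 2))) :
    Bd (KX cs q (fun i j u => cf (Y i j : L2 W →L[ℂ] L2 W) u 1) oneW) K0 := by
  classical
  intro A s t
  set F : Finset W := A.image (fun p => p.2⁻¹) with hF
  set z : (Fin n × W → ℂ) → Fin n → W → ℂ := fun r j v => if (j, v⁻¹) ∈ A then r (j, v⁻¹) else 0 with hz
  have h := hY (fun j => ∑ v ∈ F, z s j v • (δ v : L2 W)) (fun i => ∑ v ∈ F, z t i v • (δ v : L2 W))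
  have hnorm : ∀ r : Fin n × W → ℂ,
      ∑ j, ‖∑ v ∈ F, z r j v • (δ v : L2 W)‖ ^ 2 = ∑ b ∈ A, ‖r b‖ ^ 2 := by
    intro r
    rw [← BaseB_sum A fun b => ‖r b‖ ^ 2]
    refine Finset.sum_congr rfl fun j _ => ?_
    rw [BaseB_norm]
    refine Finset.sum_congr rfl fun v _ => ?_
    rw [hz]
    by_cases hv : (j, v⁻¹) ∈ A
    · simp only [if_pos hv]
    · simp only [if_neg hv, norm_zero]
      norm_num
  rw [hnorm s, hnorm t] at h
  refine le_trans (le_of_eq ?_) h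
  congr 1
  have hKX : ∀ (i j : Fin n) (v v' : W),
      KX cs q (fun i j u => cf (Y i j : L2 W →L[ℂ] L2 W) u 1) oneW (i, v⁻¹) (j, v'⁻¹) =
        (Y i j : L2 W →L[ℂ] L2 W) (δ v') v := by
    intro i j v v'
    have h1 := coef_Cc hq (Y i j).2 v⁻¹ v'⁻¹
    rw [inv_inv, inv_inv] at h1
    rw [KX]
    simp only [oneW, mul_one]
    exact h1.symm
  rw [← BaseB_sum A fun a => ∑ b ∈ A, (starRingEnd ℂ) (t a) *
    KX cs q (fun i j u => cf (Y i j : L2 W →L[ℂ] L2 W) u 1) oneW a b * s b]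
  refine Finset.sum_congr rfl fun i _ => ?_
  have h2 : ∀ j, ⟪∑ v ∈ F, z t i v • (δ v : L2 W),
      (Y i j : L2 W →L[ℂ] L2 W) (∑ v ∈ F, z s j v • (δ v : L2 W))⟫_ℂ =
      ∑ v ∈ F, ∑ v' ∈ F, (starRingEnd ℂ) (z t i v) * (Y i j : L2 W →L[ℂ] L2 W) (δ v') v * z s j v' := by
    intro j
    rw [BaseB_inner]
    refine Finset.sum_congr rfl fun v _ => ?_
    rw [map_sum, BaseB_coe_sum, Finset.mul_sum]
    refine Finset.sum_congr rfl fun v' _ => ?_
    rw [map_smul, BaseB_coe_smul]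
    ring
  rw [Finset.sum_congr rfl fun j _ => h2 j, Finset.sum_comm]
  refine Finset.sum_congr rfl fun v _ => ?_
  rw [← BaseB_sum A fun b => (starRingEnd ℂ) (t (i, v⁻¹)) *
    KX cs q (fun i j u => cf (Y i j : L2 W →L[ℂ] L2 W) u 1) oneW (i, v⁻¹) b * s b]
  by_cases hv : (i, v⁻¹) ∈ A
  · rw [if_pos hv]
    refine Finset.sum_congr rfl fun j _ => ?_
    refine Finset.sum_congr rfl fun v' _ => ?_
    rw [hz]
    simp only [if_pos hv]
    by_cases hv' : (j, v'⁻¹) ∈ A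
    · simp only [if_pos hv']
      rw [hKX]
    · simp only [if_neg hv', mul_zero]
  · rw [if_neg hv]
    symm
    refine Finset.sum_eq_zero fun j _ => Finset.sum_eq_zero fun v' _ => ?_
    rw [hz]
    simp only [if_neg hv, map_zero, zero_mul]

end Pool.Agent.H26.HR
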