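import Pool.Agent.H26.HR.KDefs

/-!
# Module BdL (HR): bounded kernels

PLAN. `Bd.rect`: replace `A` by `A ∪ A'` and `s`, `t` by their restrictions (zero outside). `Bd.add`, `Bd.sum`, `Bd.smul`,
`Bd.mono`: triangle inequality. `Bd.restrict`: apply `hX` to `[P' b] s b`, `[P a] t a`.
-/

set_option autoImplicit false

namespace Pool.Agent.H26.HR

variable {I : Type*}

theorem Bd.mono {X : I → I → ℂ} {K K' : ℝ} (h : Bd X K) (hK : K ≤ K') : Bd X K' := by
  intro A s t
  exact (h A s t).trans (mul_le_mul_of_nonneg_right hK (mul_nonneg (Real.sqrt_nonneg _) (Real.sqrt_nonneg _)))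

theorem Bd.rect {X : I → I → ℂ} {K : ℝ} (h : Bd X K) (A A' : Finset I) (s t : I → ℂ) :
    ‖∑ a ∈ A, ∑ b ∈ A', (starRingEnd ℂ) (t a) * X a b * s b‖ ≤
      K * (√(∑ b ∈ A', ‖s b‖ ^ 2) * √(∑ a ∈ A, ‖t a‖ ^ 2)) := by
  classical
  have key := h (A ∪ A') (fun b => if b ∈ A' then s b else 0) (fun a => if a ∈ A then t a else 0)
  have h1 : ∑ a ∈ A ∪ A', ∑ b ∈ A ∪ A', (starRingEnd ℂ) (if a ∈ A then t a else 0) * X a b * (if b ∈ A' then s b else 0) =
      ∑ a ∈ A, ∑ b ∈ A', (starRingEnd ℂ) (t a) * X a b * s b := by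
    rw [← Finset.sum_subset (Finset.subset_union_left : A ⊆ A ∪ A')]
    · refine Finset.sum_congr rfl fun a ha => ?_
      rw [← Finset.sum_subset (Finset.subset_union_right : A' ⊆ A ∪ A')]
      · refine Finset.sum_congr rfl fun b hb => ?_
        rw [if_pos ha, if_pos hb]
      · intro b _ hb
        rw [if_neg hb, mul_zero]
    · intro a _ ha
      refine Finset.sum_eq_zero fun b _ => ?_
      rw [if_neg ha, map_zero, zero_mul, zero_mul]
  have h2 : ∑ b ∈ A ∪ A', ‖(if b ∈ A' then s b else 0)‖ ^ 2 = ∑ b ∈ A', ‖s b‖ ^ 2 := by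
    rw [← Finset.sum_subset (Finset.subset_union_right : A' ⊆ A ∪ A')]
    · refine Finset.sum_congr rfl fun b hb => ?_
      rw [if_pos hb]
    · intro b _ hb
      rw [if_neg hb, norm_zero]
      norm_num
  have h3 : ∑ a ∈ A ∪ A', ‖(if a ∈ A then t a else 0)‖ ^ 2 = ∑ a ∈ A, ‖t a‖ ^ 2 := by
    rw [← Finset.sum_subset (Finset.subset_union_left : A ⊆ A ∪ A')]
    · refine Finset.sum_congr rfl fun a ha => ?_
      rw [if_pos ha]
    · intro a _ ha
      rw [if_neg ha, norm_zero]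
      norm_num
  rw [h1, h2, h3] at key
  exact key

theorem Bd.add {X Y : I → I → ℂ} {K L : ℝ} (h : Bd X K) (h' : Bd Y L) :
    Bd (fun a b => X a b + Y a b) (K + L) := by
  intro A s t
  have h1 : ∑ a ∈ A, ∑ b ∈ A, (starRingEnd ℂ) (t a) * (X a b + Y a b) * s b =
      ∑ a ∈ A, ∑ b ∈ A, (starRingEnd ℂ) (t a) * X a b * s b + ∑ a ∈ A, ∑ b ∈ A, (starRingEnd ℂ) (t a) * Y a b * s b := by
    rw [← Finset.sum_add_distrib]
    refine Finset.sum_congr rfl fun a _ => ?_
    rw [← Finset.sum_add_distrib]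
    refine Finset.sum_congr rfl fun b _ => ?_
    ring
  simp only []
  rw [h1, add_mul]
  exact (norm_add_le _ _).trans (add_le_add (h A s t) (h' A s t))

theorem Bd.sub {X Y : I → I → ℂ} {K L : ℝ} (h : Bd X K) (h' : Bd Y L) :
    Bd (fun a b => X a b - Y a b) (K + L) := by
  intro A s t
  have h1 : ∑ a ∈ A, ∑ b ∈ A, (starRingEnd ℂ) (t a) * (X a b - Y a b) * s b =
      ∑ a ∈ A, ∑ b ∈ A, (starRingEnd ℂ) (t a) * X a b * s b - ∑ a ∈ A, ∑ b ∈ A, (starRingEnd ℂ) (t a) * Y a b * s b := by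
    rw [← Finset.sum_sub_distrib]
    refine Finset.sum_congr rfl fun a _ => ?_
    rw [← Finset.sum_sub_distrib]
    refine Finset.sum_congr rfl fun b _ => ?_
    ring
  simp only []
  rw [h1, add_mul]
  exact (norm_sub_le _ _).trans (add_le_add (h A s t) (h' A s t))

theorem Bd.smul {X : I → I → ℂ} {K : ℝ} (h : Bd X K) (c : ℂ) :
    Bd (fun a b => c * X a b) (‖c‖ * K) := by
  intro A s t
  have h1 : ∑ a ∈ A, ∑ b ∈ A, (starRingEnd ℂ) (t a) * (c * X a b) * s b =
      c * ∑ a ∈ A, ∑ b ∈ A, (starRingEnd ℂ) (t a) * X a b * s b := by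
    rw [Finset.mul_sum]
    refine Finset.sum_congr rfl fun a _ => ?_
    rw [Finset.mul_sum]
    refine Finset.sum_congr rfl fun b _ => ?_
    ring
  simp only []
  rw [h1, norm_mul, mul_assoc]
  exact mul_le_mul_of_nonneg_left (h A s t) (norm_nonneg _)

theorem Bd.zero : Bd (fun _ _ : I => (0 : ℂ)) 0 := by
  intro A s t
  simp

theorem Bd.sum {κ : Type*} (F : Finset κ) {X : κ → I → I → ℂ} {K : κ → ℝ}
    (h : ∀ m ∈ F, Bd (X m) (K m)) : Bd (fun a b => ∑ m ∈ F, X m a b) (∑ m ∈ F, K m) := by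
  classical
  induction F using Finset.induction_on with
  | empty =>
    simp only [Finset.sum_empty]
    exact Bd.zero
  | insert m F hm ih =>
    simp only [Finset.sum_insert hm]
    exact (h m (Finset.mem_insert_self m F)).add (ih fun m' hm' => h m' (Finset.mem_insert_of_mem hm'))

open Classical in
theorem Bd.restrict {X : I → I → ℂ} {K : ℝ} (hK : 0 ≤ K) (h : Bd X K) (P P' : I → Prop) :
    Bd (fun a b => if P a ∧ P' b then X a b else 0) K := by
  intro A s t
  have key := h A (fun b => if P' b then s b else 0) (fun a => if P a then t a else 0)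
  simp only [] at key ⊢
  have h1 : ∑ a ∈ A, ∑ b ∈ A, (starRingEnd ℂ) (t a) * (if P a ∧ P' b then X a b else 0) * s b =
      ∑ a ∈ A, ∑ b ∈ A, (starRingEnd ℂ) (if P a then t a else 0) * X a b * (if P' b then s b else 0) := by
    refine Finset.sum_congr rfl fun a _ => Finset.sum_congr rfl fun b _ => ?_
    by_cases ha : P a
    · by_cases hb : P' b
      · rw [if_pos ⟨ha, hb⟩, if_pos ha, if_pos hb]
      · rw [if_neg (fun hc => hb hc.2), if_neg hb, mul_zero, zero_mul, mul_zero]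
    · rw [if_neg (fun hc => ha hc.1), if_neg ha, map_zero, zero_mul, zero_mul, mul_zero, zero_mul]
  rw [h1]
  refine key.trans (mul_le_mul_of_nonneg_left ?_ hK)
  have aux : ∀ (Q : I → Prop) (v : I → ℂ), ∑ b ∈ A, ‖(if Q b then v b else 0)‖ ^ 2 ≤ ∑ b ∈ A, ‖v b‖ ^ 2 := by
    intro Q v
    refine Finset.sum_le_sum fun b _ => ?_
    by_cases hb : Q b
    · rw [if_pos hb]
    · rw [if_neg hb, norm_zero, zero_pow two_ne_zero]
      exact sq_nonneg _
  exact mul_le_mul (Real.sqrt_le_sqrt (aux P' s)) (Real.sqrt_le_sqrt (aux P t)) (Real.sqrt_nonneg _) (Real.sqrt_nonneg _)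

end Pool.Agent.H26.HR
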