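import Pool.Agent.H26.HR.PreL
import Pool.Agent.H26.HB.Main

/-!
# Module CardP (HR): the number of prefixes of given length

PLAN. `N = #{e | ℓ e ≤ k}` (`HB.finite_length_le`). If `v`, `v'` are prefixes of `w` of length `m`: the four point condition
`wd 1 w + wd v v' ≤ max (wd 1 v + wd w v') (wd 1 v' + wd w v) + k = ℓ w + k` gives `ℓ (v⁻¹ v') ≤ k`. So, if the set is not empty,
it is contained in the image of the ball under `e ↦ v e`.
-/

set_option autoImplicit false

namespace Pool.Agent.H26.HR

open Pool.Agent.H26.HB Pool.Agent.H73.HVN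

universe u v

variable {B : Type v} {W : Type u} [Group W] {M : CoxeterMatrix B} {cs : CoxeterSystem M W}

/-- the prefixes of given length: bounded number -/
theorem card_prefix [Finite B] {k : ℕ} (hk : IsHyp cs k) :
    ∃ N : ℕ, ∀ (w : W) (m : ℕ), {v | Pre cs v w ∧ cs.length v = m}.Finite ∧
      {v | Pre cs v w ∧ cs.length v = m}.ncard ≤ N := by
  have hfin : {e : W | cs.length e ≤ k}.Finite := finite_length_le (cs := cs) k
  refine ⟨{e : W | cs.length e ≤ k}.ncard, fun w m => ?_⟩
  rcases Set.eq_empty_or_nonempty {v | Pre cs v w ∧ cs.length v = m} with h0 | ⟨v, hv, hvm⟩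
  · rw [h0]
    exact ⟨Set.finite_empty, by simp⟩
  · have hsub : {v | Pre cs v w ∧ cs.length v = m} ⊆ (fun e => v * e) '' {e : W | cs.length e ≤ k} := by
      rintro v' ⟨hv', hvm'⟩
      refine ⟨v⁻¹ * v', ?_, by group⟩
      have h4 := hk 1 w v v'
      unfold wd at h4
      unfold Pre at hv hv'
      rw [inv_one, one_mul, one_mul, one_mul] at h4
      have e1 : cs.length (w⁻¹ * v') = cs.length (v'⁻¹ * w) := by
        rw [← cs.length_inv (w⁻¹ * v')]
        congr 1
        group
      have e2 : cs.length (w⁻¹ * v) = cs.length (v⁻¹ * w) := by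
        rw [← cs.length_inv (w⁻¹ * v)]
        congr 1
        group
      rw [e1, e2] at h4
      change cs.length (v⁻¹ * v') ≤ k
      omega
    refine ⟨(hfin.image _).subset hsub, ?_⟩
    exact (Set.ncard_le_ncard hsub (hfin.image _)).trans (Set.ncard_image_le hfin)

end Pool.Agent.H26.HR
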