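import Pool.Agent.H26.HR.CcL

/-!
# Module Peel (HR): large cancellation

PLAN. Induction over `m`, generalizing `w`. `m = 0`: `z = 1` (`pre_one`). `m + 1`: `i` the letter of `w` (`hκ w`), a left descent
of `w` (`gp_self`); `w₁ = s_i w`, `z = s_i z₁`, `z₁` from the induction hypothesis for `w₁`. Let
`2 (m + 1) + 2 κ + 1 + ℓ u ≤ ℓ w + ℓ w'`. If `i` is not a left descent of `w'`: `gp w w' < 2 κ`, so `Cc w w' u = 0` (`Cc_supp`), and
`z` is not a prefix of `w'` (`Pre.of_mul`, `pre_simple_iff`). Otherwise `Cc_descent`; `Cc w (s_i w') u = 0` since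
`gp w (s_i w') < 2 κ` (`i` is not a left descent of `s_i w'`) and `ℓ w + ℓ (s_i w') ≥ ℓ u + 2 κ`; and the induction
hypothesis for `s_i w'` (`Pre z₁ (s_i w') ↔ Pre z w'`).
-/

set_option autoImplicit false

namespace Pool.Agent.H26.HR

open Pool.Agent.H26.HB Pool.Agent.H73.HVN

universe u v

variable {B : Type v} {W : Type u} [Group W] {M : CoxeterMatrix B} {cs : CoxeterSystem M W}

open Classical in
theorem exists_peel {q : B → ℝ} (hq : Admissible cs q) {κ : ℕ} (hκ : LetterProp cs κ) (m : ℕ) (w : W)
    (hm : m + κ ≤ cs.length w) :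
    ∃ z, cs.length z = m ∧ Pre cs z w ∧ ∀ w' u : W,
      2 * m + 2 * κ + 1 + cs.length u ≤ cs.length w + cs.length w' →
      Cc cs q w w' u = if Pre cs z w' then Cc cs q (z⁻¹ * w) (z⁻¹ * w') u else 0 := by
  induction m generalizing w with
  | zero =>
    refine ⟨1, cs.length_one, pre_one w, ?_⟩
    intro w' u _
    rw [if_pos (pre_one w')]
    simp
  | succ m ih =>
    obtain ⟨i, hi⟩ := hκ w (by omega)
    have hiw : cs.IsLeftDescent w i := hi w (by rw [gp_self]; omega)
    have hlw : cs.length (cs.simple i * w) + 1 = cs.length w :=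
      (cs.isLeftDescent_iff).1 hiw
    obtain ⟨z₁, hz1, hpre1, hz2⟩ := ih (cs.simple i * w) (by omega)
    have hzinv : ∀ y : W, (cs.simple i * z₁)⁻¹ * y = z₁⁻¹ * (cs.simple i * y) := by
      intro y
      rw [mul_inv_rev, cs.inv_simple, mul_assoc]
    have hzle : cs.length (cs.simple i * z₁) ≤ cs.length z₁ + 1 := by
      have := cs.length_mul_le (cs.simple i) z₁
      rw [cs.length_simple] at this
      omega
    have hpre1' : cs.length (cs.simple i * w) =
      cs.length z₁ + cs.length (z₁⁻¹ * (cs.simple i * w)) := hpre1
    have htri : cs.length w ≤ cs.length (cs.simple i * z₁) +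
        cs.length (z₁⁻¹ * (cs.simple i * w)) := by
      have h := cs.length_mul_le (cs.simple i * z₁) ((cs.simple i * z₁)⁻¹ * w)
      rw [mul_inv_cancel_left, hzinv w] at h
      exact h
    have hzlen : cs.length (cs.simple i * z₁) = m + 1 := by omega
    refine ⟨cs.simple i * z₁, hzlen, ?_, ?_⟩
    · unfold Pre
      rw [hzinv w]
      omega
    · intro w' u hu
      by_cases hiw' : cs.IsLeftDescent w' i
      · have hlw' : cs.length (cs.simple i * w') + 1 = cs.length w' :=
          (cs.isLeftDescent_iff).1 hiw'
        have hnot : ¬ cs.IsLeftDescent (cs.simple i * w') i := by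
          intro h
          have h1 : cs.length (cs.simple i * (cs.simple i * w')) + 1 =
            cs.length (cs.simple i * w') := (cs.isLeftDescent_iff).1 h
          rw [cs.simple_mul_simple_cancel_left] at h1
          omega
        have hzero : Cc cs q w (cs.simple i * w') u = 0 := by
          by_contra hne
          have h1 := Cc_supp q hne
          have h2 : ¬ 2 * κ ≤ gp cs w (cs.simple i * w') := fun h => hnot (hi _ h)
          omega
        rw [Cc_descent hq hiw hiw' u, hzero, mul_zero, add_zero,
          hz2 (cs.simple i * w') u (by omega)]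
        have hiff : Pre cs z₁ (cs.simple i * w') ↔ Pre cs (cs.simple i * z₁) w' := by
          unfold Pre
          rw [hzinv w']
          omega
        by_cases hp : Pre cs z₁ (cs.simple i * w')
        · rw [if_pos hp, if_pos (hiff.1 hp), hzinv w, hzinv w']
        · rw [if_neg hp, if_neg (fun h => hp (hiff.2 h))]
      · have hzero : Cc cs q w w' u = 0 := by
          by_contra hne
          have h1 := Cc_supp q hne
          have h2 : ¬ 2 * κ ≤ gp cs w w' := fun h => hiw' (hi _ h)
          omega
        have hnp : ¬ Pre cs (cs.simple i * z₁) w' := by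
          intro hp
          apply hiw'
          unfold Pre at hp
          rw [hzinv w'] at hp
          have h := cs.length_mul_le z₁ (z₁⁻¹ * (cs.simple i * w'))
          rw [mul_inv_cancel_left] at h
          show cs.length (cs.simple i * w') < cs.length w'
          omega
        rw [hzero, if_neg hnp]

end Pool.Agent.H26.HR
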