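import Pool.Agent.H26.HR.KGe
import Pool.Agent.H26.HR.Peel
import Pool.Agent.H26.HR.CardP

/-!
# Module Blk (HR): the block kernels are bounded

PLAN. Let `κ₁ = κ + 1`, `J = 2 κ₁ + 1`, `C` from `bd_ge` for `J`, `N₀` from `card_prefix`. For `w` and `m` with `m + κ ≤ ℓ w` let
`z m w` be the prefix of `exists_peel`; for other `m` put `z m w = 1` (it is not used, except `z 0 w = 1`; note `z 0 w = 1` always
since its length is `0`). Apply `Bd.push` with `Λ = ℤ × W`, `G = V = W`,
`X (h, v) = KX x (geW (2 min h κ₁ + ε))` (bounded by `C K` as `2 min h κ₁ + ε ≤ J`),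
`S w = {((ℓ w - k, z m w), (z m w)⁻¹ w) | k ≤ a}`, `m = ℓ w - k - κ₁` (truncated subtraction in `ℕ`),
`S' w' = {((ℓ w' - l, v), v⁻¹ w') | l ≤ a', v prefix of w' of length ℓ w' - l - κ₁ (truncated)}`;
`card S w ≤ a + 1`, `card S' w' ≤ (a' + 1) N₀`; `w = v g` is determined by `((h, v), g)`.
The resulting kernel is `blk`: `h = ℓ w - k = ℓ w' - l`, `v = z m w` (same length, so `v` is counted in `S' w'` iff it is a
prefix of `w'`), and the term is `[Pre z w'] KX x (geW (2 min h κ₁ + ε)) (i, z⁻¹ w) (i', z⁻¹ w')`. If `h ≥ κ₁`, `m = h - κ₁`: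
for all `u` with `ℓ u + 2 h + ε ≤ ℓ w + ℓ w'` one has `2 m + 2 κ + 1 + ℓ u ≤ ℓ w + ℓ w'`, so (`exists_peel`)
`Cc w w' u = [Pre z w'] Cc (z⁻¹ w) (z⁻¹ w') u`, and (if `Pre z w'`) the lengths of `z⁻¹ w`, `z⁻¹ w'` are `ℓ w - m`, `ℓ w' - m`, so
`geW (2 h + ε) w w' u = geW (2 κ₁ + ε) (z⁻¹ w) (z⁻¹ w') u`. If `h < κ₁`: `m = 0`, `z = 1`.
(To compare the two `Finsupp.sum`s write both as sums over `(Cc …).support ∪ (Cc …).support`, or use
`Finsupp.sum` of the product with the weight.) The bound is `C K √(a + 1) √((a' + 1) N₀)`.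
-/

set_option autoImplicit false

namespace Pool.Agent.H26.HR

open Pool.Agent.H26.HB Pool.Agent.H73.HVN

universe u v

variable {B : Type v} {W : Type u} [Group W] {M : CoxeterMatrix B} {cs : CoxeterSystem M W}

private theorem Blk_KX_eq (q : B → ℝ) {N : Type} (x : N → N → W → ℂ) {P P' : W → W → W → ℂ}
    {i i' : N} {w w' v v' : W} (h : ∀ u, Cc cs q w w' u * P w w' u = Cc cs q v v' u * P' v v' u) :
    KX cs q x P (i, w) (i', w') = KX cs q x P' (i, v) (i', v') := by
  classical
  unfold KX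
  rw [Finsupp.sum_of_support_subset _ (Finset.subset_union_left (s₂ := (Cc cs q v v').support)) _
      (by simp),
    Finsupp.sum_of_support_subset _ (Finset.subset_union_right (s₁ := (Cc cs q w w').support)) _
      (by simp)]
  refine Finset.sum_congr rfl fun u _ => ?_
  show Cc cs q w w' u * P w w' u * x i i' u = Cc cs q v v' u * P' v v' u * x i i' u
  rw [h u]

private theorem Blk_KX_zero (q : B → ℝ) {N : Type} (x : N → N → W → ℂ) {P : W → W → W → ℂ}
    {i i' : N} {w w' : W} (h : ∀ u, Cc cs q w w' u * P w w' u = 0) :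
    KX cs q x P (i, w) (i', w') = 0 := by
  unfold KX
  refine Finset.sum_eq_zero fun u _ => ?_
  show Cc cs q w w' u * P w w' u * x i i' u = 0
  rw [h u, zero_mul]

open Classical in
private theorem Blk_key {q : B → ℝ} {κ : ℕ} {N : Type} (x : N → N → W → ℂ) {ε : ℕ}
    {w w' z : W} {i i' : N} {k : ℕ} {h : ℤ} (hk : (cs.length w : ℤ) - k = h)
    (hz : cs.length z = cs.length w - k - (κ + 1)) (hzw : Pre cs z w)
    (hpeel : cs.length w - k - (κ + 1) = 0 ∨ ∀ u,
      2 * (cs.length w - k - (κ + 1)) + 2 * κ + 1 + cs.length u ≤ cs.length w + cs.length w' →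
      Cc cs q w w' u = if Pre cs z w' then Cc cs q (z⁻¹ * w) (z⁻¹ * w') u else 0) :
    KX cs q x (geW cs (2 * h + ε)) (i, w) (i', w') =
      if Pre cs z w' then
        KX cs q x (geW cs (2 * min h ((κ : ℤ) + 1) + ε)) (i, z⁻¹ * w) (i', z⁻¹ * w') else 0 := by
  rcases le_or_gt h ((κ : ℤ) + 1) with hle | hgt
  · have h0 : cs.length w - k - (κ + 1) = 0 := by omega
    rw [h0, cs.length_eq_zero_iff] at hz
    subst hz
    rw [if_pos (pre_one w'), min_eq_left hle, inv_one, one_mul, one_mul]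
  · have hpl := hpeel.resolve_left (by omega)
    rw [min_eq_right hgt.le]
    have hzz : ((cs.length z : ℕ) : ℤ) = h - (κ + 1) := by omega
    by_cases hp : Pre cs z w'
    · rw [if_pos hp]
      refine Blk_KX_eq q x fun u => ?_
      have e1 : cs.length w = cs.length z + cs.length (z⁻¹ * w) := hzw
      have e2 : cs.length w' = cs.length z + cs.length (z⁻¹ * w') := hp
      unfold geW
      by_cases hu : (cs.length u : ℤ) + (2 * h + ε) ≤ cs.length w + cs.length w'
      · have hu' : (cs.length u : ℤ) + (2 * ((κ : ℤ) + 1) + ε) ≤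
            cs.length (z⁻¹ * w) + cs.length (z⁻¹ * w') := by omega
        rw [if_pos hu, if_pos hu', hpl u (by omega), if_pos hp]
      · have hu' : ¬ (cs.length u : ℤ) + (2 * ((κ : ℤ) + 1) + ε) ≤
            cs.length (z⁻¹ * w) + cs.length (z⁻¹ * w') := by omega
        rw [if_neg hu, if_neg hu', mul_zero, mul_zero]
    · rw [if_neg hp]
      refine Blk_KX_zero q x fun u => ?_
      unfold geW
      by_cases hu : (cs.length u : ℤ) + (2 * h + ε) ≤ cs.length w + cs.length w'
      · rw [hpl u (by omega), if_neg hp, zero_mul]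
      · rw [if_neg hu, mul_zero]

open Classical in
private theorem Blk_z {q : B → ℝ} (hq : Admissible cs q) {κ : ℕ} (hκ : LetterProp cs κ) (w : W) (k : ℕ) :
    ∃ z, cs.length z = cs.length w - k - (κ + 1) ∧ Pre cs z w ∧
      (cs.length w - k - (κ + 1) = 0 ∨ ∀ w' u,
      2 * (cs.length w - k - (κ + 1)) + 2 * κ + 1 + cs.length u ≤ cs.length w + cs.length w' →
      Cc cs q w w' u = if Pre cs z w' then Cc cs q (z⁻¹ * w) (z⁻¹ * w') u else 0) := by
  by_cases hm : cs.length w - k - (κ + 1) = 0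
  · exact ⟨1, by rw [hm, cs.length_one], pre_one w, Or.inl hm⟩
  · obtain ⟨z, h1, h2, h3⟩ := exists_peel hq hκ (cs.length w - k - (κ + 1)) w (by omega)
    exact ⟨z, h1, h2, Or.inr h3⟩

theorem bd_blk [Finite B] {q : B → ℝ} (hq : Admissible cs q) {k κ : ℕ} (hk : IsHyp cs k)
    (hκ : LetterProp cs κ) :
    ∃ C : ℝ, 0 ≤ C ∧ ∀ (N : Type) (x : N → N → W → ℂ) (K : ℝ), 0 ≤ K →
      Bd (KX cs q x oneW) K → ∀ ε a a' : ℕ, ε ≤ 1 →
        Bd (blk cs q x ε a a') (C * K * (√((a + 1 : ℕ) : ℝ) * √((a' + 1 : ℕ) : ℝ))) := by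
  classical
  obtain ⟨C, hC0, hC⟩ := bd_ge hq hk hκ (2 * (κ + 1) + 1)
  obtain ⟨N₀, hN₀⟩ := card_prefix hk
  have hz := fun w k => Blk_z hq hκ w k
  choose z hz1 hz2 hz3 using hz
  refine ⟨C * √(N₀ : ℝ), mul_nonneg hC0 (Real.sqrt_nonneg _), fun N x K hK hx ε a a' hε => ?_⟩
  set PF : W → ℕ → Finset W := fun w m => (hN₀ w m).1.toFinset with hPF
  have hPFm : ∀ w m v, v ∈ PF w m ↔ Pre cs v w ∧ cs.length v = m := by
    intro w m v
    rw [hPF, Set.Finite.mem_toFinset]
    rfl
  have hPFc : ∀ w m, (PF w m).card ≤ N₀ := by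
    intro w m
    rw [hPF, ← Set.ncard_eq_toFinset_card _ (hN₀ w m).1]
    exact (hN₀ w m).2
  set X : ℤ × W → N × W → N × W → ℂ :=
    fun l => KX cs q x (geW cs (2 * min l.1 ((κ : ℤ) + 1) + ε)) with hX
  have hXb : ∀ l, Bd (X l) (C * K) := by
    intro l
    refine hC N x K hK hx _ ?_
    have h1 : min l.1 ((κ : ℤ) + 1) ≤ (κ : ℤ) + 1 := min_le_right _ _
    push_cast
    omega
  set f : W → ℕ → (ℤ × W) × W := fun w k => (((cs.length w : ℤ) - k, z w k), (z w k)⁻¹ * w) with hf
  set g : W → (Σ _ : ℕ, W) → (ℤ × W) × W :=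
    fun w y => (((cs.length w : ℤ) - y.1, y.2), y.2⁻¹ * w) with hg
  set S : W → Finset ((ℤ × W) × W) := fun w => (Finset.range (a + 1)).image (f w) with hS
  set T : W → Finset (Σ _ : ℕ, W) := fun w =>
    (Finset.range (a' + 1)).sigma fun l => PF w (cs.length w - l - (κ + 1)) with hT
  set S' : W → Finset ((ℤ × W) × W) := fun w => (T w).image (g w) with hS'
  have hfi : ∀ w, Function.Injective (f w) := by
    intro w k k' hkk
    have h1 := congrArg (fun y => y.1.1) hkk
    simp only [hf] at h1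
    omega
  have hgi : ∀ w, Function.Injective (g w) := by
    rintro w ⟨k, v⟩ ⟨k', v'⟩ hkk
    have h1 := congrArg (fun y => y.1.1) hkk
    have h2 := congrArg (fun y => y.1.2) hkk
    simp only [hg] at h1 h2
    have h3 : k = k' := by omega
    subst h3
    rw [h2]
  have hcS : ∀ w, (S w).card ≤ a + 1 := by
    intro w
    refine Finset.card_image_le.trans ?_
    rw [Finset.card_range]
  have hcS' : ∀ w, (S' w).card ≤ (a' + 1) * N₀ := by
    intro w
    refine Finset.card_image_le.trans ?_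
    rw [Finset.card_sigma]
    refine (Finset.sum_le_card_nsmul _ _ N₀ fun l _ => hPFc _ _).trans ?_
    rw [Finset.card_range, smul_eq_mul]
  have hi : ∀ w w' y, y ∈ S w → y ∈ S w' → w = w' := by
    intro w w' y h1 h2
    obtain ⟨k, -, hk1⟩ := Finset.mem_image.1 h1
    obtain ⟨k', -, hk2⟩ := Finset.mem_image.1 h2
    have e1 : w = y.1.2 * y.2 := by
      rw [← hk1]
      exact (mul_inv_cancel_left _ _).symm
    have e2 : w' = y.1.2 * y.2 := by
      rw [← hk2]
      exact (mul_inv_cancel_left _ _).symm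
    rw [e1, e2]
  have hi' : ∀ w w' y, y ∈ S' w → y ∈ S' w' → w = w' := by
    intro w w' y h1 h2
    obtain ⟨k, -, hk1⟩ := Finset.mem_image.1 h1
    obtain ⟨k', -, hk2⟩ := Finset.mem_image.1 h2
    have e1 : w = y.1.2 * y.2 := by
      rw [← hk1]
      exact (mul_inv_cancel_left _ _).symm
    have e2 : w' = y.1.2 * y.2 := by
      rw [← hk2]
      exact (mul_inv_cancel_left _ _).symm
    rw [e1, e2]
  have hpush := Bd.push (mul_nonneg hC0 hK) X hXb S S' hcS hcS' hi hi'
  have heq : (fun p p' : N × W => ∑ y ∈ S p.2, ∑ y' ∈ S' p'.2,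
      if y.1 = y'.1 then X y.1 (p.1, y.2) (p'.1, y'.2) else 0) = blk cs q x ε a a' := by
    funext p p'
    obtain ⟨i, w⟩ := p
    obtain ⟨i', w'⟩ := p'
    show ∑ y ∈ S w, ∑ y' ∈ S' w', (if y.1 = y'.1 then X y.1 (i, y.2) (i', y'.2) else 0) =
      ∑ k ∈ Finset.range (a + 1), ∑ l ∈ Finset.range (a' + 1),
        if cs.length w + l = cs.length w' + k then
          KX cs q x (geW cs (2 * ((cs.length w : ℤ) - k) + ε)) (i, w) (i', w') else 0
    rw [hS, Finset.sum_image fun k _ k' _ h => hfi w h]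
    refine Finset.sum_congr rfl fun k _ => ?_
    rw [hS', Finset.sum_image fun k _ k' _ h => hgi w' h, hT, Finset.sum_sigma]
    refine Finset.sum_congr rfl fun l _ => ?_
    by_cases hkl : cs.length w + l = cs.length w' + k
    · rw [if_pos hkl]
      have hkey := Blk_key (q := q) (κ := κ) x (ε := ε) (i := i) (i' := i') (w' := w')
        (rfl : (cs.length w : ℤ) - k = (cs.length w : ℤ) - k) (hz1 w k) (hz2 w k)
        ((hz3 w k).imp id fun h => h w')
      rw [hkey]
      have hm : cs.length w - k - (κ + 1) = cs.length w' - l - (κ + 1) := by omega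
      have hh : (cs.length w : ℤ) - k = (cs.length w' : ℤ) - l := by omega
      by_cases hp : Pre cs (z w k) w'
      · rw [if_pos hp, Finset.sum_eq_single (z w k)]
        · show (if ((cs.length w : ℤ) - k, z w k) = ((cs.length w' : ℤ) - l, z w k) then
            X ((cs.length w : ℤ) - k, z w k) (i, (z w k)⁻¹ * w) (i', (z w k)⁻¹ * w') else 0) = _
          rw [if_pos (by rw [hh])]
        · intro v _ hv
          show (if ((cs.length w : ℤ) - k, z w k) = ((cs.length w' : ℤ) - l, v) then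
            X ((cs.length w : ℤ) - k, z w k) (i, (z w k)⁻¹ * w) (i', v⁻¹ * w') else 0) = _
          rw [if_neg]
          intro h
          exact hv (congrArg Prod.snd h).symm
        · intro h
          exact absurd ((hPFm _ _ _).2 ⟨hp, by rw [hz1, hm]⟩) h
      · rw [if_neg hp]
        refine Finset.sum_eq_zero fun v hv => ?_
        show (if ((cs.length w : ℤ) - k, z w k) = ((cs.length w' : ℤ) - l, v) then
            X ((cs.length w : ℤ) - k, z w k) (i, (z w k)⁻¹ * w) (i', v⁻¹ * w') else 0) = _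
        rw [if_neg]
        intro h
        have h1 : z w k = v := congrArg Prod.snd h
        rw [← h1] at hv
        exact hp ((hPFm _ _ _).1 hv).1
    · rw [if_neg hkl]
      refine Finset.sum_eq_zero fun v _ => ?_
      show (if ((cs.length w : ℤ) - k, z w k) = ((cs.length w' : ℤ) - l, v) then
            X ((cs.length w : ℤ) - k, z w k) (i, (z w k)⁻¹ * w) (i', v⁻¹ * w') else 0) = _
      rw [if_neg]
      intro h
      have h1 : (cs.length w : ℤ) - k = (cs.length w' : ℤ) - l := congrArg Prod.fst h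
      omega
  have hpush' : Bd (blk cs q x ε a a')
      (C * K * (√((a + 1 : ℕ) : ℝ) * √(((a' + 1) * N₀ : ℕ) : ℝ))) := by
    rw [← heq]
    convert hpush
  refine hpush'.mono (le_of_eq ?_)
  have h1 : √(((a' + 1) * N₀ : ℕ) : ℝ) = √((a' + 1 : ℕ) : ℝ) * √(N₀ : ℝ) := by
    rw [Nat.cast_mul, Real.sqrt_mul (Nat.cast_nonneg _)]
  rw [h1]
  ring

end Pool.Agent.H26.HR
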