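import Pool.Agent.H26.HR.KDefs
import Pool.Agent.H26.HR.CcL
import Pool.Agent.H26.HR.BaseB
import Pool.Agent.H26.HB.CB

/-!
# Module CBf (HR): from kernels to the cb norm

PLAN. As in `Pool/Agent/H26/HB/CB.lean` (`cb_of_kernel`, whose proof can be copied: `m = 0`, `K0 ≥ 0`, limit over finite
subsets) it suffices to treat finitely supported `ξ`, `η`. With `x i j u = cf (Y i j) u 1`, `base_bd` and `hC` give
`Bd (KX x (fejW r)) (C * K0)`. For `ξ j = ∑ y ∈ A, a j y • δ y`, `η i = ∑ z ∈ A, b i z • δ z`: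
`⟪η i, Φ (Y i j) (ξ j)⟫ = ∑ z ∈ A, ∑ y ∈ A, conj (b i z) * cf (Φ (Y i j)) z y * a j y` and, with `z = w⁻¹`, `y = w'⁻¹`,
`cf (Φ (Y i j)) w⁻¹ w'⁻¹ = ∑ u, Cc w w' u * cf (Φ (Y i j)) u 1 = ∑ u, Cc w w' u * fej r (ℓ u) * cf (Y i j) u 1 =
KX x (fejW r) (i, w) (j, w')` (`coef_Cc` for `Φ (Y i j) ∈ HA`, `IsMult`; `cf x u 1 = x (δ 1) u` by definition). Apply the bound to
the finite set `univ ×ˢ A⁻¹`.
-/

set_option autoImplicit false

open scoped ComplexOrder InnerProductSpace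
open Filter Topology

namespace Pool.Agent.H26.HR

open Pool.Agent.H26.HB Pool.Agent.H73.HVN

universe u v

variable {B : Type v} {W : Type u} [Group W] {M : CoxeterMatrix B} {cs : CoxeterSystem M W}

private theorem CBf_coe_sum {Z : Type*} {ι : Type*} (F : Finset ι) (f : ι → L2 Z) (x : Z) :
    (∑ e ∈ F, f e : L2 Z) x = ∑ e ∈ F, (f e) x := by
  rw [lp.coeFn_sum, Finset.sum_apply]

private theorem CBf_coe_smul {Z : Type*} (z : ℂ) (f : L2 Z) (x : Z) :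
    (z • f : L2 Z) x = z * f x := by
  rw [lp.coeFn_smul, Pi.smul_apply, smul_eq_mul]

private theorem CBf_val_mem {Z : Type*} (F : Finset Z) (z : Z → ℂ) {x : Z} (hx : x ∈ F) :
    (∑ e ∈ F, z e • (δ e : L2 Z) : L2 Z) x = z x := by
  rw [CBf_coe_sum, Finset.sum_eq_single x]
  · rw [CBf_coe_smul, δ_self, mul_one]
  · intro e _ he
    rw [CBf_coe_smul, δ_ne (Ne.symm he), mul_zero]
  · intro h
    exact absurd hx h

private theorem CBf_val_not {Z : Type*} (F : Finset Z) (z : Z → ℂ) {x : Z} (hx : x ∉ F) :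
    (∑ e ∈ F, z e • (δ e : L2 Z) : L2 Z) x = 0 := by
  rw [CBf_coe_sum]
  refine Finset.sum_eq_zero fun e he => ?_
  rw [CBf_coe_smul, δ_ne, mul_zero]
  rintro rfl
  exact hx he

private theorem CBf_norm {Z : Type*} (F : Finset Z) (z : Z → ℂ) :
    ‖∑ e ∈ F, z e • (δ e : L2 Z)‖ ^ 2 = ∑ e ∈ F, ‖z e‖ ^ 2 := by
  have h1 := hasSum_normsq (∑ e ∈ F, z e • (δ e : L2 Z) : L2 Z)
  have h2 : HasSum (fun x => ‖(∑ e ∈ F, z e • (δ e : L2 Z) : L2 Z) x‖ ^ 2)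
      (∑ x ∈ F, ‖(∑ e ∈ F, z e • (δ e : L2 Z) : L2 Z) x‖ ^ 2) := by
    refine hasSum_sum_of_ne_finset_zero fun x hx => ?_
    rw [CBf_val_not F z hx, norm_zero]
    norm_num
  rw [h1.unique h2]
  refine Finset.sum_congr rfl fun x hx => ?_
  rw [CBf_val_mem F z hx]

private theorem CBf_inner {Z : Type*} (F : Finset Z) (z : Z → ℂ) (g : L2 Z) :
    ⟪(∑ e ∈ F, z e • (δ e : L2 Z) : L2 Z), g⟫_ℂ = ∑ e ∈ F, (starRingEnd ℂ) (z e) * g e := by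
  rw [sum_inner]
  refine Finset.sum_congr rfl fun e _ => ?_
  rw [inner_smul_left, inner_δ]

omit [Group W] in
private theorem CBf_form (T : L2 W →L[ℂ] L2 W) (A : Finset W) (a b : W → ℂ) :
    ⟪(∑ w ∈ A, b w • (δ w : L2 W) : L2 W), T (∑ w ∈ A, a w • (δ w : L2 W))⟫_ℂ =
      ∑ z ∈ A, ∑ y ∈ A, (starRingEnd ℂ) (b z) * cf T z y * a y := by
  rw [CBf_inner]
  refine Finset.sum_congr rfl fun z _ => ?_
  rw [map_sum, CBf_coe_sum, Finset.mul_sum]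
  refine Finset.sum_congr rfl fun y _ => ?_
  rw [map_smul, CBf_coe_smul]
  simp only [cf]
  ring

private theorem CBf_kx {q : B → ℝ} (hq : Admissible cs q) {r : ℕ}
    {Φ : HA cs q →ₗ[ℂ] HA cs q} (hΦ : IsMult cs q Φ (fun w => ((fej r (cs.length w) : ℝ) : ℂ)))
    {m : ℕ} (Y : Fin m → Fin m → HA cs q) (i j : Fin m) (w w' : W) :
    KX cs q (fun i j u => cf (Y i j : L2 W →L[ℂ] L2 W) u 1) (fejW cs r) (i, w) (j, w') =
      cf (Φ (Y i j) : L2 W →L[ℂ] L2 W) w⁻¹ w'⁻¹ := by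
  rw [coef_Cc hq (Φ (Y i j)).2 w w']
  unfold KX
  refine Finsupp.sum_congr fun u _ => ?_
  have h := hΦ (Y i j) u
  simp only [cf, fejW]
  rw [h]
  ring

private theorem CBf_fin {q : B → ℝ} (hq : Admissible cs q) {C : ℝ} {r : ℕ}
    (hC : ∀ (N : Type) (x : N → N → W → ℂ) (K : ℝ), 0 ≤ K → Bd (KX cs q x oneW) K →
      Bd (KX cs q x (fejW cs r)) (C * K))
    {Φ : HA cs q →ₗ[ℂ] HA cs q} (hΦ : IsMult cs q Φ (fun w => ((fej r (cs.length w) : ℝ) : ℂ)))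
    {m : ℕ} (Y : Fin m → Fin m → HA cs q) {K0 : ℝ} (hK0 : 0 ≤ K0)
    (hY : ∀ ξ η : Fin m → L2 W, ‖∑ i, ∑ j, ⟪η i, (Y i j : L2 W →L[ℂ] L2 W) (ξ j)⟫_ℂ‖ ≤
      K0 * (√(∑ j, ‖ξ j‖ ^ 2) * √(∑ i, ‖η i‖ ^ 2)))
    (A : Finset W) (a b : Fin m → W → ℂ) :
    ‖∑ i, ∑ j, ⟪(∑ w ∈ A, b i w • (δ w : L2 W) : L2 W),
      (Φ (Y i j) : L2 W →L[ℂ] L2 W) (∑ w ∈ A, a j w • (δ w : L2 W))⟫_ℂ‖ ≤
      C * K0 * (√(∑ j, ‖∑ w ∈ A, a j w • (δ w : L2 W)‖ ^ 2) *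
        √(∑ i, ‖∑ w ∈ A, b i w • (δ w : L2 W)‖ ^ 2)) := by
  have hbd := hC (Fin m) (fun i j u => cf (Y i j : L2 W →L[ℂ] L2 W) u 1) K0 hK0 (base_bd hq Y hY)
  have h := hbd (Finset.univ ×ˢ A.map (Equiv.inv W).toEmbedding)
    (fun p => a p.1 p.2⁻¹) (fun p => b p.1 p.2⁻¹)
  have e1 : ∑ p ∈ Finset.univ ×ˢ A.map (Equiv.inv W).toEmbedding,
      ∑ p' ∈ Finset.univ ×ˢ A.map (Equiv.inv W).toEmbedding,
        (starRingEnd ℂ) (b p.1 p.2⁻¹) *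
          KX cs q (fun i j u => cf (Y i j : L2 W →L[ℂ] L2 W) u 1) (fejW cs r) p p' *
            a p'.1 p'.2⁻¹ =
      ∑ i, ∑ j, ⟪(∑ w ∈ A, b i w • (δ w : L2 W) : L2 W),
        (Φ (Y i j) : L2 W →L[ℂ] L2 W) (∑ w ∈ A, a j w • (δ w : L2 W))⟫_ℂ := by
    rw [Finset.sum_product]
    refine Finset.sum_congr rfl fun i _ => ?_
    rw [Finset.sum_map]
    have e2 : ∀ z ∈ A, ∑ p' ∈ (Finset.univ : Finset (Fin m)) ×ˢ A.map (Equiv.inv W).toEmbedding,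
        (starRingEnd ℂ) (b (i, (Equiv.inv W).toEmbedding z).1
            (i, (Equiv.inv W).toEmbedding z).2⁻¹) *
          KX cs q (fun i j u => cf (Y i j : L2 W →L[ℂ] L2 W) u 1) (fejW cs r)
            (i, (Equiv.inv W).toEmbedding z) p' * a p'.1 p'.2⁻¹ =
        ∑ j, ∑ y ∈ A, (starRingEnd ℂ) (b i z) * cf (Φ (Y i j) : L2 W →L[ℂ] L2 W) z y * a j y := by
      intro z _
      rw [Finset.sum_product]
      refine Finset.sum_congr rfl fun j _ => ?_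
      rw [Finset.sum_map]
      refine Finset.sum_congr rfl fun y _ => ?_
      rw [CBf_kx hq hΦ Y i j]
      simp
    rw [Finset.sum_congr rfl e2, Finset.sum_comm]
    refine Finset.sum_congr rfl fun j _ => ?_
    rw [CBf_form]
  have e3 : ∀ c : Fin m → W → ℂ, ∑ p ∈ (Finset.univ : Finset (Fin m)) ×ˢ
      A.map (Equiv.inv W).toEmbedding, ‖c p.1 p.2⁻¹‖ ^ 2 =
      ∑ j, ‖∑ w ∈ A, c j w • (δ w : L2 W)‖ ^ 2 := by
    intro c
    rw [Finset.sum_product]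
    refine Finset.sum_congr rfl fun j _ => ?_
    rw [Finset.sum_map, CBf_norm]
    refine Finset.sum_congr rfl fun y _ => ?_
    simp
  rw [e1, e3 a, e3 b] at h
  exact h

theorem cb_of_bd {q : B → ℝ} (hq : Admissible cs q) {C : ℝ} {r : ℕ}
    (hC : ∀ (N : Type) (x : N → N → W → ℂ) (K : ℝ), 0 ≤ K → Bd (KX cs q x oneW) K →
      Bd (KX cs q x (fejW cs r)) (C * K))
    {Φ : HA cs q →ₗ[ℂ] HA cs q} (hΦ : IsMult cs q Φ (fun w => ((fej r (cs.length w) : ℝ) : ℂ))) :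
    CBNormLE (HA cs q) Φ C := by
  intro m Y K0 hY ξ η
  rcases Nat.eq_zero_or_pos m with hm | hm
  · subst hm
    simp
  have hδ : ‖(δ 1 : L2 W)‖ = 1 := norm_δ 1
  have hK0 : 0 ≤ K0 := by
    have h1 := hY (fun _ => δ 1) (fun _ => δ 1)
    have h2 : (0 : ℝ) ≤ K0 * (√(∑ _j : Fin m, ‖(δ 1 : L2 W)‖ ^ 2) *
        √(∑ _i : Fin m, ‖(δ 1 : L2 W)‖ ^ 2)) := (norm_nonneg _).trans h1
    rw [Real.mul_self_sqrt (Finset.sum_nonneg fun _ _ => by positivity)] at h2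
    rw [hδ] at h2
    simp only [one_pow, Finset.sum_const, Finset.card_univ, Fintype.card_fin, nsmul_eq_mul,
      mul_one] at h2
    have h3 : (0 : ℝ) < m := by exact_mod_cast hm
    by_contra hneg
    push Not at hneg
    have := mul_neg_of_neg_of_pos hneg h3
    linarith
  have hξ : ∀ j, Tendsto (fun A : Finset W => ∑ w ∈ A, ξ j w • (δ w : L2 W)) atTop
      (𝓝 (ξ j)) := fun j => hasSum_δ (ξ j)
  have hη : ∀ i, Tendsto (fun A : Finset W => ∑ w ∈ A, η i w • (δ w : L2 W)) atTop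
      (𝓝 (η i)) := fun i => hasSum_δ (η i)
  have hl : Tendsto (fun A : Finset W => ‖∑ i, ∑ j, ⟪∑ w ∈ A, η i w • (δ w : L2 W),
      (Φ (Y i j) : L2 W →L[ℂ] L2 W) (∑ w ∈ A, ξ j w • (δ w : L2 W))⟫_ℂ‖) atTop
      (𝓝 ‖∑ i, ∑ j, ⟪η i, (Φ (Y i j) : L2 W →L[ℂ] L2 W) (ξ j)⟫_ℂ‖) := by
    refine Tendsto.norm (tendsto_finsetSum _ fun i _ => tendsto_finsetSum _ fun j _ => ?_)
    exact Tendsto.inner (hη i)
      (((Φ (Y i j) : L2 W →L[ℂ] L2 W).continuous.tendsto _).comp (hξ j))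
  have hr : Tendsto (fun A : Finset W => C * K0 *
      (√(∑ j, ‖∑ w ∈ A, ξ j w • (δ w : L2 W)‖ ^ 2) *
        √(∑ i, ‖∑ w ∈ A, η i w • (δ w : L2 W)‖ ^ 2))) atTop
      (𝓝 (C * K0 * (√(∑ j, ‖ξ j‖ ^ 2) * √(∑ i, ‖η i‖ ^ 2)))) := by
    refine Tendsto.const_mul _ (Tendsto.mul ?_ ?_)
    · exact (Real.continuous_sqrt.tendsto _).comp
        (tendsto_finsetSum _ fun j _ => ((hξ j).norm.pow 2))
    · exact (Real.continuous_sqrt.tendsto _).comp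
        (tendsto_finsetSum _ fun i _ => ((hη i).norm.pow 2))
  refine le_of_tendsto_of_tendsto' hl hr fun A => ?_
  exact CBf_fin hq hC hΦ Y hK0 hY A (fun j w => ξ j w) (fun i w => η i w)

end Pool.Agent.H26.HR
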