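import Pool.Agent.H26.HR.Hc1
import Pool.Agent.H73.HVN.Conv

/-!
# Module Coef2 (HR): matrix coefficients of operators in `HA`

`X = cf x`. `CC` (`mem_HA_iff_CC`): `X z (y s_i) + pr i y * X z y = X (z s_i) y + pr i z * X z y`.

PLAN. `coef_eq`: induction over `ω = i :: ω'` (reduced, so `ω'` is reduced and `i` is not a right descent of
`y' = (wordProd ω')⁻¹`): `(wordProd ω)⁻¹ = y' s_i`, so by `CC`, `X z (y' s_i) = X (z s_i) y' + pr i z * X z y'`; `hc_cons`.
`coef_one`: `X 1 u = X u⁻¹ 1` (`coef_eq` with `z = 1` and a reduced word of `u⁻¹`, `hc_of_reduced`).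
`coef_eq'`: the same with the roles of the two arguments exchanged: `X (z' s_i) y = X z' (y s_i) + pr i y * X z' y` if `i` is not a
right descent of `z'`; induction gives `X (wordProd ω)⁻¹ y = ∑ u, hc y ω u * X 1 u`.
`hc_congr`: both sides give `cf x z y` for all `x ∈ HA`; take `x ∈ HA` with `x δ_1 = δ_u` (`HA_cyclic`), so
`cf x u' 1 = [u' = u]` (`δ_self`, `δ_ne`).
-/

set_option autoImplicit false

open scoped ComplexOrder InnerProductSpace

namespace Pool.Agent.H26.HR

open Pool.Agent.H26.HB Pool.Agent.H73.HVN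

universe u v

variable {B : Type v} {W : Type u} [Group W] {M : CoxeterMatrix B} {cs : CoxeterSystem M W}

omit [Group W] in
private theorem Coef2_sum_eq (f : W →₀ ℂ) (g : W → ℂ) :
    (f.sum fun u c => c * g u) = Finsupp.linearCombination ℂ g f := rfl

private theorem Coef2_pr_zero {q : B → ℝ} {i : B} {ω : List B} (hω : cs.IsReduced (i :: ω)) :
    pr cs q i (cs.wordProd ω)⁻¹ = 0 := by
  have h1 : ¬ cs.IsRightDescent (cs.wordProd ω)⁻¹ i := by
    intro h
    have h2 : cs.length ((cs.wordProd ω)⁻¹ * cs.simple i) < cs.length (cs.wordProd ω)⁻¹ := h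
    have h3 : (cs.wordProd ω)⁻¹ * cs.simple i = (cs.wordProd (i :: ω))⁻¹ := by
      rw [cs.wordProd_cons, mul_inv_rev, cs.inv_simple]
    have h4 : cs.length (cs.wordProd (i :: ω)) = (i :: ω).length := hω
    rw [h3, cs.length_inv, cs.length_inv, h4] at h2
    have h5 := cs.length_wordProd_le ω
    simp only [List.length_cons] at h2
    omega
  rw [pr, if_neg h1]

private theorem Coef2_tail {i : B} {ω : List B} (hω : cs.IsReduced (i :: ω)) : cs.IsReduced ω := by
  have h := hω.drop 1
  simpa using h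

theorem coef_eq {q : B → ℝ} (hq : Admissible cs q) {x : L2 W →L[ℂ] L2 W} (hx : x ∈ HA cs q) (z : W)
    {ω : List B} (hω : cs.IsReduced ω) :
    cf x z (cs.wordProd ω)⁻¹ = (hc cs q z ω).sum fun u c => c * cf x u 1 := by
  rw [Coef2_sum_eq _ fun u => cf x u 1]
  induction ω generalizing z with
  | nil => rw [hc_nil, Finsupp.linearCombination_single, cs.wordProd_nil, inv_one, one_smul]
  | cons i ω ih =>
    have hω' := Coef2_tail hω
    have hcc := (mem_HA_iff_CC cs hq x).1 hx i z (cs.wordProd ω)⁻¹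
    rw [Coef2_pr_zero hω, zero_mul, add_zero] at hcc
    rw [hc_cons, map_add, map_smul, ← ih (z * cs.simple i) hω', ← ih z hω', smul_eq_mul, ← hcc,
      cs.wordProd_cons, mul_inv_rev, cs.inv_simple]

theorem coef_one {q : B → ℝ} (hq : Admissible cs q) {x : L2 W →L[ℂ] L2 W} (hx : x ∈ HA cs q) (u : W) :
    cf x 1 u = cf x u⁻¹ 1 := by
  have h := coef_eq hq hx 1 (wrd_isReduced cs u⁻¹)
  rw [wrd_prod, inv_inv, hc_of_reduced q (by rw [one_mul, wrd_prod, wrd_length, cs.length_one, zero_add]),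
    Finsupp.sum_single_index (zero_mul _), one_mul, one_mul, wrd_prod] at h
  exact h

theorem coef_eq' {q : B → ℝ} (hq : Admissible cs q) {x : L2 W →L[ℂ] L2 W} (hx : x ∈ HA cs q) (y : W)
    {ω : List B} (hω : cs.IsReduced ω) :
    cf x (cs.wordProd ω)⁻¹ y = (hc cs q y ω).sum fun u c => c * cf x 1 u := by
  rw [Coef2_sum_eq _ fun u => cf x 1 u]
  induction ω generalizing y with
  | nil => rw [hc_nil, Finsupp.linearCombination_single, cs.wordProd_nil, inv_one, one_smul]
  | cons i ω ih =>
    have hω' := Coef2_tail hω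
    have hcc := (mem_HA_iff_CC cs hq x).1 hx i (cs.wordProd ω)⁻¹ y
    rw [Coef2_pr_zero hω, zero_mul, add_zero] at hcc
    rw [hc_cons, map_add, map_smul, ← ih (y * cs.simple i) hω', ← ih y hω', smul_eq_mul, hcc,
      cs.wordProd_cons, mul_inv_rev, cs.inv_simple]

/-- the coefficients `cf x u 1` of the elements `x` of `HA` separate finitely supported functions -/
theorem finsupp_ext_HA (q : B → ℝ) {a b : W →₀ ℂ}
    (h : ∀ x ∈ HA cs q, (a.sum fun u c => c * cf x u 1) = b.sum fun u c => c * cf x u 1) :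
    a = b := by
  classical
  have key : ∀ (f : W →₀ ℂ) (u' : W), (f.sum fun u c => c * (δ u' : L2 W) u) = f u' := by
    intro f u'
    rw [Finsupp.sum, Finset.sum_eq_single u']
    · rw [δ_self, mul_one]
    · intro u _ hu
      rw [δ_ne hu, mul_zero]
    · intro hu
      rw [Finsupp.notMem_support_iff.1 hu, zero_mul]
  ext u'
  obtain ⟨x, hx, hx1⟩ := HA_cyclic cs q u'
  have h1 := h x hx
  simp only [cf, hx1] at h1
  rw [key, key] at h1
  exact h1

theorem hc_congr {q : B → ℝ} (hq : Admissible cs q) (z : W) {ω ω' : List B} (hω : cs.IsReduced ω)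
    (hω' : cs.IsReduced ω') (h : cs.wordProd ω = cs.wordProd ω') : hc cs q z ω = hc cs q z ω' := by
  refine finsupp_ext_HA (cs := cs) q fun x hx => ?_
  rw [← coef_eq hq hx z hω, ← coef_eq hq hx z hω', h]

end Pool.Agent.H26.HR
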