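import Mathlib

/-!
# Module CountL (HR): a counting identity

PLAN. Put `D = A - A'` (integer). For `ε` and a pair `(k, l)` with `A + l = A' + k` and `u + ε ≤ k + l`, the number of
`a ∈ range (r + ε)` with `k ≤ a`, `l ≤ r + ε - 1 - a` is `r + ε - k - l` (truncated). The pairs are determined by
`m = k + l - ε ≥ u`: `k = (m + ε + D) / 2`, which is an integer iff `m + ε ≡ D` mod 2 (`k ≥ 0` and `l ≥ 0` since
`m ≥ u ≥ |D|`); so every `m ≥ u` occurs for exactly one `ε ∈ {0, 1}`, and the sum is
`∑_{m ≥ u} (r - m) = (r - u)(r - u + 1) / 2`. (Checked by computer for small values. Another way: induction over `r`: the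
difference of the sums for `r + 1` and `r` counts the pairs with `k + l - ε ≤ r`, i.e. is `r + 1 - u`: for fixed `ε` the
number of `a` increases by one for every such pair.)
-/

set_option autoImplicit false

namespace Pool.Agent.H26.HR

private def CountL_S (g : ℕ → ℕ → ℕ) (n : ℕ) : ℕ :=
  ∑ a ∈ Finset.range n, ∑ k ∈ Finset.range (a + 1), ∑ l ∈ Finset.range (n - a), g k l

private def CountL_T (g : ℕ → ℕ → ℕ) (n : ℕ) : ℕ :=
  ∑ a ∈ Finset.range (n + 1), ∑ k ∈ Finset.range (a + 1), g k (n - a)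

private def CountL_U (g : ℕ → ℕ → ℕ) (n : ℕ) : ℕ :=
  ∑ a ∈ Finset.range (n + 1), g a (n - a)

private theorem CountL_S_succ (g : ℕ → ℕ → ℕ) (n : ℕ) :
    CountL_S g (n + 1) = CountL_S g n + CountL_T g n := by
  have e1 : CountL_S g (n + 1) = ∑ a ∈ Finset.range n, ∑ k ∈ Finset.range (a + 1), ∑ l ∈ Finset.range (n + 1 - a), g k l
      + ∑ k ∈ Finset.range (n + 1), ∑ l ∈ Finset.range (n + 1 - n), g k l := Finset.sum_range_succ _ n
  have e2 : CountL_T g n = ∑ a ∈ Finset.range n, ∑ k ∈ Finset.range (a + 1), g k (n - a)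
      + ∑ k ∈ Finset.range (n + 1), g k (n - n) := Finset.sum_range_succ _ n
  have e3 : ∑ a ∈ Finset.range n, ∑ k ∈ Finset.range (a + 1), ∑ l ∈ Finset.range (n + 1 - a), g k l
      = CountL_S g n + ∑ a ∈ Finset.range n, ∑ k ∈ Finset.range (a + 1), g k (n - a) := by
    unfold CountL_S
    rw [← Finset.sum_add_distrib]
    refine Finset.sum_congr rfl fun a ha => ?_
    have ha' : a < n := Finset.mem_range.mp ha
    rw [← Finset.sum_add_distrib]
    refine Finset.sum_congr rfl fun k _ => ?_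
    have h1 : n + 1 - a = (n - a) + 1 := by omega
    rw [h1, Finset.sum_range_succ]
  have e4 : ∑ k ∈ Finset.range (n + 1), ∑ l ∈ Finset.range (n + 1 - n), g k l
      = ∑ k ∈ Finset.range (n + 1), g k (n - n) := by
    refine Finset.sum_congr rfl fun k _ => ?_
    have h1 : n + 1 - n = 1 := by omega
    have h2 : n - n = 0 := by omega
    rw [h1, h2, Finset.sum_range_one]
  rw [e1, e2, e3, e4]
  ring

private theorem CountL_T_succ (g : ℕ → ℕ → ℕ) (n : ℕ) :
    CountL_T g (n + 1) = CountL_T g n + CountL_U g (n + 1) := by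
  have e1 : CountL_T g (n + 1) = ∑ a ∈ Finset.range (n + 1), ∑ k ∈ Finset.range (a + 1 + 1), g k (n + 1 - (a + 1))
      + ∑ k ∈ Finset.range (0 + 1), g k (n + 1 - 0) := Finset.sum_range_succ' _ (n + 1)
  have e2 : CountL_U g (n + 1) = ∑ a ∈ Finset.range (n + 1), g (a + 1) (n + 1 - (a + 1)) + g 0 (n + 1 - 0) :=
    Finset.sum_range_succ' _ (n + 1)
  have e3 : ∑ a ∈ Finset.range (n + 1), ∑ k ∈ Finset.range (a + 1 + 1), g k (n + 1 - (a + 1))
      = CountL_T g n + ∑ a ∈ Finset.range (n + 1), g (a + 1) (n + 1 - (a + 1)) := by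
    unfold CountL_T
    rw [← Finset.sum_add_distrib]
    refine Finset.sum_congr rfl fun a _ => ?_
    have h1 : n + 1 - (a + 1) = n - a := by omega
    rw [h1, Finset.sum_range_succ]
  have e4 : ∑ k ∈ Finset.range (0 + 1), g k (n + 1 - 0) = g 0 (n + 1 - 0) := by
    simp
  rw [e1, e2, e3, e4]
  ring

private def CountL_g (A A' w : ℕ) (k l : ℕ) : ℕ := if A + l = A' + k ∧ w ≤ k + l then 1 else 0

private theorem CountL_U_eq (A A' w m a0 : ℕ) (h0 : a0 ≤ m) (h : A + m = A' + 2 * a0) (hw : w ≤ m) :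
    CountL_U (CountL_g A A' w) m = 1 := by
  unfold CountL_U CountL_g
  rw [Finset.sum_eq_single a0]
  · rw [if_pos]
    omega
  · intro b hb hne
    have hb' : b < m + 1 := Finset.mem_range.mp hb
    rw [if_neg]
    omega
  · intro hn
    exact absurd (Finset.mem_range.mpr (by omega)) hn

private theorem CountL_U_zero (A A' w m : ℕ) (h : ∀ a, a ≤ m → w ≤ m → A + m ≠ A' + 2 * a) :
    CountL_U (CountL_g A A' w) m = 0 := by
  unfold CountL_U CountL_g
  refine Finset.sum_eq_zero fun b hb => ?_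
  have hb' : b < m + 1 := Finset.mem_range.mp hb
  rw [if_neg]
  rintro ⟨h1, h2⟩
  exact h b (by omega) (by omega) (by omega)

private theorem CountL_U_add (A A' u m : ℕ) (h1 : A ≤ A' + u) (h2 : A' ≤ A + u) :
    CountL_U (CountL_g A A' u) m + CountL_U (CountL_g A A' (u + 1)) (m + 1) = if u ≤ m then 1 else 0 := by
  by_cases hu : u ≤ m
  · rw [if_pos hu]
    rcases Nat.even_or_odd' (A + m - A') with ⟨c, hc | hc⟩
    · rw [CountL_U_eq A A' u m c (by omega) (by omega) hu, CountL_U_zero A A' (u + 1) (m + 1)]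
      intro a _ _
      omega
    · rw [CountL_U_zero A A' u m, CountL_U_eq A A' (u + 1) (m + 1) (c + 1) (by omega) (by omega) (by omega)]
      intro a _ _
      omega
  · rw [if_neg hu, CountL_U_zero A A' u m, CountL_U_zero A A' (u + 1) (m + 1)]
    · intro a _ h
      omega
    · intro a _ h
      omega

private theorem CountL_T_add (A A' u m : ℕ) (h1 : A ≤ A' + u) (h2 : A' ≤ A + u) :
    CountL_T (CountL_g A A' u) m + CountL_T (CountL_g A A' (u + 1)) (m + 1) = m + 1 - u := by
  induction m with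
  | zero =>
    have e0 : CountL_T (CountL_g A A' u) 0 = CountL_U (CountL_g A A' u) 0 := by
      simp [CountL_T, CountL_U]
    have e1 : CountL_T (CountL_g A A' (u + 1)) 0 = 0 := by
      simp [CountL_T, CountL_g]
    rw [e0, CountL_T_succ, e1, zero_add, CountL_U_add A A' u 0 h1 h2]
    split_ifs <;> omega
  | succ m ih =>
    have h3 := CountL_U_add A A' u (m + 1) h1 h2
    rw [CountL_T_succ, CountL_T_succ (n := m + 1)]
    split_ifs at h3 <;> omega

private theorem CountL_S_add (A A' u r : ℕ) (h1 : A ≤ A' + u) (h2 : A' ≤ A + u) :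
    2 * (CountL_S (CountL_g A A' u) r + CountL_S (CountL_g A A' (u + 1)) (r + 1)) = (r - u) * (r - u + 1) := by
  induction r with
  | zero =>
    simp [CountL_S, CountL_g]
  | succ r ih =>
    have h3 := CountL_T_add A A' u r h1 h2
    have h4 : CountL_S (CountL_g A A' u) (r + 1) + CountL_S (CountL_g A A' (u + 1)) (r + 1 + 1)
        = (CountL_S (CountL_g A A' u) r + CountL_S (CountL_g A A' (u + 1)) (r + 1)) + (r + 1 - u) := by
      rw [CountL_S_succ, CountL_S_succ (n := r + 1)]
      omega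
    rw [h4, mul_add, ih]
    by_cases hu : u ≤ r
    · obtain ⟨d, rfl⟩ := Nat.exists_eq_add_of_le hu
      have e1 : u + d - u = d := by omega
      have e2 : u + d + 1 - u = d + 1 := by omega
      rw [e1, e2]
      ring
    · have e1 : r - u = 0 := by omega
      have e2 : r + 1 - u = 0 := by omega
      rw [e1, e2]

theorem count_id (r A A' u : ℕ) (h1 : A ≤ A' + u) (h2 : A' ≤ A + u) :
    2 * ∑ ε ∈ Finset.range 2, ∑ a ∈ Finset.range (r + ε),
      ∑ k ∈ Finset.range (a + 1), ∑ l ∈ Finset.range (r + ε - 1 - a + 1),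
        (if A + l = A' + k ∧ u + ε ≤ k + l then 1 else 0) = (r - u) * (r - u + 1) := by
  rw [← CountL_S_add A A' u r h1 h2]
  congr 1
  have key : ∀ ε : ℕ, ∑ a ∈ Finset.range (r + ε),
      ∑ k ∈ Finset.range (a + 1), ∑ l ∈ Finset.range (r + ε - 1 - a + 1),
        (if A + l = A' + k ∧ u + ε ≤ k + l then 1 else 0) = CountL_S (CountL_g A A' (u + ε)) (r + ε) := by
    intro ε
    unfold CountL_S CountL_g
    refine Finset.sum_congr rfl fun a ha => ?_
    have ha' : a < r + ε := Finset.mem_range.mp ha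
    have h3 : r + ε - 1 - a + 1 = r + ε - a := by omega
    rw [h3]
  rw [Finset.sum_range_succ, Finset.sum_range_one, key 0, key 1]
  simp

end Pool.Agent.H26.HR
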