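import Pool.Agent.H26.HB.Defs
import Pool.Agent.H73.HVN.Coef

/-!
# Project HR: Hecke-von Neumann algebras of hyperbolic Coxeter groups, real parameters: definitions

`wd cs a b = ℓ (a⁻¹ b)`; `gp cs a b` is twice the Gromov product of `a` and `b` at `1`; `Pre cs v w`: `v` is a prefix
of `w`. `N(w)` denotes the set of left inversions of `w` (`cs.IsLeftInversion w t`, i.e. `t` is a reflection with
`ℓ (t w) < ℓ w`).

`hc q x ω : W →₀ ℂ` are the coefficients of `T_x T_{s_1} ⋯ T_{s_n}` for the word `ω = [s_1, …, s_n]`;
`Cc q w w'` are the coefficients of `T_{w⁻¹} T_{w'}`. For an operator `x` in `N_q(W)` with `x δ_1 = ∑ x_u δ_u` one has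
`cf x w⁻¹ w'⁻¹ = ∑ u, Cc q w w' u * x_u` (module `Coef2`).
-/

set_option autoImplicit false

namespace Pool.Agent.H26.HR

open Pool.Agent.H26.HB Pool.Agent.H73.HVN

universe u v

variable {B : Type v} {W : Type u} [Group W] {M : CoxeterMatrix B} (cs : CoxeterSystem M W)

/-- twice the Gromov product of `a` and `b` at `1` -/
noncomputable def gp (a b : W) : ℕ := cs.length a + cs.length b - wd cs a b

/-- `v` is a prefix of `w` -/
def Pre (v w : W) : Prop := cs.length w = cs.length v + cs.length (v⁻¹ * w)

/-- `Path cs x ω u n`: the element `u` is reached from `x` along the word `ω`, where at a letter `i` which is a right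
descent of the current element `y` one may go to `y s_i` or stay at `y`, with exactly `n` such steps (at the other
letters one goes to `y s_i`). -/
inductive Path : W → List B → W → ℕ → Prop
  | nil (x : W) : Path x [] x 0
  | up {x : W} {i : B} {ω : List B} {u : W} {n : ℕ} : ¬ cs.IsRightDescent x i →
      Path (x * cs.simple i) ω u n → Path x (i :: ω) u n
  | down {x : W} {i : B} {ω : List B} {u : W} {n : ℕ} : cs.IsRightDescent x i →
      Path (x * cs.simple i) ω u n → Path x (i :: ω) u (n + 1)
  | stay {x : W} {i : B} {ω : List B} {u : W} {n : ℕ} : cs.IsRightDescent x i →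
      Path x ω u n → Path x (i :: ω) u (n + 1)

/-- the coefficients of `T_x T_{s_1} ⋯ T_{s_n}` -/
noncomputable def hc (q : B → ℝ) : W → List B → (W →₀ ℂ)
  | x, [] => Finsupp.single x 1
  | x, i :: ω => hc q (x * cs.simple i) ω + pr cs q i x • hc q x ω

/-- a reduced word of `w` -/
noncomputable def wrd (w : W) : List B := (cs.exists_isReduced w).choose

/-- the coefficients of `T_{w⁻¹} T_{w'}` -/
noncomputable def Cc (q : B → ℝ) (w w' : W) : W →₀ ℂ := hc cs q w⁻¹ (wrd cs w')

/-- The letter property: every `w` with `ℓ w ≥ κ` has a letter `i` which is a left descent of all `w'` with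
`gp w w' ≥ 2 κ`. -/
def LetterProp (κ : ℕ) : Prop :=
  ∀ w : W, κ ≤ cs.length w → ∃ i : B, ∀ w' : W, 2 * κ ≤ gp cs w w' → cs.IsLeftDescent w' i

/-- `α` is a good initial part of a reduced word of `w'`: a path along a reduced word `α ++ β` of `w'` with at most `p`
descent steps in `α` has no descent step in `β`. -/
def Good (p : ℕ) (α : List B) (w' : W) : Prop :=
  ∀ β : List B, cs.IsReduced (α ++ β) → cs.wordProd (α ++ β) = w' →
    ∀ (x k : W) (n : ℕ) (u : W) (n' : ℕ), Path cs x α k n → n ≤ p → Path cs k β u n' → n' = 0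

theorem wrd_isReduced (w : W) : cs.IsReduced (wrd cs w) := (cs.exists_isReduced w).choose_spec.1

theorem wrd_prod (w : W) : cs.wordProd (wrd cs w) = w := (cs.exists_isReduced w).choose_spec.2.symm

theorem wrd_length (w : W) : (wrd cs w).length = cs.length w := by
  have h := wrd_isReduced cs w
  unfold CoxeterSystem.IsReduced at h
  rw [← h, wrd_prod]

end Pool.Agent.H26.HR
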