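import Pool.Agent.H26.HR.ZPre

/-!
# Module Far (HR): walls far from `1`

PLAN. `far_wall`: let `v` be an element of minimal length with `t ∈ N(v)`. If `ℓ v ≤ κ + k + 1` take `v`. Otherwise
`m = ℓ v - (κ + k + 1)`, `z` from `exists_pre`; for every `u` with `t ∈ N(u)`, `2 ℓ v ≤ gp v u + 2 k + 1` (`conv_gp`), so
`2 m + 2 κ ≤ gp v u + 2` and `Pre z u`. Every left inversion `K` of `z` is then an inversion of all such `u` (`Pre.inv`), and
`K ≠ t` as `ℓ z < ℓ v`. So `N(z) ⊆ N(y0)` and `ℓ z ≤ ℓ y0` (`length_le_of_inv`), `ℓ v = m + κ + k + 1`.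

`common_small`: by `exists_common` there is a common inversion `t`; let `v` be of minimal length with `t ∈ N(v)`. If
`ℓ v ≤ κ + k + 1` take `t`. Otherwise (`exists_pre` with `m = 1`, `conv_gp`) there is `z` with `ℓ z = 1`, `z` a prefix of every
`u` with `t ∈ N(u)`, so of `w` and of `w'`; `z = s_i` (`cs.length_eq_one_iff`); take the reflection `z` and `v = z`
(`pre_simple_iff` or `Pre.inv`).
-/

set_option autoImplicit false

namespace Pool.Agent.H26.HR

open Pool.Agent.H26.HB Pool.Agent.H73.HVN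

universe u v

variable {B : Type v} {W : Type u} [Group W] {M : CoxeterMatrix B} {cs : CoxeterSystem M W}

private theorem Far_min {t v₀ : W} (hv₀ : cs.IsLeftInversion v₀ t) :
    ∃ v, cs.IsLeftInversion v t ∧ ∀ p, cs.IsLeftInversion p t → cs.length v ≤ cs.length p := by
  classical
  have h : ∃ n : ℕ, ∃ v, cs.IsLeftInversion v t ∧ cs.length v = n := ⟨_, v₀, hv₀, rfl⟩
  obtain ⟨v, hv, hn⟩ := Nat.find_spec h
  refine ⟨v, hv, fun p hp => ?_⟩
  rw [hn]
  exact Nat.find_min' h ⟨p, hp, rfl⟩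

theorem far_wall {k κ : ℕ} (hk : IsHyp cs k) (hκ : LetterProp cs κ) {t v₀ : W}
    (hv₀ : cs.IsLeftInversion v₀ t) (y0 : W)
    (hdom : ∀ K, cs.IsReflection K → K ≠ t →
      (∀ v, cs.IsLeftInversion v t → cs.IsLeftInversion v K) → cs.IsLeftInversion y0 K) :
    ∃ v, cs.IsLeftInversion v t ∧ cs.length v ≤ cs.length y0 + κ + k + 1 := by
  obtain ⟨v, hv, hmin⟩ := Far_min hv₀
  by_cases hle : cs.length v ≤ κ + k + 1
  · exact ⟨v, hv, by omega⟩
  obtain ⟨m, hm⟩ : ∃ m, cs.length v = m + (κ + k + 1) := ⟨cs.length v - (κ + k + 1), by omega⟩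
  obtain ⟨z, hz, hzv, hzu⟩ := exists_pre hκ m v (by omega)
  have hpre : ∀ u, cs.IsLeftInversion u t → Pre cs z u := by
    intro u hu
    have h1 := conv_gp hk hv hu hmin
    exact hzu u (by omega)
  have hlen : cs.length z ≤ cs.length y0 := by
    refine length_le_of_inv cs fun K hK => ?_
    refine hdom K hK.1 ?_ fun u hu => (hpre u hu).inv hK
    rintro rfl
    have h2 := hmin z hK
    omega
  exact ⟨v, hv, by omega⟩

theorem common_small {k κ : ℕ} (hk : IsHyp cs k) (hκ : LetterProp cs κ) {w w' : W}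
    (h : cs.length (w⁻¹ * w') < cs.length w + cs.length w') :
    ∃ t, cs.IsLeftInversion w t ∧ cs.IsLeftInversion w' t ∧
      ∃ v, cs.IsLeftInversion v t ∧ cs.length v ≤ κ + k + 1 := by
  obtain ⟨t, ht, ht'⟩ := exists_common cs h
  obtain ⟨v, hv, hmin⟩ := Far_min ht
  by_cases hle : cs.length v ≤ κ + k + 1
  · exact ⟨t, ht, ht', v, hv, hle⟩
  obtain ⟨z, hz, -, hzu⟩ := exists_pre hκ 1 v (by omega)
  have hpre : ∀ u, cs.IsLeftInversion u t → Pre cs z u := by
    intro u hu
    have h1 := conv_gp hk hv hu hmin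
    exact hzu u (by omega)
  obtain ⟨i, rfl⟩ := cs.length_eq_one_iff.1 hz
  refine ⟨cs.simple i, (cs.isLeftInversion_simple_iff_isLeftDescent _ _).2 (pre_simple_iff.1 (hpre w ht)),
    (cs.isLeftInversion_simple_iff_isLeftDescent _ _).2 (pre_simple_iff.1 (hpre w' ht')), cs.simple i, ?_, by omega⟩
  refine ⟨cs.isReflection_simple i, ?_⟩
  rw [cs.simple_mul_simple_self, cs.length_one, hz]
  exact Nat.one_pos

end Pool.Agent.H26.HR
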