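import Pool.Agent.H26.HR.KDefs
import Pool.Agent.H26.HR.CcL
import Pool.Agent.H26.HR.CountL

/-!
# Module FejL (HR): the Fejér kernel is a sum of blocks

PLAN. `fej r m = (r - m)(r - m + 1) / (r (r + 1))` (truncated). On the support of `Cc w w'`: `ℓ w ≤ ℓ w' + ℓ u`,
`ℓ w' ≤ ℓ w + ℓ u` (`Cc_supp` and `gp_add`: `ℓ (w⁻¹ w') ≤ ℓ u`, triangle inequality). `geW (2 (ℓ w - k) + ε) w w' u = 1` iff
`ℓ u + 2 (ℓ w - k) + ε ≤ ℓ w + ℓ w'`, i.e. (with `ℓ w + l = ℓ w' + k`) `ℓ u + ε ≤ k + l`. Interchange the sums (the sum over the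
support of `Cc w w'` outside) and use `count_id` with `A = ℓ w`, `A' = ℓ w'`, `u = ℓ u`.
-/

set_option autoImplicit false

namespace Pool.Agent.H26.HR

open Pool.Agent.H26.HB Pool.Agent.H73.HVN

universe u v

variable {B : Type v} {W : Type u} [Group W] {M : CoxeterMatrix B} {cs : CoxeterSystem M W}

private theorem FejL_blk {q : B → ℝ} {N : Type} (x : N → N → W → ℂ) (ε a a' : ℕ) (p p' : N × W) :
    blk cs q x ε a a' p p' = ∑ u ∈ (Cc cs q p.2 p'.2).support,
      Cc cs q p.2 p'.2 u * x p.1 p'.1 u *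
        ((∑ k ∈ Finset.range (a + 1), ∑ l ∈ Finset.range (a' + 1),
          (if cs.length p.2 + l = cs.length p'.2 + k ∧ cs.length u + ε ≤ k + l then 1 else 0) : ℕ) :
            ℂ) := by
  classical
  have h1 : ∀ k l : ℕ, (if cs.length p.2 + l = cs.length p'.2 + k then
      KX cs q x (geW cs (2 * ((cs.length p.2 : ℤ) - k) + ε)) p p' else 0) =
      ∑ u ∈ (Cc cs q p.2 p'.2).support, Cc cs q p.2 p'.2 u * x p.1 p'.1 u *
        (((if cs.length p.2 + l = cs.length p'.2 + k ∧ cs.length u + ε ≤ k + l then 1 else 0) : ℕ) :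
          ℂ) := by
    intro k l
    by_cases h : cs.length p.2 + l = cs.length p'.2 + k
    · rw [if_pos h]
      unfold KX
      rw [Finsupp.sum]
      refine Finset.sum_congr rfl fun u _ => ?_
      have e : ((cs.length u : ℤ) + (2 * ((cs.length p.2 : ℤ) - k) + ε) ≤
          cs.length p.2 + cs.length p'.2) ↔
          (cs.length p.2 + l = cs.length p'.2 + k ∧ cs.length u + ε ≤ k + l) := by
        constructor
        · intro h2
          exact ⟨h, by omega⟩
        · rintro ⟨_, h2⟩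
          omega
      unfold geW
      by_cases h2 : (cs.length u : ℤ) + (2 * ((cs.length p.2 : ℤ) - k) + ε) ≤
          cs.length p.2 + cs.length p'.2
      · rw [if_pos h2, if_pos (e.mp h2)]
        push_cast
        ring
      · rw [if_neg h2, if_neg (fun h3 => h2 (e.mpr h3))]
        push_cast
        ring
    · rw [if_neg h]
      symm
      refine Finset.sum_eq_zero fun u _ => ?_
      rw [if_neg (fun h3 => h h3.1)]
      push_cast
      ring
  unfold blk
  simp only [h1]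
  push_cast
  simp only [Finset.mul_sum]
  have h2 : ∀ k ∈ Finset.range (a + 1), ∑ l ∈ Finset.range (a' + 1),
      ∑ u ∈ (Cc cs q p.2 p'.2).support, Cc cs q p.2 p'.2 u * x p.1 p'.1 u *
        (if cs.length p.2 + l = cs.length p'.2 + k ∧ cs.length u + ε ≤ k + l then (1 : ℂ) else 0) =
      ∑ u ∈ (Cc cs q p.2 p'.2).support, ∑ l ∈ Finset.range (a' + 1),
        Cc cs q p.2 p'.2 u * x p.1 p'.1 u *
        (if cs.length p.2 + l = cs.length p'.2 + k ∧ cs.length u + ε ≤ k + l then (1 : ℂ) else 0) :=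
    fun k _ => Finset.sum_comm
  rw [Finset.sum_congr rfl h2, Finset.sum_comm]

theorem fej_blk {q : B → ℝ} {r : ℕ} (hr : 1 ≤ r) {N : Type}
    (x : N → N → W → ℂ) (p p' : N × W) :
    KX cs q x (fejW cs r) p p' =
      (((2 : ℝ) / (r * (r + 1)) : ℝ) : ℂ) * ∑ ε ∈ Finset.range 2, ∑ a ∈ Finset.range (r + ε),
        blk cs q x ε a (r + ε - 1 - a) p p' := by
  classical
  simp only [FejL_blk]
  have hr0 : (r : ℂ) ≠ 0 := by
    have : (r : ℝ) ≠ 0 := by positivity
    exact_mod_cast this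
  have hr1 : (r : ℂ) + 1 ≠ 0 := by
    have : (r : ℝ) + 1 ≠ 0 := by positivity
    exact_mod_cast this
  -- interchange the sums
  have h1 : ∀ ε ∈ Finset.range 2, ∑ a ∈ Finset.range (r + ε),
      ∑ u ∈ (Cc cs q p.2 p'.2).support, Cc cs q p.2 p'.2 u * x p.1 p'.1 u *
        ((∑ k ∈ Finset.range (a + 1), ∑ l ∈ Finset.range (r + ε - 1 - a + 1),
          (if cs.length p.2 + l = cs.length p'.2 + k ∧ cs.length u + ε ≤ k + l then 1 else 0) : ℕ) :
            ℂ) =
      ∑ u ∈ (Cc cs q p.2 p'.2).support, ∑ a ∈ Finset.range (r + ε),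
        Cc cs q p.2 p'.2 u * x p.1 p'.1 u *
        ((∑ k ∈ Finset.range (a + 1), ∑ l ∈ Finset.range (r + ε - 1 - a + 1),
          (if cs.length p.2 + l = cs.length p'.2 + k ∧ cs.length u + ε ≤ k + l then 1 else 0) : ℕ) :
            ℂ) := fun ε _ => Finset.sum_comm
  rw [Finset.sum_congr rfl h1, Finset.sum_comm, Finset.mul_sum]
  unfold KX
  rw [Finsupp.sum]
  refine Finset.sum_congr rfl fun u hu => ?_
  have hu0 : Cc cs q p.2 p'.2 u ≠ 0 := Finsupp.mem_support_iff.mp hu
  have hs := Cc_supp q hu0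
  unfold gp wd at hs
  have t1 : cs.length p.2 ≤ cs.length p'.2 + cs.length (p.2⁻¹ * p'.2) := by
    have := cs.length_mul_le p'.2 (p.2⁻¹ * p'.2)⁻¹
    rw [cs.length_inv] at this
    have e : p'.2 * (p.2⁻¹ * p'.2)⁻¹ = p.2 := by group
    rwa [e] at this
  have t2 : cs.length p'.2 ≤ cs.length p.2 + cs.length (p.2⁻¹ * p'.2) := by
    have := cs.length_mul_le p.2 (p.2⁻¹ * p'.2)
    have e : p.2 * (p.2⁻¹ * p'.2) = p'.2 := by group
    rwa [e] at this
  have t3 : cs.length (p.2⁻¹ * p'.2) ≤ cs.length p.2 + cs.length p'.2 := by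
    have := cs.length_mul_le p.2⁻¹ p'.2
    rwa [cs.length_inv] at this
  have hc := count_id r (cs.length p.2) (cs.length p'.2) (cs.length u) (by omega) (by omega)
  have hc' : (2 : ℂ) * ∑ ε ∈ Finset.range 2, ∑ a ∈ Finset.range (r + ε),
      ((∑ k ∈ Finset.range (a + 1), ∑ l ∈ Finset.range (r + ε - 1 - a + 1),
        (if cs.length p.2 + l = cs.length p'.2 + k ∧ cs.length u + ε ≤ k + l then 1 else 0) : ℕ) :
          ℂ) = ((r - cs.length u : ℕ) : ℂ) * (((r - cs.length u : ℕ) : ℂ) + 1) := by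
    have := congrArg (fun n : ℕ => (n : ℂ)) hc
    push_cast at this ⊢
    exact this
  simp only [← Finset.mul_sum]
  have hf : fejW cs r p.2 p'.2 u = ((r - cs.length u : ℕ) : ℂ) *
      (((r - cs.length u : ℕ) : ℂ) + 1) / ((r : ℂ) * ((r : ℂ) + 1)) := by
    unfold fejW fej
    push_cast
    rfl
  rw [hf, ← hc']
  push_cast
  field_simp

end Pool.Agent.H26.HR
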