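import Pool.Agent.H26.HR.PreL
import Pool.Agent.H26.HB.Main

/-!
# Module MinS (HR): short prefixes crossing the near walls

PLAN. `min_short`: suppose `κ + ℓ v < ℓ c`. Apply `hκ` to `c⁻¹`: a letter `i` which is a left descent of all `w'` with
`2 κ ≤ gp c⁻¹ w'`; in particular of `c⁻¹`, so `i` is a right descent of `c`, `t ∉ N(c s_i)`, and `inv_mul_iff` for
`c = (c s_i) s_i` and for `c s_i = c · s_i`: `c⁻¹ t c = s_i` (as `N(s_i) = {s_i}`). `w' = c⁻¹ v`: `wd c⁻¹ (c⁻¹ v) = ℓ v`, so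
`gp c⁻¹ (c⁻¹ v) = ℓ c + ℓ (c⁻¹ v) - ℓ v ≥ 2 ℓ c - 2 ℓ v ≥ 2 κ`; so `s_i ∈ N(c⁻¹ v)`, and `inv_mul_iff` for `v = c (c⁻¹ v)` gives
`t ∉ N(v)`: contradiction.

`exists_min_prefix`: choose a prefix `c` of `w` of minimal length with `t ∈ N(c)`; for a right descent `i` of `c`, `c s_i` is a
prefix of `w` of smaller length. Then `min_short`.

`exists_prefix_walls`: the set `T` of reflections `t` with `∃ v, t ∈ N(v), ℓ v ≤ b0` is finite (`t ∈ N(v)` implies
`ℓ t ≤ 2 ℓ v`: `t` is an entry of the `leftInvSeq` of a reduced word of `v`, or `ℓ t ≤ ℓ (t v) + ℓ v`; balls are finite,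
`HB.finite_length_le`). Induction over finite subsets `T'` of `T`: there is `R` such that every `w'` has a prefix `f`, `ℓ f ≤ R`,
with `t ∈ N(w') → t ∈ N(f)` for `t ∈ T'`. Step `T' ∪ {t}`: if `t ∈ N(w')`, `t ∉ N(f)`: `w'' = f⁻¹ w'`, `t'' = f⁻¹ t f ∈ N(w'')`
(`inv_prefix_iff`), and `t'' ∈ N(f⁻¹ v)`, `ℓ (f⁻¹ v) ≤ R + b0`; by `exists_min_prefix` a prefix `c` of `w''` with `t'' ∈ N(c)`,
`ℓ c ≤ κ + R + b0`; take `f c` (`Pre.mul`, `Pre.inv`, `inv_prefix_iff`).
-/

set_option autoImplicit false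

namespace Pool.Agent.H26.HR

open Pool.Agent.H26.HB Pool.Agent.H73.HVN

universe u v

variable {B : Type v} {W : Type u} [Group W] {M : CoxeterMatrix B} {cs : CoxeterSystem M W}

private theorem MinS_eq_simple {i : B} {a : W} (h : cs.IsLeftInversion (cs.simple i) a) : a = cs.simple i := by
  have h1 : cs.length (a * cs.simple i) < 1 := by
    have := h.2
    rwa [cs.length_simple] at this
  have h2 : a * cs.simple i = 1 := cs.length_eq_zero_iff.1 (by omega)
  have h3 := eq_inv_of_mul_eq_one_left h2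
  rwa [cs.inv_simple] at h3

theorem min_short {κ : ℕ} (hκ : LetterProp cs κ) {t c v : W} (hc : cs.IsLeftInversion c t)
    (hmin : ∀ i, cs.IsRightDescent c i → ¬ cs.IsLeftInversion (c * cs.simple i) t)
    (hv : cs.IsLeftInversion v t) : cs.length c ≤ κ + cs.length v := by
  by_contra hcon
  push Not at hcon
  have ht := hc.1
  obtain ⟨i, hi⟩ := hκ c⁻¹ (by rw [cs.length_inv]; omega)
  have h1 : cs.IsLeftDescent c⁻¹ i := hi _ (by rw [gp_self, cs.length_inv]; omega)
  have h2 : cs.IsRightDescent c i := cs.isLeftDescent_inv_iff.1 h1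
  have h3 := hmin i h2
  have h4 : c⁻¹ * t * c = cs.simple i := by
    apply MinS_eq_simple (cs := cs)
    by_contra h5
    exact h3 ((inv_mul_iff cs ht c (cs.simple i)).2 (fun h => h5 (h.1 hc)))
  have h5 : cs.length c ≤ cs.length v + cs.length (c⁻¹ * v) := by
    have := cs.length_mul_le v (c⁻¹ * v)⁻¹
    rw [cs.length_inv] at this
    have he : v * (c⁻¹ * v)⁻¹ = c := by group
    rwa [he] at this
  have h6 : 2 * κ ≤ gp cs c⁻¹ (c⁻¹ * v) := by
    have h7 := gp_add (cs := cs) c⁻¹ (c⁻¹ * v)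
    have h8 : wd cs c⁻¹ (c⁻¹ * v) = cs.length v := by
      unfold wd
      congr 1
      group
    rw [h8, cs.length_inv] at h7
    omega
  have h7 := hi _ h6
  have h8 : cs.IsLeftInversion (c⁻¹ * v) (c⁻¹ * t * c) := by
    rw [h4]
    exact (cs.isLeftInversion_simple_iff_isLeftDescent _ _).2 h7
  have h9 := inv_mul_iff cs ht c (c⁻¹ * v)
  rw [mul_inv_cancel_left] at h9
  exact h9.1 hv ⟨fun _ => h8, fun _ => hc⟩

theorem exists_min_prefix {κ : ℕ} (hκ : LetterProp cs κ) {t w v : W}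
    (hw : cs.IsLeftInversion w t) (hv : cs.IsLeftInversion v t) :
    ∃ c, Pre cs c w ∧ cs.IsLeftInversion c t ∧ cs.length c ≤ κ + cs.length v := by
  classical
  have hex : ∃ n, ∃ c, Pre cs c w ∧ cs.IsLeftInversion c t ∧ cs.length c = n :=
    ⟨_, w, pre_refl w, hw, rfl⟩
  obtain ⟨c, hc1, hc2, hc3⟩ := Nat.find_spec hex
  refine ⟨c, hc1, hc2, min_short hκ hc2 (fun i hi hinv => ?_) hv⟩
  have hpre : Pre cs (c * cs.simple i) c := by
    unfold Pre
    have h1 : (c * cs.simple i)⁻¹ * c = cs.simple i := by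
      rw [mul_inv_rev, cs.inv_simple, mul_assoc, inv_mul_cancel, mul_one]
    rw [h1, cs.length_simple]
    exact (cs.isRightDescent_iff.1 hi).symm
  have hlt : cs.length (c * cs.simple i) < Nat.find hex := by
    rw [← hc3]
    exact hi
  exact Nat.find_min hex hlt ⟨_, hpre.trans hc1, hinv, rfl⟩

private theorem MinS_finite [Finite B] (b0 : ℕ) :
    {t : W | ∃ v, cs.IsLeftInversion v t ∧ cs.length v ≤ b0}.Finite := by
  refine (finite_length_le (cs := cs) (2 * b0)).subset ?_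
  rintro t ⟨v, hv, hb⟩
  show cs.length t ≤ 2 * b0
  have h1 := cs.length_mul_le (t * v) v⁻¹
  rw [mul_inv_cancel_right, cs.length_inv] at h1
  have h2 := hv.2
  omega

theorem exists_prefix_walls [Finite B] {κ : ℕ} (hκ : LetterProp cs κ) (b0 : ℕ) :
    ∃ R : ℕ, ∀ w' : W, ∃ f, Pre cs f w' ∧ cs.length f ≤ R ∧
      ∀ t, cs.IsLeftInversion w' t → (∃ v, cs.IsLeftInversion v t ∧ cs.length v ≤ b0) →
        cs.IsLeftInversion f t := by
  classical
  have key : ∀ T : Finset W, (∀ t ∈ T, ∃ v, cs.IsLeftInversion v t ∧ cs.length v ≤ b0) →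
      ∃ R : ℕ, ∀ w' : W, ∃ f, Pre cs f w' ∧ cs.length f ≤ R ∧
        ∀ t ∈ T, cs.IsLeftInversion w' t → cs.IsLeftInversion f t := by
    intro T
    induction T using Finset.induction_on with
    | empty =>
      intro _
      exact ⟨0, fun w' => ⟨1, pre_one w', by rw [cs.length_one], fun t ht => by simp at ht⟩⟩
    | insert t T ht ih =>
      intro hT
      obtain ⟨R, hR⟩ := ih (fun t' ht' => hT t' (Finset.mem_insert_of_mem ht'))
      obtain ⟨v, hv, hvb⟩ := hT t (Finset.mem_insert_self _ _)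
      refine ⟨R + (κ + (R + b0)), fun w' => ?_⟩
      obtain ⟨f, hf1, hf2, hf3⟩ := hR w'
      by_cases hcase : cs.IsLeftInversion w' t ∧ ¬ cs.IsLeftInversion f t
      · obtain ⟨hw, hnf⟩ := hcase
        have hrt := hw.1
        have h1 := (inv_prefix_iff (v := f) (w := w') hrt hnf).1 hw
        have h2 := (inv_prefix_iff (v := f) (w := v) hrt hnf).1 hv
        obtain ⟨c, hc1, hc2, hc3⟩ := exists_min_prefix hκ h1 h2
        have h3 : cs.length (f⁻¹ * v) ≤ R + b0 := by
          have := cs.length_mul_le f⁻¹ v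
          rw [cs.length_inv] at this
          omega
        obtain ⟨h4, h5⟩ := hf1.mul hc1
        have h6 : Pre cs f (f * c) := by
          unfold Pre
          rw [inv_mul_cancel_left, h5]
        refine ⟨f * c, h4, by rw [h5]; omega, fun t' ht' hw' => ?_⟩
        rcases Finset.mem_insert.1 ht' with rfl | ht''
        · rw [inv_prefix_iff hrt hnf, inv_mul_cancel_left]
          exact hc2
        · exact h6.inv (hf3 t' ht'' hw')
      · refine ⟨f, hf1, by omega, fun t' ht' hw' => ?_⟩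
        rcases Finset.mem_insert.1 ht' with rfl | ht''
        · by_contra hn
          exact hcase ⟨hw', hn⟩
        · exact hf3 t' ht'' hw'
  obtain ⟨R, hR⟩ := key (MinS_finite (cs := cs) b0).toFinset (fun t ht => by simpa using ht)
  refine ⟨R, fun w' => ?_⟩
  obtain ⟨f, hf1, hf2, hf3⟩ := hR w'
  exact ⟨f, hf1, hf2, fun t ht hv => hf3 t (by simpa using hv) ht⟩

end Pool.Agent.H26.HR
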