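import Pool.Agent.H26.HR.WallS
import Pool.Agent.H26.HR.MinS

/-!
# Module GoodM (HR): good initial words

PLAN. Induction over `p`; prove for all `p` (and treat `p = 0` with the word `α₀ = []`, `R' = 0`, `y₀ = 1`). Given the good word
`α₀` (length `≤ R'`, `y₀ = wordProd α₀` a prefix of `w'`) for `p - 1` (for `p = 0`: `α₀ = []`) let `f` be the prefix of
`g = y₀⁻¹ w'` from `exists_prefix_walls` for `b0 = 2 R' + κ + k + 1`, `γ₀` a reduced word of `f`, `α = α₀ ++ γ₀` (length `≤ R' + R''`,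
reduced, `Pre`, by `Pre.mul`). (*) All `t ∈ N(w')` for which there is `v` with `t ∈ N(v)`, `ℓ v ≤ R' + κ + k + 1`, are in
`N(wordProd α)`: if `t ∈ N(y₀)` clear (`Pre.inv`), else `y₀⁻¹ t y₀ ∈ N(g) ∩ N(y₀⁻¹ v)` (`inv_prefix_iff`),
`ℓ (y₀⁻¹ v) ≤ 2 R' + κ + k + 1`, so it is in `N(f)`, and `inv_prefix_iff` again.
Good: let `β`, `Path x α k n`, `n ≤ p`, `Path k β u n'`; suppose `n' ≠ 0`. `path_split`: `Path x α₀ k₀ n₀`, `Path k₀ γ₀ k n₁`,
`n₀ + n₁ = n`. If `n₁ ≠ 0` (so `p ≥ 1`): `path_append`: `Path k₀ (γ₀ ++ β) u (n₁ + n')`; by the induction hypothesis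
(`β := γ₀ ++ β`) `n₀ ≤ p - 1` would give `n₁ + n' = 0`; so `n₀ ≥ p`, `n ≥ p + 1`: contradiction.
So `n₁ = 0`; `path_first` for `Path k β u n'` gives `β = β₁ ++ i :: β₂`; with `γ = γ₀ ++ β₁` the hypotheses of `wall_step` hold
(`path_zero`; `y₀ γ s_i` is a prefix of `w'` and `α ++ β` is reduced), so `t = y s_i y⁻¹`, `y = y₀ (wordProd γ)` (an inversion of
`y s_i`, hence of `w'`) has `v` with `ℓ v ≤ R' + κ + k + 1`; by (*) `t ∈ N(wordProd α)`, hence `t ∈ N(y)` (`Pre.inv`), a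
contradiction: `t y = y s_i`, `ℓ (y s_i) = ℓ y + 1`.
-/

set_option autoImplicit false

namespace Pool.Agent.H26.HR

open Pool.Agent.H26.HB Pool.Agent.H73.HVN

universe u v

variable {B : Type v} {W : Type u} [Group W] {M : CoxeterMatrix B} {cs : CoxeterSystem M W}

private theorem GoodM_red_append_left {α β : List B} (h : cs.IsReduced (α ++ β)) :
    cs.IsReduced α := by
  have := h.take α.length
  rwa [List.take_left] at this

private theorem GoodM_star [Finite B] {b0 : ℕ} {w' y₀ f : W} {R' c : ℕ}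
    (hlen : cs.length y₀ ≤ R')
    (hmul : cs.length (y₀ * f) = cs.length y₀ + cs.length f)
    (hb0 : R' + c ≤ b0)
    (hf : ∀ t, cs.IsLeftInversion (y₀⁻¹ * w') t →
      (∃ v, cs.IsLeftInversion v t ∧ cs.length v ≤ b0) → cs.IsLeftInversion f t)
    {t : W} (ht : cs.IsLeftInversion w' t)
    (hv : ∃ v, cs.IsLeftInversion v t ∧ cs.length v ≤ c) :
    cs.IsLeftInversion (y₀ * f) t := by
  have hpre : Pre cs y₀ (y₀ * f) := by
    unfold Pre
    rw [inv_mul_cancel_left]
    exact hmul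
  by_cases hyt : cs.IsLeftInversion y₀ t
  · exact hpre.inv hyt
  · have hrefl : cs.IsReflection t := ht.1
    rw [inv_prefix_iff hrefl hyt, inv_mul_cancel_left]
    apply hf
    · exact (inv_prefix_iff hrefl hyt).1 ht
    · obtain ⟨v, hv1, hv2⟩ := hv
      refine ⟨y₀⁻¹ * v, (inv_prefix_iff hrefl hyt).1 hv1, ?_⟩
      have h1 := cs.length_mul_le y₀⁻¹ v
      rw [cs.length_inv] at h1
      omega

private theorem GoodM_step [Finite B] {k κ : ℕ} (hk : IsHyp cs k) (hκ : LetterProp cs κ) (p : ℕ)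
    (R' : ℕ) (h0 : ∀ w' : W, ∃ α₀ : List B, cs.IsReduced α₀ ∧ α₀.length ≤ R' ∧
      Pre cs (cs.wordProd α₀) w' ∧
      ∀ β : List B, cs.IsReduced (α₀ ++ β) → cs.wordProd (α₀ ++ β) = w' →
        ∀ (x k : W) (n : ℕ) (u : W) (n' : ℕ), Path cs x α₀ k n → n < p → Path cs k β u n' →
          n' = 0) :
    ∃ R : ℕ, ∀ w' : W, ∃ α : List B, cs.IsReduced α ∧ α.length ≤ R ∧ Pre cs (cs.wordProd α) w' ∧
      Good cs p α w' := by
  obtain ⟨R'', hR''⟩ := exists_prefix_walls hκ (2 * R' + κ + k + 1)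
  refine ⟨R' + R'', fun w' => ?_⟩
  obtain ⟨α₀, hα₀, hlen₀, hpre₀, hgood₀⟩ := h0 w'
  obtain ⟨f, hfpre, hflen, hf⟩ := hR'' ((cs.wordProd α₀)⁻¹ * w')
  have hlα₀ : cs.length (cs.wordProd α₀) = α₀.length := hα₀
  obtain ⟨hpre, hmul⟩ := hpre₀.mul hfpre
  have hγ₀ : cs.IsReduced (wrd cs f) := wrd_isReduced cs f
  have hγ₀p : cs.wordProd (wrd cs f) = f := wrd_prod cs f
  have hγ₀l : (wrd cs f).length = cs.length f := wrd_length cs f
  generalize wrd cs f = γ₀ at hγ₀ hγ₀p hγ₀l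
  have hprod : cs.wordProd (α₀ ++ γ₀) = cs.wordProd α₀ * f := by
    rw [cs.wordProd_append, hγ₀p]
  have hred : cs.IsReduced (α₀ ++ γ₀) := by
    unfold CoxeterSystem.IsReduced
    rw [hprod, hmul, List.length_append, hγ₀l, hlα₀]
  refine ⟨α₀ ++ γ₀, hred, ?_, ?_, ?_⟩
  · rw [List.length_append, hγ₀l]
    omega
  · rw [hprod]
    exact hpre
  intro β hβ hβw x kk n u n' hpath hn hpath'
  by_contra hn'
  obtain ⟨k₀, n₀, n₁, hp1, hp2, hsum⟩ := path_split hpath
  by_cases hn₁ : n₁ = 0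
  · subst hn₁
    obtain ⟨hk1, hk2⟩ := path_zero hp2
    obtain ⟨β₁, i, β₂, hβeq, hlen1, hdesc⟩ := path_first hpath' hn'
    -- the data of the wall step
    have e1 : k₀ * cs.wordProd (γ₀ ++ β₁) = kk * cs.wordProd β₁ := by
      rw [cs.wordProd_append, hk1, mul_assoc]
    have hdec : α₀ ++ γ₀ ++ β = (α₀ ++ (γ₀ ++ β₁) ++ [i]) ++ β₂ := by
      rw [hβeq]
      simp only [List.append_assoc, List.singleton_append]
    have hred3 : cs.IsReduced (α₀ ++ (γ₀ ++ β₁) ++ [i]) := by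
      apply GoodM_red_append_left (β := β₂)
      rw [← hdec]
      exact hβ
    have hred2 : cs.IsReduced (α₀ ++ (γ₀ ++ β₁)) := GoodM_red_append_left hred3
    have hprod2 : cs.wordProd (α₀ ++ (γ₀ ++ β₁)) =
        cs.wordProd α₀ * cs.wordProd (γ₀ ++ β₁) := cs.wordProd_append _ _
    have hprod3 : cs.wordProd (α₀ ++ (γ₀ ++ β₁) ++ [i]) =
        cs.wordProd α₀ * cs.wordProd (γ₀ ++ β₁) * cs.simple i := by
      rw [cs.wordProd_append, hprod2, cs.wordProd_singleton]
    have hL2 : cs.length (cs.wordProd α₀ * cs.wordProd (γ₀ ++ β₁)) =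
        (α₀ ++ (γ₀ ++ β₁)).length := by
      rw [← hprod2]
      exact hred2
    have hL3 : cs.length (cs.wordProd α₀ * cs.wordProd (γ₀ ++ β₁) * cs.simple i) =
        (α₀ ++ (γ₀ ++ β₁)).length + 1 := by
      have h := hred3
      unfold CoxeterSystem.IsReduced at h
      rw [hprod3, List.length_append (bs := [i]), List.length_singleton] at h
      exact h
    have H1 : cs.length (k₀ * cs.wordProd (γ₀ ++ β₁)) = cs.length k₀ + (γ₀ ++ β₁).length := by
      rw [e1, hlen1, hk2, List.length_append]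
      omega
    have H2 : cs.IsRightDescent (k₀ * cs.wordProd (γ₀ ++ β₁)) i := by
      rw [e1]
      exact hdesc
    have H3 : ¬ cs.IsRightDescent (cs.wordProd α₀ * cs.wordProd (γ₀ ++ β₁)) i := by
      unfold CoxeterSystem.IsRightDescent
      rw [hL3, hL2]
      omega
    obtain ⟨v, hv1, hv2⟩ := wall_step hk hκ H1 H2 H3
    -- the wall `t`
    set y : W := cs.wordProd α₀ * cs.wordProd (γ₀ ++ β₁) with hy
    have hty : y * cs.simple i * y⁻¹ * y = y * cs.simple i := by group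
    have hinv3 : cs.IsLeftInversion (y * cs.simple i) (y * cs.simple i * y⁻¹) := by
      refine ⟨hv1.1, ?_⟩
      have e2 : y * cs.simple i * y⁻¹ * (y * cs.simple i) = y := by
        rw [← mul_assoc, hty, mul_assoc, cs.simple_mul_simple_self, mul_one]
      rw [e2, hL3, hL2]
      omega
    have hpre3 : Pre cs (y * cs.simple i) w' := by
      have h := pre_of_reduced (cs := cs) (α := α₀ ++ (γ₀ ++ β₁) ++ [i]) (β := β₂)
        (by rw [← hdec]; exact hβ)
      rw [← hdec, hβw, hprod3] at h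
      exact h
    have hw't := hpre3.inv hinv3
    have hstar : cs.IsLeftInversion (cs.wordProd α₀ * f) (y * cs.simple i * y⁻¹) := by
      refine GoodM_star (b0 := 2 * R' + κ + k + 1) (R' := R') (c := R' + κ + k + 1)
        (by rw [hlα₀]; exact hlen₀) hmul (by omega) hf hw't ⟨v, hv1, ?_⟩
      rw [hlα₀] at hv2
      omega
    have hpre4 : Pre cs (cs.wordProd α₀ * f) y := by
      have hr : cs.IsReduced ((α₀ ++ γ₀) ++ β₁) := by
        rw [List.append_assoc]
        exact hred2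
      have h := pre_of_reduced (cs := cs) (α := α₀ ++ γ₀) (β := β₁) hr
      rw [hprod, List.append_assoc, hprod2] at h
      exact h
    have hlast := hpre4.inv hstar
    have hlt := hlast.2
    rw [hty, hL3, hL2] at hlt
    omega
  · have hpa := path_append hp2 hpath'
    have h := hgood₀ (γ₀ ++ β) (by rw [← List.append_assoc]; exact hβ)
      (by rw [← List.append_assoc]; exact hβw) x k₀ n₀ u (n₁ + n') hp1 (by omega) hpa
    omega

theorem exists_good [Finite B] {k κ : ℕ} (hk : IsHyp cs k) (hκ : LetterProp cs κ) (p : ℕ) :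
    ∃ R : ℕ, ∀ w' : W, ∃ α : List B, cs.IsReduced α ∧ α.length ≤ R ∧ Pre cs (cs.wordProd α) w' ∧
      Good cs p α w' := by
  induction p with
  | zero =>
    apply GoodM_step hk hκ 0 0
    intro w'
    refine ⟨[], ?_, le_refl _, ?_, ?_⟩
    · unfold CoxeterSystem.IsReduced
      simp
    · rw [cs.wordProd_nil]
      exact pre_one w'
    · intro β _ _ x kk n u n' _ hn _
      exact absurd hn (Nat.not_lt_zero n)
  | succ p ih =>
    obtain ⟨R', hR'⟩ := ih
    apply GoodM_step hk hκ (p + 1) R'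
    intro w'
    obtain ⟨α₀, h1, h2, h3, h4⟩ := hR' w'
    refine ⟨α₀, h1, h2, h3, ?_⟩
    intro β hβ hβw x kk n u n' hpath hn hpath'
    exact h4 β hβ hβw x kk n u n' hpath (Nat.lt_succ_iff.1 hn) hpath'

end Pool.Agent.H26.HR
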