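import Pool.Agent.H26.HR.PathL

/-!
# Module Hc1 (HR): the structure constants, combinatorial part

PLAN. All by induction over the word, generalizing the other variables. `hc_nil`, `hc_cons`: `rfl` or `simp [hc]`.
`hc_ne_path`: `hc (i :: ω) u = hc (x s_i) ω u + pr i x * hc x ω u`, one of the summands is `≠ 0`, in the second case `i` is a
right descent of `x` (`pr`). `hc_supp_le`, `hc_supp_eq`: from `hc_ne_path`, `path_len`, `path_zero`.
`hc_of_reduced`: if `ℓ (x ω) = ℓ x + |ω|` then `i` is not a right descent of `x`, `pr i x = 0`.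
`hc_supp`: for reduced `i :: ω` and `y = wordProd ω`: `u ∈ supp hc (x s_i) ω` gives `ℓ (x s_i y) ≤ ℓ u`; if `i` is a right descent
of `x` and `u ∈ supp hc x ω` then `ℓ (x y) ≤ ℓ u` and `ℓ (x s_i y) < ℓ (x y)` by `refl_lt` (`t = s_i`, `a = x⁻¹`, `b = y`;
`i` is not a left descent of `y`) and `length_inv`. `hc_append`: induction over `α` (`Finsupp.sum_add_index'`,
`Finsupp.sum_smul_index`, `Finsupp.sum_single_index`).
-/

set_option autoImplicit false

namespace Pool.Agent.H26.HR

open Pool.Agent.H26.HB Pool.Agent.H73.HVN

universe u v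

variable {B : Type v} {W : Type u} [Group W] {M : CoxeterMatrix B} {cs : CoxeterSystem M W}

theorem hc_nil (q : B → ℝ) (x : W) : hc cs q x [] = Finsupp.single x 1 := by
  rfl

theorem hc_cons (q : B → ℝ) (x : W) (i : B) (ω : List B) :
    hc cs q x (i :: ω) = hc cs q (x * cs.simple i) ω + pr cs q i x • hc cs q x ω := by
  rfl

theorem hc_ne_path (q : B → ℝ) {x : W} {ω : List B} {u : W} (h : hc cs q x ω u ≠ 0) :
    ∃ n, Path cs x ω u n := by
  induction ω generalizing x with
  | nil =>
    rw [hc_nil] at h
    have hu : x = u := by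
      by_contra hne
      exact h (Finsupp.single_eq_of_ne' hne)
    subst hu
    exact ⟨0, Path.nil x⟩
  | cons i ω ih =>
    rw [hc_cons, Finsupp.add_apply, Finsupp.smul_apply] at h
    by_cases h1 : hc cs q (x * cs.simple i) ω u = 0
    · rw [h1, zero_add] at h
      have h2 : pr cs q i x ≠ 0 := fun h3 => h (by rw [h3, zero_smul])
      have h3 : hc cs q x ω u ≠ 0 := fun h3 => h (by rw [h3, smul_zero])
      have hd : cs.IsRightDescent x i := by
        by_contra hd
        exact h2 (by unfold pr; rw [if_neg hd])
      obtain ⟨n, hn⟩ := ih h3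
      exact ⟨n + 1, Path.stay hd hn⟩
    · obtain ⟨n, hn⟩ := ih h1
      by_cases hd : cs.IsRightDescent x i
      · exact ⟨n + 1, Path.down hd hn⟩
      · exact ⟨n, Path.up hd hn⟩

theorem hc_of_reduced (q : B → ℝ) {x : W} {ω : List B}
    (h : cs.length (x * cs.wordProd ω) = cs.length x + ω.length) :
    hc cs q x ω = Finsupp.single (x * cs.wordProd ω) 1 := by
  induction ω generalizing x with
  | nil => rw [hc_nil, CoxeterSystem.wordProd_nil, mul_one]
  | cons i ω ih =>
    have e1 : x * cs.wordProd (i :: ω) = x * cs.simple i * cs.wordProd ω := by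
      rw [CoxeterSystem.wordProd_cons, mul_assoc]
    rw [e1, List.length_cons] at h
    have h1 := cs.length_mul_le (x * cs.simple i) (cs.wordProd ω)
    have h2 := cs.length_wordProd_le ω
    have h3 := cs.length_mul_le x (cs.simple i)
    rw [cs.length_simple] at h3
    have h4 : cs.length (x * cs.simple i * cs.wordProd ω) = cs.length (x * cs.simple i) + ω.length := by
      omega
    have h5 : ¬ cs.IsRightDescent x i := by
      unfold CoxeterSystem.IsRightDescent
      omega
    have h6 : pr cs q i x = 0 := by
      unfold pr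
      rw [if_neg h5]
    rw [hc_cons, h6, zero_smul, add_zero, ih h4, e1]

theorem hc_supp (q : B → ℝ) {x : W} {ω : List B} (hω : cs.IsReduced ω) {u : W}
    (h : hc cs q x ω u ≠ 0) : cs.length (x * cs.wordProd ω) ≤ cs.length u := by
  induction ω generalizing x with
  | nil =>
    rw [hc_nil] at h
    have hu : x = u := by
      by_contra hne
      exact h (Finsupp.single_eq_of_ne' hne)
    subst hu
    rw [CoxeterSystem.wordProd_nil, mul_one]
  | cons i ω ih =>
    have hω' : cs.IsReduced ω := hω.drop 1
    have e1 : x * cs.wordProd (i :: ω) = x * cs.simple i * cs.wordProd ω := by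
      rw [CoxeterSystem.wordProd_cons, mul_assoc]
    rw [e1]
    rw [hc_cons, Finsupp.add_apply, Finsupp.smul_apply] at h
    by_cases h1 : hc cs q (x * cs.simple i) ω u = 0
    · rw [h1, zero_add] at h
      have h2 : pr cs q i x ≠ 0 := fun h3 => h (by rw [h3, zero_smul])
      have h3 : hc cs q x ω u ≠ 0 := fun h3 => h (by rw [h3, smul_zero])
      have hd : cs.IsRightDescent x i := by
        by_contra hd
        exact h2 (by unfold pr; rw [if_neg hd])
      have h4 := ih hω' h3
      have ha : cs.IsLeftInversion x⁻¹ (cs.simple i) := by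
        refine ⟨cs.isReflection_simple i, ?_⟩
        have e2 : cs.simple i * x⁻¹ = (x * cs.simple i)⁻¹ := by
          rw [mul_inv_rev, cs.inv_simple]
        rw [e2, cs.length_inv, cs.length_inv]
        exact hd
      have hb : ¬ cs.IsLeftInversion (cs.wordProd ω) (cs.simple i) := by
        rintro ⟨-, h5⟩
        rw [← CoxeterSystem.wordProd_cons] at h5
        have h6 : cs.length (cs.wordProd (i :: ω)) = (i :: ω).length := hω
        have h7 : cs.length (cs.wordProd ω) = ω.length := hω'
        rw [h6, h7, List.length_cons] at h5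
        omega
      have h8 := refl_lt cs ha hb
      have e3 : (cs.wordProd ω)⁻¹ * (cs.simple i * x⁻¹) = (x * cs.simple i * cs.wordProd ω)⁻¹ := by
        rw [mul_inv_rev, mul_inv_rev, cs.inv_simple]
      have e4 : (cs.wordProd ω)⁻¹ * x⁻¹ = (x * cs.wordProd ω)⁻¹ := by
        rw [mul_inv_rev]
      rw [e3, e4, cs.length_inv, cs.length_inv] at h8
      omega
    · exact ih hω' h1

theorem hc_supp_le (q : B → ℝ) {x : W} {ω : List B} {u : W}
    (h : hc cs q x ω u ≠ 0) : cs.length u ≤ cs.length x + ω.length := by
  obtain ⟨n, hn⟩ := hc_ne_path q h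
  have := path_len hn
  omega

/-- if `u` is in the support and has maximal length, the product is reduced -/
theorem hc_supp_eq (q : B → ℝ) {x : W} {ω : List B} {u : W}
    (h : hc cs q x ω u ≠ 0) (hu : cs.length u = cs.length x + ω.length) :
    u = x * cs.wordProd ω := by
  obtain ⟨n, hn⟩ := hc_ne_path q h
  have h1 := path_len hn
  have h2 : n = 0 := by omega
  subst h2
  exact (path_zero hn).1

theorem hc_append (q : B → ℝ) (x : W) (α β : List B) :
    hc cs q x (α ++ β) = (hc cs q x α).sum fun k c => c • hc cs q k β := by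
  induction α generalizing x with
  | nil =>
    rw [List.nil_append, hc_nil]
    rw [Finsupp.sum_single_index (h := fun k c => c • hc cs q k β) (zero_smul _ _), one_smul]
  | cons i α ih =>
    rw [List.cons_append, hc_cons, hc_cons, ih, ih,
      Finsupp.sum_add_index' (h := fun k c => c • hc cs q k β) (fun _ => zero_smul _ _)
      (fun _ _ _ => add_smul _ _ _),
      Finsupp.sum_smul_index (h := fun k c => c • hc cs q k β) (fun _ => zero_smul _ _), Finsupp.smul_sum]
    congr 1
    refine Finsupp.sum_congr fun k _ => ?_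
    rw [mul_smul]

end Pool.Agent.H26.HR
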