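import Pool.Agent.H26.HR.Defs
import Pool.Agent.H73.HVN.Exch

/-!
# Module Inv (HR): inversions

`N(w)` = left inversions of `w`.

PLAN. `inv_mul_iff` (the cocycle rule `N(ab) = N(a) Δ a N(b) a⁻¹`): the file `Pool/Agent/H73/HVN/Exch.lean` constructs the
action `exAct` of `W` on `W × ZMod 2` (private there: copy the private definitions and lemmas `exPi`, …, `ex_odd` into this
file with the prefix `Inv_`). With `η(w,t) := (exAct w (t, 0)).2` one has for a reflection `t`: `η(w, t) = 1` iff
`ℓ (w t) < ℓ w` (`ex_odd`; conversely if `ℓ (w t) > ℓ w` apply `ex_odd` to `w t` and use the cocycle rule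
`η(w t, t) = η(w, t) + 1`), and `η(ab, t) = η(b, t) + η(a, b t b⁻¹)` (`exAct_add`). Translate to left inversions by inverses
(`isLeftInversion_inv_iff`).
`refl_lt`: `t ∈ N(b · (b⁻¹ a)) = N(a)`, `t ∉ N(b)`, so `b⁻¹ t b ∈ N(b⁻¹ a)`, and `b⁻¹ t b b⁻¹ a = b⁻¹ t a`.
`mem_leftInvSeq_iff`: `→` is `isLeftInversion_of_mem_leftInvSeq`; `←` from `strong_exchange` (for inverses) or from the
parity. `length_le_of_inv`: reduced words; `leftInvSeq` of a reduced word has no duplicates (`nodup_leftInvSeq`) and
length `ℓ`. `exists_common`: induction over a reduced word of `w'` (last letter): if `ℓ (w⁻¹ y) = ℓ w + ℓ y` for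
`w' = y s_i`, `ℓ w' = ℓ y + 1`, then `ℓ (w⁻¹ y s_i) < ℓ (w⁻¹ y)` and `t = y s_i y⁻¹` is a common inversion (`inv_mul_iff`).
`common_lt`: `N(w⁻¹ w')`: `ℓ (w⁻¹ t w') ≤ …`: `ℓ (w⁻¹ w') = ℓ ((t w)⁻¹ (t w')) ≤ ℓ (t w) + ℓ (t w')`.
-/

set_option autoImplicit false

namespace Pool.Agent.H26.HR

open Pool.Agent.H26.HB Pool.Agent.H73.HVN

universe u v

variable {B : Type v} {W : Type u} [Group W] {M : CoxeterMatrix B} (cs : CoxeterSystem M W)

open Classical in
/-- the generators of the action on `W × ZMod 2` -/
private noncomputable def Inv_exPi (i : B) : Function.End (W × ZMod 2) :=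
  fun p => (cs.simple i * p.1 * cs.simple i, p.2 + if p.1 = cs.simple i then 1 else 0)

private theorem Inv_exPi_apply (i : B) (t : W) (e : ZMod 2) [DecidableEq W] :
    Inv_exPi cs i (t, e) = (cs.simple i * t * cs.simple i, e + if t = cs.simple i then 1 else 0) := by
  classical
  unfold Inv_exPi
  congr

private theorem Inv_ex_conj (i j : B) (k : ℕ) :
    cs.simple j * (cs.simple i * cs.simple j) ^ k =
      ((cs.simple i * cs.simple j) ^ k)⁻¹ * cs.simple j := by
  induction k with
  | zero => simp
  | succ k ih =>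
    rw [pow_succ, ← mul_assoc, ih, ← pow_succ, pow_succ', mul_inv_rev]
    simp [mul_assoc]

private theorem Inv_exPi_pow (i j : B) (m : ℕ) (t : W) (e : ZMod 2) [DecidableEq W] :
    ((Inv_exPi cs i * Inv_exPi cs j) ^ m) (t, e) =
      ((cs.simple i * cs.simple j) ^ m * t * ((cs.simple i * cs.simple j) ^ m)⁻¹,
        e + ∑ k ∈ Finset.range (2 * m),
          if t = ((cs.simple i * cs.simple j) ^ k)⁻¹ * cs.simple j then 1 else 0) := by
  induction m with
  | zero =>
    simp only [pow_zero, one_mul, inv_one, mul_one, mul_zero, Finset.range_zero,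
      Finset.sum_empty, add_zero]
    rfl
  | succ m ih =>
    rw [pow_succ', Function.End.mul_def, Function.comp_apply, ih, Function.End.mul_def,
      Function.comp_apply, Inv_exPi_apply, Inv_exPi_apply]
    set c := cs.simple i * cs.simple j with hc
    have hcinv : c⁻¹ = cs.simple j * cs.simple i := by simp [hc]
    have hconj := Inv_ex_conj cs i j
    rw [← hc] at hconj
    refine Prod.ext ?_ ?_
    · simp only
      rw [pow_succ' c m, mul_inv_rev, hcinv]
      simp only [hc, mul_assoc]
    · simp only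
      rw [show 2 * (m + 1) = 2 * m + 1 + 1 from by ring, Finset.sum_range_succ,
        Finset.sum_range_succ]
      have e1 : (c ^ m * t * (c ^ m)⁻¹ = cs.simple j) ↔ (t = (c ^ (2 * m))⁻¹ * cs.simple j) := by
        rw [two_mul, pow_add, mul_inv_rev, mul_assoc (c ^ m)⁻¹, ← hconj m]
        constructor
        · intro h
          rw [← h]
          group
        · intro h
          rw [h]
          group
      have e2 : (cs.simple j * (c ^ m * t * (c ^ m)⁻¹) * cs.simple j = cs.simple i) ↔
          (t = (c ^ (2 * m + 1))⁻¹ * cs.simple j) := by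
        have e3 : (c ^ (2 * m + 1))⁻¹ * cs.simple j =
            (c ^ m)⁻¹ * (cs.simple j * cs.simple i * cs.simple j) * c ^ m := by
          have h1 : cs.simple j * c ^ m = (c ^ m)⁻¹ * cs.simple j := hconj m
          rw [mul_assoc, mul_assoc (cs.simple j * cs.simple i), h1, ← hcinv]
          group
        rw [e3]
        constructor
        · intro h
          rw [← h]
          simp only [mul_assoc, CoxeterSystem.simple_mul_simple_cancel_left]
          simp
        · intro h
          rw [h]
          simp only [mul_assoc]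
          simp
      simp only [e1, e2]
      ring

private theorem Inv_ex_liftable : M.IsLiftable (Inv_exPi cs) := by
  classical
  intro i j
  funext p
  obtain ⟨t, e⟩ := p
  rw [Inv_exPi_pow]
  have hm : (cs.simple i * cs.simple j) ^ (M i j) = 1 := cs.simple_mul_simple_pow i j
  have h2 : (∑ k ∈ Finset.range (2 * M i j),
      if t = ((cs.simple i * cs.simple j) ^ k)⁻¹ * cs.simple j then (1 : ZMod 2) else 0) = 0 := by
    rw [two_mul, Finset.sum_range_add]
    have h3 : ∀ k, ((cs.simple i * cs.simple j) ^ (M i j + k)) = (cs.simple i * cs.simple j) ^ k := by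
      intro k
      rw [pow_add, hm, one_mul]
    have h5 : (∑ k ∈ Finset.range (M i j),
        if t = ((cs.simple i * cs.simple j) ^ (M i j + k))⁻¹ * cs.simple j then (1 : ZMod 2) else 0) =
        ∑ k ∈ Finset.range (M i j),
        if t = ((cs.simple i * cs.simple j) ^ k)⁻¹ * cs.simple j then (1 : ZMod 2) else 0 :=
      Finset.sum_congr rfl (fun k _ => by rw [h3 k])
    rw [h5]
    exact CharTwo.add_self_eq_zero _
  rw [h2, hm]
  simp only [one_mul, inv_one, mul_one, add_zero]
  rfl

/-- the action -/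
private noncomputable def Inv_exAct : W →* Function.End (W × ZMod 2) :=
  cs.lift ⟨Inv_exPi cs, Inv_ex_liftable cs⟩

private theorem Inv_exAct_simple (i : B) : Inv_exAct cs (cs.simple i) = Inv_exPi cs i :=
  cs.lift_apply_simple (Inv_ex_liftable cs) i

private theorem Inv_exAct_word (ω : List B) (t : W) (e : ZMod 2) [DecidableEq W] :
    Inv_exAct cs (cs.wordProd ω) (t, e) =
      (cs.wordProd ω * t * (cs.wordProd ω)⁻¹, e + ((cs.rightInvSeq ω).count t : ℕ)) := by
  induction ω with
  | nil =>
    simp only [CoxeterSystem.wordProd_nil, map_one, one_mul, inv_one, mul_one,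
      CoxeterSystem.rightInvSeq_nil, List.count_nil, Nat.cast_zero, add_zero]
    rfl
  | cons i ω ih =>
    rw [CoxeterSystem.wordProd_cons, map_mul, Function.End.mul_def, Function.comp_apply, ih,
      Inv_exAct_simple, Inv_exPi_apply]
    refine Prod.ext ?_ ?_
    · simp [mul_assoc]
    · simp only [CoxeterSystem.rightInvSeq, List.count_cons, beq_iff_eq]
      have e1 : (cs.wordProd ω * t * (cs.wordProd ω)⁻¹ = cs.simple i) ↔
          ((cs.wordProd ω)⁻¹ * cs.simple i * cs.wordProd ω = t) := by
        constructor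
        · intro h
          rw [← h]
          group
        · intro h
          rw [← h]
          group
      simp only [e1, add_assoc]
      push_cast
      rfl

private theorem Inv_exAct_add (w t : W) (e : ZMod 2) :
    Inv_exAct cs w (t, e) = (w * t * w⁻¹, e + (Inv_exAct cs w (t, 0)).2) := by
  classical
  obtain ⟨ω, rfl⟩ := cs.wordProd_surjective w
  rw [Inv_exAct_word, Inv_exAct_word]
  simp

private theorem Inv_exAct_refl {t : W} (ht : cs.IsReflection t) : Inv_exAct cs t (t, 0) = (t, 1) := by
  classical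
  obtain ⟨u, i, hu⟩ := ht
  have h1 : Inv_exAct cs u⁻¹ (t, 0) = (cs.simple i, (Inv_exAct cs u⁻¹ (t, 0)).2) := by
    conv_lhs => rw [Inv_exAct_add]
    refine Prod.ext ?_ ?_
    · simp only
      rw [hu]
      group
    · simp
  set a := (Inv_exAct cs u⁻¹ (t, 0)).2 with ha
  have h2 : Inv_exAct cs u (Inv_exAct cs u⁻¹ (t, 0)) = (t, 0) := by
    have : Inv_exAct cs u * Inv_exAct cs u⁻¹ = 1 := by
      rw [← map_mul]
      simp
    calc Inv_exAct cs u (Inv_exAct cs u⁻¹ (t, 0)) = (Inv_exAct cs u * Inv_exAct cs u⁻¹) (t, 0) := rfl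
      _ = (t, 0) := by rw [this]; rfl
  rw [h1, Inv_exAct_add] at h2
  have h3 : a + (Inv_exAct cs u (cs.simple i, 0)).2 = 0 := (Prod.ext_iff.mp h2).2
  have h4 : Inv_exAct cs t (t, 0) = Inv_exAct cs u (Inv_exAct cs (cs.simple i) (Inv_exAct cs u⁻¹ (t, 0))) := by
    have : Inv_exAct cs t = Inv_exAct cs u * Inv_exAct cs (cs.simple i) * Inv_exAct cs u⁻¹ := by
      rw [← map_mul, ← map_mul, ← hu]
    rw [this]
    rfl
  rw [h4, h1, Inv_exAct_simple, Inv_exPi_apply, Inv_exAct_add]
  refine Prod.ext ?_ ?_
  · simp [hu]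
  · simp only [if_true]
    have h5 : (cs.simple i * cs.simple i * cs.simple i) = cs.simple i := by simp
    rw [h5]
    linear_combination h3

private theorem Inv_ex_odd {w t : W} (ht : cs.IsReflection t)
    (h : cs.length (w * t) < cs.length w) : (Inv_exAct cs w (t, 0)).2 = 1 := by
  classical
  by_contra hne
  have h0 : (Inv_exAct cs w (t, 0)).2 = 0 := by
    have : ∀ x : ZMod 2, x ≠ 1 → x = 0 := by decide
    exact this _ hne
  have h1 : (Inv_exAct cs (w * t) (t, 0)).2 = 1 := by
    have : Inv_exAct cs (w * t) (t, 0) = Inv_exAct cs w (Inv_exAct cs t (t, 0)) := by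
      rw [map_mul]
      rfl
    rw [this, Inv_exAct_refl cs ht, Inv_exAct_add, h0]
    simp
  obtain ⟨ω, hred, hω⟩ := cs.exists_isReduced (w * t)
  rw [hω, Inv_exAct_word] at h1
  have h2 : t ∈ cs.rightInvSeq ω := by
    by_contra hn
    rw [List.count_eq_zero_of_not_mem hn] at h1
    simp at h1
  have h3 := cs.isRightInversion_of_mem_rightInvSeq hred h2
  rw [← hω] at h3
  have h4 := h3.2
  rw [mul_assoc, ht.mul_self, mul_one] at h4
  omega


private theorem Inv_eta_iff {w t : W} (ht : cs.IsReflection t) :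
    (Inv_exAct cs w (t, 0)).2 = 1 ↔ cs.IsRightInversion w t := by
  constructor
  · intro h
    by_contra hn
    have h1 := (ht.isRightInversion_mul_left_iff (w := w)).mpr hn
    have h2 := Inv_ex_odd cs ht h1.2
    have h3 : Inv_exAct cs (w * t) (t, 0) = Inv_exAct cs w (Inv_exAct cs t (t, 0)) := by
      rw [map_mul]
      rfl
    rw [h3, Inv_exAct_refl cs ht, Inv_exAct_add, h] at h2
    simp only at h2
    exact absurd h2 (by decide)
  · intro h
    exact Inv_ex_odd cs ht h.2

private theorem Inv_eta_mul (a b t : W) :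
    (Inv_exAct cs (a * b) (t, 0)).2 =
      (Inv_exAct cs b (t, 0)).2 + (Inv_exAct cs a (b * t * b⁻¹, 0)).2 := by
  have h3 : Inv_exAct cs (a * b) (t, 0) = Inv_exAct cs a (Inv_exAct cs b (t, 0)) := by
    rw [map_mul]
    rfl
  rw [h3]
  have h4 : Inv_exAct cs b (t, 0) = (b * t * b⁻¹, (Inv_exAct cs b (t, 0)).2) := by
    conv_lhs => rw [Inv_exAct_add]
    simp
  rw [h4, Inv_exAct_add]

private theorem Inv_zmod (x y : ZMod 2) : x + y = 1 ↔ ¬ (x = 1 ↔ y = 1) := by
  revert x y
  decide

theorem inv_mul_iff {t : W} (ht : cs.IsReflection t) (a b : W) :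
    cs.IsLeftInversion (a * b) t ↔
      ¬ (cs.IsLeftInversion a t ↔ cs.IsLeftInversion b (a⁻¹ * t * a)) := by
  have ht' : cs.IsReflection (a⁻¹ * t * a) := by
    have := ht.conj a⁻¹
    rwa [inv_inv] at this
  rw [← cs.isRightInversion_inv_iff, ← cs.isRightInversion_inv_iff, ← cs.isRightInversion_inv_iff,
    ← Inv_eta_iff cs ht, ← Inv_eta_iff cs ht, ← Inv_eta_iff cs ht', mul_inv_rev, Inv_eta_mul,
    inv_inv]
  exact Inv_zmod _ _

theorem refl_lt {t a b : W} (ha : cs.IsLeftInversion a t) (hb : ¬ cs.IsLeftInversion b t) :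
    cs.length (b⁻¹ * (t * a)) < cs.length (b⁻¹ * a) := by
  have h1 := inv_mul_iff cs ha.1 b (b⁻¹ * a)
  rw [mul_inv_cancel_left] at h1
  have h2 := h1.mp ha
  have h3 : cs.IsLeftInversion (b⁻¹ * a) (b⁻¹ * t * b) := by
    by_contra hn
    exact h2 ⟨fun h => absurd h hb, fun h => absurd h hn⟩
  have h4 := h3.2
  have h5 : b⁻¹ * t * b * (b⁻¹ * a) = b⁻¹ * (t * a) := by group
  rwa [h5] at h4

theorem mem_leftInvSeq_iff {ω : List B} (hω : cs.IsReduced ω) {t : W} :
    t ∈ cs.leftInvSeq ω ↔ cs.IsLeftInversion (cs.wordProd ω) t := by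
  classical
  constructor
  · exact fun h => cs.isLeftInversion_of_mem_leftInvSeq hω h
  · intro h
    have h1 : cs.IsRightInversion (cs.wordProd ω)⁻¹ t := cs.isRightInversion_inv_iff.mpr h
    have h2 := Inv_ex_odd cs h.1 h1.2
    rw [← cs.wordProd_reverse, Inv_exAct_word] at h2
    have h3 : t ∈ cs.rightInvSeq ω.reverse := by
      by_contra hn
      rw [List.count_eq_zero_of_not_mem hn] at h2
      simp at h2
    rw [cs.rightInvSeq_reverse] at h3
    exact List.mem_reverse.mp h3

theorem length_le_of_inv {z y : W} (h : ∀ t, cs.IsLeftInversion z t → cs.IsLeftInversion y t) :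
    cs.length z ≤ cs.length y := by
  obtain ⟨α, hα, hz⟩ := cs.exists_isReduced z
  obtain ⟨β, hβ, hy⟩ := cs.exists_isReduced y
  have hsub : cs.leftInvSeq α ⊆ cs.leftInvSeq β := by
    intro t ht
    rw [mem_leftInvSeq_iff cs hα, ← hz] at ht
    rw [mem_leftInvSeq_iff cs hβ, ← hy]
    exact h t ht
  have h1 := (List.subperm_of_subset hα.nodup_leftInvSeq hsub).length_le
  rw [cs.length_leftInvSeq, cs.length_leftInvSeq] at h1
  have h2 : cs.length z = α.length := by rw [hz]; exact hα
  have h3 : cs.length y = β.length := by rw [hy]; exact hβ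
  omega

private theorem Inv_common_aux (w : W) (ω : List B) (hω : cs.IsReduced ω)
    (h : ∀ t, cs.IsLeftInversion w t → ¬ cs.IsLeftInversion (cs.wordProd ω) t) :
    cs.length (w⁻¹ * cs.wordProd ω) = cs.length w + ω.length := by
  induction ω using List.reverseRecOn with
  | nil => simp
  | append_singleton β i ih =>
    have hβ : cs.IsReduced β := by
      have := hω.take β.length
      simpa using this
    have hprod : cs.wordProd (β ++ [i]) = cs.wordProd β * cs.simple i := by
      rw [cs.wordProd_append, cs.wordProd_singleton]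
    have hlb : cs.length (cs.wordProd β) = β.length := hβ
    have hlc : cs.length (cs.wordProd β * cs.simple i) = β.length + 1 := by
      rw [← hprod]
      have : cs.length (cs.wordProd (β ++ [i])) = (β ++ [i]).length := hω
      rw [this]
      simp
    have hcat : cs.leftInvSeq (β ++ [i]) =
        cs.leftInvSeq β ++ [cs.wordProd β * cs.simple i * (cs.wordProd β)⁻¹] := by
      have := cs.leftInvSeq_concat β i
      simpa [List.concat_eq_append] using this
    have h1 : ∀ t, cs.IsLeftInversion w t → ¬ cs.IsLeftInversion (cs.wordProd β) t := by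
      intro t ht ht2
      refine h t ht ?_
      rw [← mem_leftInvSeq_iff cs hω, hcat]
      rw [← mem_leftInvSeq_iff cs hβ] at ht2
      exact List.mem_append_left _ ht2
    have ih' := ih hβ h1
    rw [hprod, ← mul_assoc, List.length_append, List.length_singleton]
    rcases cs.length_mul_simple (w⁻¹ * cs.wordProd β) i with h2 | h2
    · omega
    · exfalso
      set y := cs.wordProd β with hy
      have htr : cs.IsReflection (y * cs.simple i * y⁻¹) :=
        (cs.isReflection_simple i).conj y
      have htr' : cs.IsReflection (w⁻¹ * (y * cs.simple i * y⁻¹) * w) := by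
        have := htr.conj w⁻¹
        rwa [inv_inv] at this
      have h3 : cs.IsLeftInversion (w⁻¹ * y) (w⁻¹ * (y * cs.simple i * y⁻¹) * w) := by
        refine ⟨htr', ?_⟩
        have h4 : w⁻¹ * (y * cs.simple i * y⁻¹) * w * (w⁻¹ * y) = w⁻¹ * y * cs.simple i := by
          group
        rw [h4]
        omega
      have h5 := (inv_mul_iff cs htr' w⁻¹ y).mp h3
      have h6 : w⁻¹⁻¹ * (w⁻¹ * (y * cs.simple i * y⁻¹) * w) * w⁻¹ = y * cs.simple i * y⁻¹ := by
        group
      rw [h6] at h5
      have h7 : ¬ cs.IsLeftInversion y (y * cs.simple i * y⁻¹) := by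
        intro h8
        have h9 := h8.2
        have h10 : y * cs.simple i * y⁻¹ * y = y * cs.simple i := by group
        rw [h10] at h9
        omega
      have h8 : cs.IsLeftInversion w⁻¹ (w⁻¹ * (y * cs.simple i * y⁻¹) * w) := by
        by_contra hn
        exact h5 ⟨fun h => absurd h hn, fun h => absurd h h7⟩
      have h9 : cs.IsLeftInversion w (y * cs.simple i * y⁻¹) := by
        refine ⟨htr, ?_⟩
        have h10 := h8.2
        have h11 : w⁻¹ * (y * cs.simple i * y⁻¹) * w * w⁻¹ =
            (y * cs.simple i * y⁻¹ * w)⁻¹ := by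
          rw [mul_inv_rev, htr.inv]
          group
        rw [h11, cs.length_inv, cs.length_inv] at h10
        exact h10
      refine h _ h9 ?_
      rw [← mem_leftInvSeq_iff cs hω, hcat]
      simp [hy]

theorem exists_common {w w' : W} (h : cs.length (w⁻¹ * w') < cs.length w + cs.length w') :
    ∃ t, cs.IsLeftInversion w t ∧ cs.IsLeftInversion w' t := by
  by_contra hcon
  push Not at hcon
  obtain ⟨ω, hω, hw⟩ := cs.exists_isReduced w'
  have h1 := Inv_common_aux cs w ω hω (by rw [← hw]; exact hcon)
  rw [← hw] at h1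
  have h2 : cs.length w' = ω.length := by rw [hw]; exact hω
  omega

theorem common_lt {w w' t : W} (h : cs.IsLeftInversion w t) (h' : cs.IsLeftInversion w' t) :
    cs.length (w⁻¹ * w') < cs.length w + cs.length w' := by
  have h1 : w⁻¹ * w' = (t * w)⁻¹ * (t * w') := by group
  have h2 := cs.length_mul_le (t * w)⁻¹ (t * w')
  rw [cs.length_inv, ← h1] at h2
  have h3 := h.2
  have h4 := h'.2
  omega

end Pool.Agent.H26.HR
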