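import Pool.Agent.H26.HR.PreL

/-!
# Module Invol (HR): involutions along a geodesic ray

PLAN. `g = g_m`, `G = g_{m+D}`, `α = ℓ (g⁻¹ t g)`, `t⁻¹ = t`, `ℓ t ≤ D` (`m = 0`, `g_0 = 1`). Four point conditions (`hk`):
(A) `wd 1 (t g) + wd t g ≤ max (wd 1 g + wd t (t g)) (wd 1 t + wd g (t g)) + k`, and `wd t g = ℓ (t g) = wd 1 (t g)`,
`wd t (t g) = wd 1 g = m`: `2 ℓ (t g) ≤ max (2 m) (ℓ t + α) + k ≤ 2 m + k` (as `ℓ t + α ≤ 2 D ≤ 2 m`);
(B) `wd g (t G) + wd (t g) G ≤ max (wd g G + wd (t g) (t G)) (wd g (t g) + wd (t G) G) + k`, both summands on the left are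
`y = ℓ (g⁻¹ t G)` and `wd g G = D`: `2 y ≤ 2 D + k`;
(C) `wd g (t g) + wd 1 G ≤ max (wd g 1 + wd (t g) G) (wd g G + wd (t g) 1) + k`, so
`2 α + 2 (m + D) ≤ 2 (m + D) + k + 2 k`.
-/

set_option autoImplicit false

namespace Pool.Agent.H26.HR

open Pool.Agent.H26.HB Pool.Agent.H73.HVN

universe u v

variable {B : Type v} {W : Type u} [Group W] {M : CoxeterMatrix B} {cs : CoxeterSystem M W}

theorem invol_bound {k : ℕ} (hk : IsHyp cs k) {t : W} (ht : t * t = 1) {g : ℕ → W}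
    (hg : ∀ m, cs.length (g m) = m) (hpre : ∀ m m', m ≤ m' → Pre cs (g m) (g m')) {D : ℕ}
    (hD : ∀ m, cs.length ((g m)⁻¹ * t * g m) ≤ D) (m : ℕ) (hm : D ≤ m) :
    2 * cs.length ((g m)⁻¹ * t * g m) ≤ 3 * k := by
  have htinv : t⁻¹ = t := inv_eq_of_mul_eq_one_right ht
  have h0 : g 0 = 1 := cs.length_eq_zero_iff.1 (hg 0)
  have ht0 : cs.length t ≤ D := by
    have h := hD 0
    rwa [h0, inv_one, one_mul, mul_one] at h
  have hα := hD m
  have hα' := hD (m + D)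
  have hgG : cs.length ((g m)⁻¹ * g (m + D)) = D := by
    have h := hpre m (m + D) (Nat.le_add_right m D)
    unfold Pre at h
    rw [hg, hg] at h
    omega
  have hGg : cs.length ((g (m + D))⁻¹ * g m) = D := by
    rw [← cs.length_inv, mul_inv_rev, inv_inv]
    exact hgG
  have hgm := hg m
  have hGm := hg (m + D)
  -- (A)
  have hA := hk 1 (t * g m) t (g m)
  unfold wd at hA
  have e1 : (1 : W)⁻¹ * (t * g m) = t * g m := by group
  have e2 : t⁻¹ * g m = t * g m := by rw [htinv]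
  have e3 : (1 : W)⁻¹ * t = t := by group
  have e4 : (t * g m)⁻¹ * g m = (g m)⁻¹ * t * g m := by rw [mul_inv_rev, htinv]
  have e5 : (1 : W)⁻¹ * g m = g m := by group
  have e6 : (t * g m)⁻¹ * t = (g m)⁻¹ := by group
  rw [e1, e2, e3, e4, e5, e6, cs.length_inv] at hA
  -- (B)
  have hB := hk (g m) (t * g (m + D)) (t * g m) (g (m + D))
  unfold wd at hB
  have f1 : (g m)⁻¹ * (t * g (m + D)) = (g m)⁻¹ * t * g (m + D) := by group
  have f2 : (t * g m)⁻¹ * g (m + D) = (g m)⁻¹ * t * g (m + D) := by rw [mul_inv_rev, htinv]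
  have f3 : (g m)⁻¹ * (t * g m) = (g m)⁻¹ * t * g m := by group
  have f4 : (t * g (m + D))⁻¹ * g (m + D) = (g (m + D))⁻¹ * t * g (m + D) := by
    rw [mul_inv_rev, htinv]
  have f5 : (t * g (m + D))⁻¹ * (t * g m) = (g (m + D))⁻¹ * g m := by group
  rw [f1, f2, f3, f4, f5, hgG, hGg] at hB
  -- (C)
  have hC := hk (g m) (t * g m) 1 (g (m + D))
  unfold wd at hC
  have f6 : (1 : W)⁻¹ * g (m + D) = g (m + D) := by group
  rw [f3, f6, mul_one, f2, mul_one, hgG, cs.length_inv, cs.length_inv] at hC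
  omega

end Pool.Agent.H26.HR
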