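import Pool.Agent.H26.HR.Defs
import Pool.Agent.H26.HB.KerOK

/-!
# Project HR: bounded kernels, definitions

`Bd X K`: the kernel `X` on `I` defines an operator of norm `≤ K` on `ℓ²(I)` (tested on finitely supported vectors).
`KX cs q x P` is the kernel `∑ u, Cc w w' u * P w w' u * x i j u` on `N × W`; for `x i j u = (x_ij δ_1)(u)`, `P = 1` it is
the matrix `(x_ij)` (in the coordinates `w⁻¹`, `w'⁻¹`).
-/

set_option autoImplicit false

namespace Pool.Agent.H26.HR

open Pool.Agent.H26.HB Pool.Agent.H73.HVN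

universe u v

section

/-- the kernel `X` is bounded by `K` -/
def Bd {I : Type*} (X : I → I → ℂ) (K : ℝ) : Prop :=
  ∀ (A : Finset I) (s t : I → ℂ), ‖∑ a ∈ A, ∑ b ∈ A, (starRingEnd ℂ) (t a) * X a b * s b‖ ≤
    K * (√(∑ b ∈ A, ‖s b‖ ^ 2) * √(∑ a ∈ A, ‖t a‖ ^ 2))

end

variable {B : Type v} {W : Type u} [Group W] {M : CoxeterMatrix B} (cs : CoxeterSystem M W)

/-- the kernel with the weights `P` -/
noncomputable def KX (q : B → ℝ) {N : Type} (x : N → N → W → ℂ) (P : W → W → W → ℂ)
    (p p' : N × W) : ℂ :=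
  (Cc cs q p.2 p'.2).sum fun u c => c * P p.2 p'.2 u * x p.1 p'.1 u

/-- the weight `1` -/
def oneW (_ _ _ : W) : ℂ := 1

open Classical in
/-- the weight selecting the cancellation `j` -/
noncomputable def eqW (j : ℕ) (w w' u : W) : ℂ :=
  if cs.length u + j = cs.length w + cs.length w' then 1 else 0

open Classical in
/-- the weight selecting the cancellations `≥ j` -/
noncomputable def geW (j : ℤ) (w w' u : W) : ℂ :=
  if (cs.length u : ℤ) + j ≤ cs.length w + cs.length w' then 1 else 0

/-- the Fejér weight -/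
noncomputable def fejW (r : ℕ) (_ _ u : W) : ℂ := ((fej r (cs.length u) : ℝ) : ℂ)

open Classical in
/-- the block sum -/
noncomputable def blk (q : B → ℝ) {N : Type} (x : N → N → W → ℂ) (ε a a' : ℕ) (p p' : N × W) : ℂ :=
  ∑ k ∈ Finset.range (a + 1), ∑ l ∈ Finset.range (a' + 1),
    if cs.length p.2 + l = cs.length p'.2 + k then
      KX cs q x (geW cs (2 * ((cs.length p.2 : ℤ) - k) + ε)) p p' else 0

end Pool.Agent.H26.HR
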