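import Pool.Agent.H26.HR.BdL

/-!
# Module Push (HR): transport of bounded kernels

PLAN. Let `A`, `s`, `t` be given. Put `T l (i, g) = ∑ w ∈ A₂, [(l, g) ∈ S w] t (i, w)` (at most one `w`, by `hi`) and
`Σ' l (j, g) = ∑ w ∈ A₂, [(l, g) ∈ S' w] s (j, w)`, where `A₂` is the set of the second coordinates of the elements of `A`
(and `t (i, w)`, `s (j, w)` are replaced by `0` if `(i, w) ∉ A`). The form is `∑ l, (form of X l at Σ' l, T l)` over the finitely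
many `l` which occur (in `S w` for some `w ∈ A₂`), each term is `≤ K ‖Σ' l‖ ‖T l‖` (`Bd.rect` or `hX` on a large finite set), and
`∑ l, ‖T l‖² ≤ a ∑ ‖t‖²` (every `(i, w)` contributes to `≤ a` pairs `(l, g)`, and `T l (i, g)` has at most one summand, so
`‖T l (i, g)‖² = ∑ w, [(l, g) ∈ S w] ‖t (i, w)‖²`), similarly for `Σ'`; then Cauchy-Schwarz (`Real.sum_sqrt_mul_sqrt_le`).
(It may be simpler to do it in two steps: first `X` on `N × (Λ × G)` block diagonal, `[l = l'] X l`, is bounded by `K`; then the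
one-sided statements.)
-/

set_option autoImplicit false

namespace Pool.Agent.H26.HR

open Classical in
/-- block diagonal kernels -/
private theorem Push_block {Λ J : Type*} {K : ℝ} (hK : 0 ≤ K) (X : Λ → J → J → ℂ) (hX : ∀ l, Bd (X l) K) :
    Bd (fun p p' : Λ × J => if p.1 = p'.1 then X p.1 p.2 p'.2 else 0) K := by
  intro A s t
  set L := A.image Prod.fst with hL
  set B := A.image Prod.snd with hB
  set s' : Λ × J → ℂ := fun p => if p ∈ A then s p else 0 with hs'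
  set t' : Λ × J → ℂ := fun p => if p ∈ A then t p else 0 with ht'
  have hsub : A ⊆ L ×ˢ B := by
    intro p hp
    rw [Finset.mem_product]
    exact ⟨Finset.mem_image_of_mem _ hp, Finset.mem_image_of_mem _ hp⟩
  have hsum : ∀ f : Λ × J → ℝ, (∀ p, p ∉ A → f p = 0) → ∑ p ∈ A, f p = ∑ l ∈ L, ∑ b ∈ B, f (l, b) := by
    intro f hf
    rw [← Finset.sum_product' (f := fun l b => f (l, b))]
    exact Finset.sum_subset hsub fun p _ hp => hf p hp
  have hsumC : ∀ f : Λ × J → ℂ, (∀ p, p ∉ A → f p = 0) → ∑ p ∈ A, f p = ∑ l ∈ L, ∑ b ∈ B, f (l, b) := by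
    intro f hf
    rw [← Finset.sum_product' (f := fun l b => f (l, b))]
    exact Finset.sum_subset hsub fun p _ hp => hf p hp
  have hs1 : ∑ b ∈ A, ‖s b‖ ^ 2 = ∑ l ∈ L, ∑ b ∈ B, ‖s' (l, b)‖ ^ 2 := by
    rw [← hsum (fun p => ‖s' p‖ ^ 2) (fun p hp => by simp [hs', hp])]
    refine Finset.sum_congr rfl fun p hp => ?_
    simp [hs', hp]
  have ht1 : ∑ b ∈ A, ‖t b‖ ^ 2 = ∑ l ∈ L, ∑ b ∈ B, ‖t' (l, b)‖ ^ 2 := by
    rw [← hsum (fun p => ‖t' p‖ ^ 2) (fun p hp => by simp [ht', hp])]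
    refine Finset.sum_congr rfl fun p hp => ?_
    simp [ht', hp]
  have hform : ∑ a ∈ A, ∑ b ∈ A, (starRingEnd ℂ) (t a) * (if a.1 = b.1 then X a.1 a.2 b.2 else 0) * s b
      = ∑ l ∈ L, ∑ a ∈ B, ∑ b ∈ B, (starRingEnd ℂ) (t' (l, a)) * X l a b * s' (l, b) := by
    have e1 : ∑ a ∈ A, ∑ b ∈ A, (starRingEnd ℂ) (t a) * (if a.1 = b.1 then X a.1 a.2 b.2 else 0) * s b
        = ∑ a ∈ A, (starRingEnd ℂ) (t' a) * ∑ l ∈ L, ∑ b ∈ B, (if a.1 = l then X a.1 a.2 b else 0) * s' (l, b) := by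
      refine Finset.sum_congr rfl fun a ha => ?_
      rw [← hsumC (fun p => (if a.1 = p.1 then X a.1 a.2 p.2 else 0) * s' p) (fun p hp => by simp [hs', hp]),
        Finset.mul_sum]
      refine Finset.sum_congr rfl fun b hb => ?_
      simp only [hs', ht', ha, hb, if_true]
      ring
    rw [e1, hsumC (fun a => (starRingEnd ℂ) (t' a) * ∑ l ∈ L, ∑ b ∈ B, (if a.1 = l then X a.1 a.2 b else 0) * s' (l, b))
      (fun p hp => by simp [ht', hp])]
    refine Finset.sum_congr rfl fun l hl => Finset.sum_congr rfl fun a _ => ?_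
    have e2 : ∑ l' ∈ L, ∑ b ∈ B, (if l = l' then X l a b else 0) * s' (l', b)
        = ∑ b ∈ B, X l a b * s' (l, b) := by
      rw [Finset.sum_eq_single l]
      · refine Finset.sum_congr rfl fun b _ => ?_
        rw [if_pos rfl]
      · intro l' _ hne
        refine Finset.sum_eq_zero fun b _ => ?_
        rw [if_neg (fun h => hne h.symm), zero_mul]
      · intro h
        exact absurd hl h
    show (starRingEnd ℂ) (t' (l, a)) * ∑ l' ∈ L, ∑ b ∈ B, (if l = l' then X l a b else 0) * s' (l', b) = _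
    rw [e2, Finset.mul_sum]
    refine Finset.sum_congr rfl fun b _ => ?_
    ring
  show ‖∑ a ∈ A, ∑ b ∈ A, (starRingEnd ℂ) (t a) * (if a.1 = b.1 then X a.1 a.2 b.2 else 0) * s b‖ ≤ _
  rw [hform, hs1, ht1]
  calc ‖∑ l ∈ L, ∑ a ∈ B, ∑ b ∈ B, (starRingEnd ℂ) (t' (l, a)) * X l a b * s' (l, b)‖
      ≤ ∑ l ∈ L, ‖∑ a ∈ B, ∑ b ∈ B, (starRingEnd ℂ) (t' (l, a)) * X l a b * s' (l, b)‖ := norm_sum_le _ _
    _ ≤ ∑ l ∈ L, K * (√(∑ b ∈ B, ‖s' (l, b)‖ ^ 2) * √(∑ a ∈ B, ‖t' (l, a)‖ ^ 2)) :=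
        Finset.sum_le_sum fun l _ => hX l B (fun b => s' (l, b)) (fun a => t' (l, a))
    _ = K * ∑ l ∈ L, √(∑ b ∈ B, ‖s' (l, b)‖ ^ 2) * √(∑ a ∈ B, ‖t' (l, a)‖ ^ 2) := by
        rw [Finset.mul_sum]
    _ ≤ K * (√(∑ l ∈ L, ∑ b ∈ B, ‖s' (l, b)‖ ^ 2) * √(∑ l ∈ L, ∑ a ∈ B, ‖t' (l, a)‖ ^ 2)) := by
        refine mul_le_mul_of_nonneg_left ?_ hK
        exact Real.sum_sqrt_mul_sqrt_le L (fun l => Finset.sum_nonneg fun b _ => by positivity)
          (fun l => Finset.sum_nonneg fun b _ => by positivity)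

/-- pull back along disjoint finite sets -/
private theorem Push_pull {I J : Type*} {K : ℝ} (hK : 0 ≤ K) (X : J → J → ℂ) (hX : Bd X K) (R R' : I → Finset J)
    {a a' : ℕ} (hR : ∀ w, (R w).card ≤ a) (hR' : ∀ w, (R' w).card ≤ a') (hi : ∀ w w' y, y ∈ R w → y ∈ R w' → w = w')
    (hi' : ∀ w w' y, y ∈ R' w → y ∈ R' w' → w = w') :
    Bd (fun p p' : I => ∑ y ∈ R p, ∑ y' ∈ R' p', X y y') (K * (√a * √a')) := by
  classical
  intro A s t
  obtain ⟨T, hT⟩ : ∃ T : J → ℂ, ∀ i, ∀ y ∈ R i, T y = t i := by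
    refine ⟨fun y => if h : ∃ i, y ∈ R i then t h.choose else 0, fun i y hy => ?_⟩
    have h : ∃ i, y ∈ R i := ⟨i, hy⟩
    show (if h : ∃ i, y ∈ R i then t h.choose else 0) = t i
    rw [dif_pos h, hi _ _ y h.choose_spec hy]
  obtain ⟨S, hS⟩ : ∃ S : J → ℂ, ∀ i, ∀ y ∈ R' i, S y = s i := by
    refine ⟨fun y => if h : ∃ i, y ∈ R' i then s h.choose else 0, fun i y hy => ?_⟩
    have h : ∃ i, y ∈ R' i := ⟨i, hy⟩
    show (if h : ∃ i, y ∈ R' i then s h.choose else 0) = s i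
    rw [dif_pos h, hi' _ _ y h.choose_spec hy]
  have hd : (A : Set I).PairwiseDisjoint R := by
    intro i _ i' _ hne
    rw [Function.onFun, Finset.disjoint_left]
    intro y hy hy'
    exact hne (hi _ _ y hy hy')
  have hd' : (A : Set I).PairwiseDisjoint R' := by
    intro i _ i' _ hne
    rw [Function.onFun, Finset.disjoint_left]
    intro y hy hy'
    exact hne (hi' _ _ y hy hy')
  have hform : ∑ i ∈ A, ∑ i' ∈ A, (starRingEnd ℂ) (t i) * (∑ y ∈ R i, ∑ y' ∈ R' i', X y y') * s i'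
      = ∑ y ∈ A.biUnion R, ∑ y' ∈ A.biUnion R', (starRingEnd ℂ) (T y) * X y y' * S y' := by
    rw [Finset.sum_biUnion hd]
    refine Finset.sum_congr rfl fun i _ => ?_
    have e1 : ∀ y ∈ R i, ∑ y' ∈ A.biUnion R', (starRingEnd ℂ) (T y) * X y y' * S y'
        = ∑ i' ∈ A, ∑ y' ∈ R' i', (starRingEnd ℂ) (t i) * X y y' * s i' := by
      intro y hy
      rw [Finset.sum_biUnion hd']
      refine Finset.sum_congr rfl fun i' _ => Finset.sum_congr rfl fun y' hy' => ?_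
      rw [hT i y hy, hS i' y' hy']
    rw [Finset.sum_congr rfl e1, Finset.sum_comm]
    refine Finset.sum_congr rfl fun i' _ => ?_
    rw [Finset.mul_sum, Finset.sum_mul]
    refine Finset.sum_congr rfl fun y _ => ?_
    rw [Finset.mul_sum, Finset.sum_mul]
  have hTn : ∑ y ∈ A.biUnion R, ‖T y‖ ^ 2 ≤ a * ∑ i ∈ A, ‖t i‖ ^ 2 := by
    rw [Finset.sum_biUnion hd, Finset.mul_sum]
    refine Finset.sum_le_sum fun i _ => ?_
    calc ∑ y ∈ R i, ‖T y‖ ^ 2 = ∑ y ∈ R i, ‖t i‖ ^ 2 := Finset.sum_congr rfl fun y hy => by rw [hT i y hy]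
      _ = (R i).card * ‖t i‖ ^ 2 := by rw [Finset.sum_const, nsmul_eq_mul]
      _ ≤ a * ‖t i‖ ^ 2 := by
          have : ((R i).card : ℝ) ≤ a := by exact_mod_cast hR i
          exact mul_le_mul_of_nonneg_right this (by positivity)
  have hSn : ∑ y ∈ A.biUnion R', ‖S y‖ ^ 2 ≤ a' * ∑ i ∈ A, ‖s i‖ ^ 2 := by
    rw [Finset.sum_biUnion hd', Finset.mul_sum]
    refine Finset.sum_le_sum fun i _ => ?_
    calc ∑ y ∈ R' i, ‖S y‖ ^ 2 = ∑ y ∈ R' i, ‖s i‖ ^ 2 := Finset.sum_congr rfl fun y hy => by rw [hS i y hy]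
      _ = (R' i).card * ‖s i‖ ^ 2 := by rw [Finset.sum_const, nsmul_eq_mul]
      _ ≤ a' * ‖s i‖ ^ 2 := by
          have : ((R' i).card : ℝ) ≤ a' := by exact_mod_cast hR' i
          exact mul_le_mul_of_nonneg_right this (by positivity)
  show ‖∑ i ∈ A, ∑ i' ∈ A, (starRingEnd ℂ) (t i) * (∑ y ∈ R i, ∑ y' ∈ R' i', X y y') * s i'‖ ≤ _
  rw [hform]
  calc ‖∑ y ∈ A.biUnion R, ∑ y' ∈ A.biUnion R', (starRingEnd ℂ) (T y) * X y y' * S y'‖
      ≤ K * (√(∑ y ∈ A.biUnion R', ‖S y‖ ^ 2) * √(∑ y ∈ A.biUnion R, ‖T y‖ ^ 2)) := hX.rect _ _ S T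
    _ ≤ K * (√(a' * ∑ i ∈ A, ‖s i‖ ^ 2) * √(a * ∑ i ∈ A, ‖t i‖ ^ 2)) := by
        refine mul_le_mul_of_nonneg_left ?_ hK
        exact mul_le_mul (Real.sqrt_le_sqrt hSn) (Real.sqrt_le_sqrt hTn) (Real.sqrt_nonneg _) (Real.sqrt_nonneg _)
    _ = K * (√a * √a') * (√(∑ b ∈ A, ‖s b‖ ^ 2) * √(∑ a ∈ A, ‖t a‖ ^ 2)) := by
        rw [Real.sqrt_mul (Nat.cast_nonneg a'), Real.sqrt_mul (Nat.cast_nonneg a)]
        ring

open Classical in
theorem Bd.push {N Λ G V : Type*} {K : ℝ} (hK : 0 ≤ K) (X : Λ → N × G → N × G → ℂ)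
    (hX : ∀ l, Bd (X l) K) (S S' : V → Finset (Λ × G)) {a a' : ℕ} (hS : ∀ w, (S w).card ≤ a)
    (hS' : ∀ w, (S' w).card ≤ a') (hi : ∀ w w' y, y ∈ S w → y ∈ S w' → w = w')
    (hi' : ∀ w w' y, y ∈ S' w → y ∈ S' w' → w = w') :
    Bd (fun p p' : N × V => ∑ y ∈ S p.2, ∑ y' ∈ S' p'.2,
      if y.1 = y'.1 then X y.1 (p.1, y.2) (p'.1, y'.2) else 0) (K * (√a * √a')) := by
  let e : N → (Λ × G) ↪ (Λ × (N × G)) := fun n =>
    ⟨fun y => (y.1, (n, y.2)), fun y y' h => by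
      simp only [Prod.mk.injEq] at h
      exact Prod.ext h.1 h.2.2⟩
  have hdis : ∀ (Q : V → Finset (Λ × G)), (∀ w w' y, y ∈ Q w → y ∈ Q w' → w = w') →
      ∀ (w w' : N × V) (y : Λ × (N × G)), y ∈ (Q w.2).map (e w.1) → y ∈ (Q w'.2).map (e w'.1) → w = w' := by
    rintro Q hQ ⟨n, w⟩ ⟨n', w'⟩ y h h'
    rw [Finset.mem_map] at h h'
    obtain ⟨z, hz, rfl⟩ := h
    obtain ⟨z', hz', he⟩ := h'
    simp only [e, Function.Embedding.coeFn_mk, Prod.mk.injEq] at he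
    obtain ⟨h1, h2, h3⟩ := he
    have hzz : z' = z := Prod.ext h1 h3
    subst hzz
    exact Prod.ext h2.symm (hQ _ _ z' hz hz')
  have h := Push_pull hK _ (Push_block hK X hX) (fun p : N × V => (S p.2).map (e p.1)) (fun p : N × V => (S' p.2).map (e p.1))
    (a := a) (a' := a') (fun w => by rw [Finset.card_map]; exact hS _) (fun w => by rw [Finset.card_map]; exact hS' _)
    (hdis S hi) (hdis S' hi')
  have heq : (fun p p' : N × V => ∑ y ∈ S p.2, ∑ y' ∈ S' p'.2,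
      if y.1 = y'.1 then X y.1 (p.1, y.2) (p'.1, y'.2) else 0)
      = fun p p' : N × V => ∑ y ∈ (S p.2).map (e p.1), ∑ y' ∈ (S' p'.2).map (e p'.1),
        if y.1 = y'.1 then X y.1 y.2 y'.2 else 0 := by
    funext p p'
    rw [Finset.sum_map]
    refine Finset.sum_congr rfl fun y _ => ?_
    rw [Finset.sum_map]
    rfl
  rw [heq]
  exact h

end Pool.Agent.H26.HR
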