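import Pool.Agent.H26.HR.CcL

/-!
# Module Two (HR): small cancellation

PLAN. `Cc_one_side`: `w' = f' g'`, `f' = wordProd α`, `β` a reduced word of `g'`; `Cc w w' = hc w⁻¹ (α ++ β)` (`Cc_eq`)
`= ∑ k, hc w⁻¹ α k • hc k β` (`hc_append`). Let `ℓ w + ℓ w' ≤ ℓ u + p`. If the term of `k` is `≠ 0` at `u`, then
(`hc_ne_path`) there are paths `w⁻¹ → k → u` with `n`, `n'` descent steps and `n + n' ≤ ℓ w + ℓ w' - ℓ u ≤ p` (`path_append`,
`path_len`), so `n' = 0` (`Good`) and `u = k g'`, `ℓ u = ℓ k + ℓ g'` (`path_zero`), and `hc k β u = 1` (`hc_of_reduced`).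
So if `ℓ u = ℓ (u g'⁻¹) + ℓ g'` the sum is `hc w⁻¹ α (u g'⁻¹) = Cc w f' (u g'⁻¹)`, otherwise it is `0`.
`Cc_two_side`: `Cc_one_side` for `w'`, and `Cc_symm` and `Cc_one_side` for `(f', w)`: with `k' = u g'⁻¹`,
`Cc w f' k' = Cc f' w k'⁻¹ = (if ℓ k'⁻¹ = ℓ (k'⁻¹ g⁻¹) + ℓ g then Cc f' f (k'⁻¹ g⁻¹) else 0)`, `= Cc f f' (g k')`.
(`ℓ u = ℓ (g u g'⁻¹) + ℓ g + ℓ g'` iff both equalities hold, by the triangle inequality.)
-/

set_option autoImplicit false

namespace Pool.Agent.H26.HR

open Pool.Agent.H26.HB Pool.Agent.H73.HVN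

universe u v

variable {B : Type v} {W : Type u} [Group W] {M : CoxeterMatrix B} {cs : CoxeterSystem M W}

open Classical in
theorem Cc_one_side {q : B → ℝ} (hq : Admissible cs q) {p : ℕ} {w w' : W} {α : List B}
    (hα : cs.IsReduced α) (hpre : Pre cs (cs.wordProd α) w') (hgood : Good cs p α w') {u : W}
    (hu : cs.length w + cs.length w' ≤ cs.length u + p) :
    Cc cs q w w' u =
      if cs.length u = cs.length (u * ((cs.wordProd α)⁻¹ * w')⁻¹) +
          cs.length ((cs.wordProd α)⁻¹ * w')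
      then Cc cs q w (cs.wordProd α) (u * ((cs.wordProd α)⁻¹ * w')⁻¹) else 0 := by
  set f' := cs.wordProd α with hf'
  set g' := f'⁻¹ * w' with hg'
  have hfg : f' * g' = w' := by rw [hg']; group
  have hprod : cs.wordProd (α ++ wrd cs g') = w' := by
    rw [CoxeterSystem.wordProd_append, wrd_prod, ← hf', hfg]
  have hlen : (α ++ wrd cs g').length = cs.length w' := by
    have h1 : cs.length w' = cs.length f' + cs.length g' := hpre
    have h2 : cs.length f' = α.length := by
      rw [hf']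
      exact hα
    rw [List.length_append, wrd_length, h1, h2]
  have hred : cs.IsReduced (α ++ wrd cs g') := by
    unfold CoxeterSystem.IsReduced
    rw [hprod, hlen]
  have hkey : ∀ k : W, hc cs q w⁻¹ α k ≠ 0 → hc cs q k (wrd cs g') u ≠ 0 →
      k = u * g'⁻¹ ∧ cs.length u = cs.length k + cs.length g' := by
    intro k h1 h2
    obtain ⟨n, hn⟩ := hc_ne_path q h1
    obtain ⟨n', hn'⟩ := hc_ne_path q h2
    have h3 := path_len (path_append hn hn')
    rw [hlen, cs.length_inv] at h3
    have h4 := hgood (wrd cs g') hred hprod w⁻¹ k n u n' hn (by omega) hn'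
    subst h4
    obtain ⟨h5, h6⟩ := path_zero hn'
    rw [wrd_prod] at h5
    rw [wrd_length] at h6
    refine ⟨?_, h6⟩
    rw [h5]
    group
  have hC : Cc cs q w w' u = (hc cs q w⁻¹ α).sum fun k c => c * hc cs q k (wrd cs g') u := by
    have h1 : Cc cs q w w' = hc cs q w⁻¹ (α ++ wrd cs g') := by
      have h2 := Cc_eq hq w hred
      rwa [hprod] at h2
    rw [h1, hc_append, Finsupp.sum_apply]
    rfl
  have hC2 : Cc cs q w f' = hc cs q w⁻¹ α := by
    have h2 := Cc_eq hq w hα
    rwa [← hf'] at h2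
  rw [hC, hC2]
  unfold Finsupp.sum
  split_ifs with hcond
  · rw [Finset.sum_eq_single (u * g'⁻¹)]
    · have h1 : hc cs q (u * g'⁻¹) (wrd cs g') = Finsupp.single (u * g'⁻¹ * cs.wordProd (wrd cs g')) 1 := by
        apply hc_of_reduced
        rw [wrd_prod, wrd_length]
        have h2 : u * g'⁻¹ * g' = u := by group
        rw [h2]
        exact hcond
      have h2 : u * g'⁻¹ * g' = u := by group
      show hc cs q w⁻¹ α (u * g'⁻¹) * hc cs q (u * g'⁻¹) (wrd cs g') u = hc cs q w⁻¹ α (u * g'⁻¹)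
      rw [h1, wrd_prod, h2, Finsupp.single_eq_same, mul_one]
    · intro k hk hne
      by_contra hcon
      exact hne (hkey k (left_ne_zero_of_mul hcon) (right_ne_zero_of_mul hcon)).1
    · intro hk
      rw [Finsupp.notMem_support_iff] at hk
      show hc cs q w⁻¹ α (u * g'⁻¹) * hc cs q (u * g'⁻¹) (wrd cs g') u = 0
      rw [hk, zero_mul]
  · apply Finset.sum_eq_zero
    intro k hk
    by_contra hcon
    obtain ⟨h1, h2⟩ := hkey k (left_ne_zero_of_mul hcon) (right_ne_zero_of_mul hcon)
    apply hcond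
    rw [← h1]
    exact h2

open Classical in
theorem Cc_two_side {q : B → ℝ} (hq : Admissible cs q) {p : ℕ} {w w' : W} {α α' : List B}
    (hα : cs.IsReduced α) (hpre : Pre cs (cs.wordProd α) w) (hgood : Good cs p α w)
    (hα' : cs.IsReduced α') (hpre' : Pre cs (cs.wordProd α') w') (hgood' : Good cs p α' w') {u : W}
    (hu : cs.length w + cs.length w' ≤ cs.length u + p) :
    Cc cs q w w' u =
      if cs.length u = cs.length ((cs.wordProd α)⁻¹ * w * u * ((cs.wordProd α')⁻¹ * w')⁻¹) +
          cs.length ((cs.wordProd α)⁻¹ * w) + cs.length ((cs.wordProd α')⁻¹ * w')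
      then Cc cs q (cs.wordProd α) (cs.wordProd α')
          ((cs.wordProd α)⁻¹ * w * u * ((cs.wordProd α')⁻¹ * w')⁻¹)
      else 0 := by
  set f := cs.wordProd α with hf
  set f' := cs.wordProd α' with hf'
  set g := f⁻¹ * w with hg
  set g' := f'⁻¹ * w' with hg'
  have hlw : cs.length w = cs.length f + cs.length g := hpre
  have hlw' : cs.length w' = cs.length f' + cs.length g' := hpre'
  have e1 : g * u * g'⁻¹ = g * (u * g'⁻¹) := by group
  rw [Cc_one_side hq hα' hpre' hgood' hu, ← hf', ← hg', e1]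
  set k' := u * g'⁻¹ with hk'
  have t1 : cs.length u ≤ cs.length k' + cs.length g' := by
    have h1 : u = k' * g' := by rw [hk']; group
    calc cs.length u = cs.length (k' * g') := by rw [← h1]
      _ ≤ _ := cs.length_mul_le _ _
  have t2 : cs.length k' ≤ cs.length (g * k') + cs.length g := by
    have h1 : k' = g⁻¹ * (g * k') := by group
    calc cs.length k' = cs.length (g⁻¹ * (g * k')) := by rw [← h1]
      _ ≤ cs.length g⁻¹ + cs.length (g * k') := cs.length_mul_le _ _
      _ = _ := by rw [cs.length_inv]; ring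
  by_cases hc1 : cs.length u = cs.length k' + cs.length g'
  · rw [if_pos hc1, Cc_symm hq]
    have hu2 : cs.length f' + cs.length w ≤ cs.length k'⁻¹ + p := by
      rw [cs.length_inv]
      omega
    rw [Cc_one_side hq hα hpre hgood hu2, ← hf, ← hg]
    have e2 : cs.length (k'⁻¹ * g⁻¹) = cs.length (g * k') := by
      have h1 : k'⁻¹ * g⁻¹ = (g * k')⁻¹ := (mul_inv_rev g k').symm
      rw [h1, cs.length_inv]
    rw [cs.length_inv, e2]
    by_cases hc2 : cs.length k' = cs.length (g * k') + cs.length g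
    · rw [if_pos hc2, if_pos (by omega), Cc_symm hq]
      congr 1
      group
    · rw [if_neg hc2, if_neg (by omega)]
  · rw [if_neg hc1, if_neg (by omega)]

end Pool.Agent.H26.HR
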