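import Pool.Agent.H26.HR.KZero
import Pool.Agent.H26.HR.Push
import Pool.Agent.H26.HR.Two
import Pool.Agent.H26.HR.GoodM

/-!
# Module KEq (HR): bounded cancellation

PLAN. `bd_eq`: let `R` be from `exists_good` for `p = j`; for every `w` choose a good word `α(w)`, `f(w) = wordProd (α(w))`,
`g(w) = f(w)⁻¹ w`, `ℓ w = ℓ f(w) + ℓ g(w)`, `ℓ f(w) ≤ R`. For `u` with `ℓ u + j = ℓ w + ℓ w'`, `Cc_two_side` (`p = j`) gives
`Cc w w' u = [ℓ u = ℓ c + ℓ g + ℓ g'] Cc f f' c` with `c = g u g'⁻¹`; so (reindex `u = g⁻¹ c g'`)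
`KX x (eqW j) (i, w) (i', w') = ∑ c, [ℓ c + j = ℓ f + ℓ f'] [ℓ (g⁻¹ c g') = ℓ c + ℓ g + ℓ g'] Cc f f' c * x i i' (g⁻¹ c g')`,
the sum over `c` in the ball of radius `2 R` (`Cc_supp_le`). Hence (`KX_zero_val` for `w₁ = c⁻¹ g`)
`= ∑ (f, f', c), [f(w) = f] [f(w') = f'] [ℓ c + j = ℓ f + ℓ f'] [ℓ (c⁻¹ g) = ℓ c + ℓ g] Cc f f' c *
KX x (eqW 0) (i, c⁻¹ f⁻¹ w) (i', f'⁻¹ w')`, the sum over `f`, `f'` in the ball of radius `R` and `c` in the ball of radius `2 R`
(finite: `HB.finite_length_le`). For every `(f, f', c)` the kernel is `Bd.smul` of a `Bd.push` with `Λ = Unit`, `a = a' = 1`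
(`S w = {((), c⁻¹ f⁻¹ w)}` or `∅`, `S' w' = {((), f'⁻¹ w')}` or `∅`), so bounded by `‖Cc f f' c‖ * C₀ * K` (`bd_zero`).
-/

set_option autoImplicit false

namespace Pool.Agent.H26.HR

open Pool.Agent.H26.HB Pool.Agent.H73.HVN

universe u v

variable {B : Type v} {W : Type u} [Group W] {M : CoxeterMatrix B} {cs : CoxeterSystem M W}

open Classical in
/-- the sum over the structure constants of the initial parts -/
private theorem KEq_sum {q : B → ℝ} {R j : ℕ} (f : W → W)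
    (hf : ∀ w, cs.length (f w) ≤ R) (hpre : ∀ w, Pre cs (f w) w) (T : Finset W)
    (hT : ∀ c, cs.length c ≤ 2 * R → c ∈ T)
    (hcc : ∀ w w' u, cs.length w + cs.length w' ≤ cs.length u + j → Cc cs q w w' u =
      if cs.length u = cs.length ((f w)⁻¹ * w * u * ((f w')⁻¹ * w')⁻¹) +
          cs.length ((f w)⁻¹ * w) + cs.length ((f w')⁻¹ * w')
      then Cc cs q (f w) (f w') ((f w)⁻¹ * w * u * ((f w')⁻¹ * w')⁻¹) else 0)
    {N : Type} (x : N → N → W → ℂ) (p p' : N × W) :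
    KX cs q x (eqW cs j) p p' = ∑ c ∈ T,
      (if cs.length c + j = cs.length (f p.2) + cs.length (f p'.2) then
        Cc cs q (f p.2) (f p'.2) c else 0) *
      (if cs.length (c⁻¹ * ((f p.2)⁻¹ * p.2)) = cs.length c + cs.length ((f p.2)⁻¹ * p.2) then
        KX cs q x (eqW cs 0) (p.1, c⁻¹ * ((f p.2)⁻¹ * p.2)) (p'.1, (f p'.2)⁻¹ * p'.2) else 0) := by
  obtain ⟨i, w⟩ := p
  obtain ⟨i', w'⟩ := p'
  simp only
  set g : W := (f w)⁻¹ * w with hg
  set g' : W := (f w')⁻¹ * w' with hg'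
  have hlw : cs.length w = cs.length (f w) + cs.length g := hpre w
  have hlw' : cs.length w' = cs.length (f w') + cs.length g' := hpre w'
  set F : W → ℂ := fun u => (if cs.length u + j = cs.length w + cs.length w' then
    (if cs.length u = cs.length (g * u * g'⁻¹) + cs.length g + cs.length g' then
      Cc cs q (f w) (f w') (g * u * g'⁻¹) else 0) else 0) * x i i' u with hF
  have hFC : ∀ u, F u = Cc cs q w w' u * eqW cs j w w' u * x i i' u := by
    intro u
    simp only [hF, eqW]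
    by_cases h : cs.length u + j = cs.length w + cs.length w'
    · rw [if_pos h, if_pos h, hcc w w' u (by omega), mul_one]
    · rw [if_neg h, if_neg h, mul_zero]
  have h1 : KX cs q x (eqW cs j) (i, w) (i', w') = ∑ᶠ u, F u := by
    have h2 : Function.support F ⊆ ((Cc cs q w w').support : Set W) := by
      intro u hu
      rw [Function.mem_support, hFC u] at hu
      rw [Finset.mem_coe, Finsupp.mem_support_iff]
      intro h0
      apply hu
      rw [h0, zero_mul, zero_mul]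
    rw [finsum_eq_sum_of_support_subset F h2]
    unfold KX Finsupp.sum
    apply Finset.sum_congr rfl
    intro u _
    rw [hFC u]
  have h3 : ∑ᶠ u, F u = ∑ c ∈ T, F (g⁻¹ * c * g') := by
    have hinj : Function.Injective fun c : W => g⁻¹ * c * g' := by
      intro a b hab
      have h4 : g⁻¹ * a * g' = g⁻¹ * b * g' := hab
      exact mul_left_cancel (mul_right_cancel h4)
    have h2 : Function.support F ⊆ ((T.image fun c => g⁻¹ * c * g' : Finset W) : Set W) := by
      intro u hu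
      rw [Function.mem_support] at hu
      have h5 : Cc cs q (f w) (f w') (g * u * g'⁻¹) ≠ 0 := by
        intro h0
        apply hu
        simp only [hF, h0, ite_self, zero_mul]
      have h6 := Cc_supp_le q h5
      have h7 := hf w
      have h8 := hf w'
      rw [Finset.mem_coe, Finset.mem_image]
      refine ⟨g * u * g'⁻¹, hT _ (by omega), ?_⟩
      group
    rw [finsum_eq_sum_of_support_subset F h2, Finset.sum_image fun a _ b _ hab => hinj hab]
  rw [h1, h3]
  apply Finset.sum_congr rfl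
  intro c _
  have h4 : g * (g⁻¹ * c * g') * g'⁻¹ = c := by group
  have h5 : (c⁻¹ * g)⁻¹ * g' = g⁻¹ * c * g' := by group
  have h6 := KX_zero_val (cs := cs) q x (i, c⁻¹ * g) (i', g')
  simp only [h5] at h6
  have h7 : cs.length (g⁻¹ * c * g') ≤ cs.length (c⁻¹ * g) + cs.length g' := by
    have h8 := cs.length_mul_le (g⁻¹ * c) g'
    have h9 : cs.length (g⁻¹ * c) = cs.length (c⁻¹ * g) := by
      rw [← cs.length_inv (c⁻¹ * g)]
      congr 1
      group
    omega
  have h10 : cs.length (c⁻¹ * g) ≤ cs.length c + cs.length g := by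
    have h8 := cs.length_mul_le c⁻¹ g
    rw [cs.length_inv] at h8
    exact h8
  simp only [hF, h4]
  rw [h6]
  by_cases ha : cs.length (g⁻¹ * c * g') = cs.length c + cs.length g + cs.length g'
  · have hb : cs.length (c⁻¹ * g) = cs.length c + cs.length g := by omega
    have hc : cs.length (g⁻¹ * c * g') = cs.length (c⁻¹ * g) + cs.length g' := by omega
    rw [if_pos ha, if_pos hb, if_pos hc]
    by_cases hd : cs.length c + j = cs.length (f w) + cs.length (f w')
    · rw [if_pos hd, if_pos (by omega)]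
    · rw [if_neg hd, if_neg (by omega)]
  · rw [if_neg ha, ite_self, zero_mul]
    by_cases hb : cs.length (c⁻¹ * g) = cs.length c + cs.length g
    · have hc : ¬ cs.length (g⁻¹ * c * g') = cs.length (c⁻¹ * g) + cs.length g' := by omega
      rw [if_pos hb, if_neg hc, mul_zero]
    · rw [if_neg hb, mul_zero]

open Classical in
private theorem KEq_push {f : W → W} {q : B → ℝ} {N : Type} {x : N → N → W → ℂ} {K : ℝ}
    (hK : 0 ≤ K) (h : Bd (KX cs q x (eqW cs 0)) K) (f₀ f₀' c : W) :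
    Bd (fun p p' : N × W => if f p.2 = f₀ ∧ f p'.2 = f₀' then
      (if cs.length (c⁻¹ * (f₀⁻¹ * p.2)) = cs.length c + cs.length (f₀⁻¹ * p.2) then
        KX cs q x (eqW cs 0) (p.1, c⁻¹ * (f₀⁻¹ * p.2)) (p'.1, f₀'⁻¹ * p'.2) else 0) else 0) K := by
  have h1 := Bd.push (Λ := Unit) hK (fun _ => KX cs q x (eqW cs 0)) (fun _ => h)
    (fun w : W => if f w = f₀ ∧ cs.length (c⁻¹ * (f₀⁻¹ * w)) = cs.length c + cs.length (f₀⁻¹ * w)
      then {((), c⁻¹ * (f₀⁻¹ * w))} else ∅)
    (fun w : W => if f w = f₀' then {((), f₀'⁻¹ * w)} else ∅) (a := 1) (a' := 1)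
    (by
      intro w
      split_ifs
      · exact (Finset.card_singleton _).le
      · exact Nat.zero_le _)
    (by
      intro w
      split_ifs
      · exact (Finset.card_singleton _).le
      · exact Nat.zero_le _)
    (by
      intro w w' y hy hy'
      split_ifs at hy hy' with h1 h2
      · rw [Finset.mem_singleton] at hy hy'
        rw [hy] at hy'
        have h3 : c⁻¹ * (f₀⁻¹ * w) = c⁻¹ * (f₀⁻¹ * w') := congrArg Prod.snd hy'
        exact mul_left_cancel (mul_left_cancel h3)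
      all_goals simp at hy hy')
    (by
      intro w w' y hy hy'
      split_ifs at hy hy' with h1 h2
      · rw [Finset.mem_singleton] at hy hy'
        rw [hy] at hy'
        have h3 : f₀'⁻¹ * w = f₀'⁻¹ * w' := congrArg Prod.snd hy'
        exact mul_left_cancel h3
      all_goals simp at hy hy')
  have h2 : K * (√((1 : ℕ) : ℝ) * √((1 : ℕ) : ℝ)) = K := by simp
  rw [h2] at h1
  have h3 : ∀ X Y : N × W → N × W → ℂ, X = Y → Bd X K → Bd Y K := fun X Y h4 h5 => h4 ▸ h5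
  refine h3 _ _ ?_ h1
  funext p p'
  by_cases ha : f p.2 = f₀
  · by_cases hb : f p'.2 = f₀'
    · by_cases hc : cs.length (c⁻¹ * (f₀⁻¹ * p.2)) = cs.length c + cs.length (f₀⁻¹ * p.2)
      · simp [ha, hb, hc]
      · simp [hc]
    · simp [hb]
  · simp [ha]

theorem bd_eq [Finite B] {q : B → ℝ} (hq : Admissible cs q) {k κ : ℕ} (hk : IsHyp cs k)
    (hκ : LetterProp cs κ) (j : ℕ) :
    ∃ C : ℝ, 0 ≤ C ∧ ∀ (N : Type) (x : N → N → W → ℂ) (K : ℝ), 0 ≤ K →
      Bd (KX cs q x oneW) K → Bd (KX cs q x (eqW cs j)) (C * K) := by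
  classical
  obtain ⟨C₀, hC₀, h0⟩ := bd_zero (cs := cs) q hk hκ
  obtain ⟨R, hR⟩ := exists_good (cs := cs) hk hκ j
  choose α hα hlen hpre hgood using hR
  set f : W → W := fun w => cs.wordProd (α w) with hf
  have hfl : ∀ w, cs.length (f w) ≤ R := fun w => (cs.length_wordProd_le (α w)).trans (hlen w)
  have hcc : ∀ w w' u, cs.length w + cs.length w' ≤ cs.length u + j → Cc cs q w w' u =
      if cs.length u = cs.length ((f w)⁻¹ * w * u * ((f w')⁻¹ * w')⁻¹) +
          cs.length ((f w)⁻¹ * w) + cs.length ((f w')⁻¹ * w')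
      then Cc cs q (f w) (f w') ((f w)⁻¹ * w * u * ((f w')⁻¹ * w')⁻¹) else 0 := by
    intro w w' u hu
    exact Cc_two_side hq (hα w) (hpre w) (hgood w) (hα w') (hpre w') (hgood w') hu
  set U : Finset W := (finite_length_le (cs := cs) R).toFinset with hU
  set T : Finset W := (finite_length_le (cs := cs) (2 * R)).toFinset with hT
  have hTm : ∀ c, cs.length c ≤ 2 * R → c ∈ T := by
    intro c hc
    rw [hT, Set.Finite.mem_toFinset]
    exact hc
  have hUm : ∀ w, f w ∈ U := by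
    intro w
    rw [hU, Set.Finite.mem_toFinset]
    exact hfl w
  set co : W → W → W → ℂ := fun f₀ f₀' c =>
    if cs.length c + j = cs.length f₀ + cs.length f₀' then Cc cs q f₀ f₀' c else 0 with hco
  refine ⟨(∑ f₀ ∈ U, ∑ f₀' ∈ U, ∑ c ∈ T, ‖co f₀ f₀' c‖) * C₀,
    mul_nonneg (Finset.sum_nonneg fun _ _ => Finset.sum_nonneg fun _ _ =>
      Finset.sum_nonneg fun _ _ => norm_nonneg _) hC₀, ?_⟩
  intro N x K hK hB
  have hB0 := h0 N x K hK hB
  have hK0 : 0 ≤ C₀ * K := mul_nonneg hC₀ hK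
  have h1 : Bd (fun p p' : N × W => ∑ f₀ ∈ U, ∑ f₀' ∈ U, ∑ c ∈ T, co f₀ f₀' c *
      (if f p.2 = f₀ ∧ f p'.2 = f₀' then
        (if cs.length (c⁻¹ * (f₀⁻¹ * p.2)) = cs.length c + cs.length (f₀⁻¹ * p.2) then
          KX cs q x (eqW cs 0) (p.1, c⁻¹ * (f₀⁻¹ * p.2)) (p'.1, f₀'⁻¹ * p'.2) else 0) else 0))
      (∑ f₀ ∈ U, ∑ f₀' ∈ U, ∑ c ∈ T, ‖co f₀ f₀' c‖ * (C₀ * K)) :=
    Bd.sum U fun f₀ _ => Bd.sum U fun f₀' _ => Bd.sum T fun c _ =>
      Bd.smul (KEq_push (f := f) hK0 hB0 f₀ f₀' c) (co f₀ f₀' c)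
  have h2 : (∑ f₀ ∈ U, ∑ f₀' ∈ U, ∑ c ∈ T, ‖co f₀ f₀' c‖ * (C₀ * K)) =
      (∑ f₀ ∈ U, ∑ f₀' ∈ U, ∑ c ∈ T, ‖co f₀ f₀' c‖) * C₀ * K := by
    simp only [← Finset.sum_mul, mul_assoc]
  rw [h2] at h1
  have h3 : ∀ X Y : N × W → N × W → ℂ, X = Y → Bd X
      ((∑ f₀ ∈ U, ∑ f₀' ∈ U, ∑ c ∈ T, ‖co f₀ f₀' c‖) * C₀ * K) → Bd Y
      ((∑ f₀ ∈ U, ∑ f₀' ∈ U, ∑ c ∈ T, ‖co f₀ f₀' c‖) * C₀ * K) := fun X Y h4 h5 => h4 ▸ h5
  refine h3 _ _ ?_ h1
  funext p p'
  rw [KEq_sum f hfl hpre T hTm hcc x p p', Finset.sum_eq_single (f p.2)]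
  · rw [Finset.sum_eq_single (f p'.2)]
    · apply Finset.sum_congr rfl
      intro c _
      simp [hco]
    · intro f₀' _ hne
      apply Finset.sum_eq_zero
      intro c _
      rw [if_neg (fun h => hne h.2.symm), mul_zero]
    · intro hn
      exact absurd (hUm p'.2) hn
  · intro f₀ _ hne
    apply Finset.sum_eq_zero
    intro f₀' _
    apply Finset.sum_eq_zero
    intro c _
    rw [if_neg (fun h => hne h.1.symm), mul_zero]
  · intro hn
    exact absurd (hUm p.2) hn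

end Pool.Agent.H26.HR
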