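import Pool.Agent.H26.HR.KEq

/-!
# Module KGe (HR): the kernels with cancellation at least `j`

PLAN. For `j ≤ 0`: on the support `geW j = 1` (`Cc_supp_le`), so the kernel is `KX x oneW`. In general, for `0 ≤ j` (as a natural
number), `KX x (geW j) = KX x oneW - ∑ i ∈ range j, KX x (eqW i)` (on the support `ℓ u ≤ ℓ w + ℓ w'`: exactly one of
`geW j = 1`, `eqW i = 1` for an `i < j` holds). With `C_i` from `bd_eq` for `i`: `C = 1 + ∑ i ∈ range J, C_i`
(`Bd.sub`, `Bd.sum`, `Bd.mono`).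
-/

set_option autoImplicit false

namespace Pool.Agent.H26.HR

open Pool.Agent.H26.HB Pool.Agent.H73.HVN

universe u v

variable {B : Type v} {W : Type u} [Group W] {M : CoxeterMatrix B} {cs : CoxeterSystem M W}

private theorem KGe_pt (q : B → ℝ) (j : ℤ) {w w' u : W} (h : Cc cs q w w' u ≠ 0) :
    geW cs j w w' u = oneW w w' u - ∑ i ∈ Finset.range j.toNat, eqW cs i w w' u := by
  have hle := Cc_supp_le q h
  obtain ⟨l, hl⟩ := Nat.exists_eq_add_of_le hle
  have h1 : ∀ i : ℕ, eqW cs i w w' u = if l = i then 1 else 0 := by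
    intro i
    unfold eqW
    by_cases hi : l = i
    · rw [if_pos hi, if_pos (by omega)]
    · rw [if_neg hi, if_neg (by omega)]
  simp only [h1, Finset.sum_ite_eq, Finset.mem_range]
  unfold geW oneW
  by_cases hj : j ≤ l
  · rw [if_pos (by omega), if_neg (by omega), sub_zero]
  · rw [if_neg (by omega), if_pos (by omega), sub_self]

private theorem KGe_KX (q : B → ℝ) {N : Type} (x : N → N → W → ℂ) (j : ℤ) (p p' : N × W) :
    KX cs q x (geW cs j) p p' =
      KX cs q x oneW p p' - ∑ i ∈ Finset.range j.toNat, KX cs q x (eqW cs i) p p' := by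
  unfold KX Finsupp.sum
  rw [Finset.sum_comm, ← Finset.sum_sub_distrib]
  refine Finset.sum_congr rfl fun u hu => ?_
  beta_reduce
  rw [KGe_pt q j (Finsupp.mem_support_iff.1 hu), mul_sub, sub_mul, Finset.mul_sum, Finset.sum_mul]

theorem bd_ge [Finite B] {q : B → ℝ} (hq : Admissible cs q) {k κ : ℕ} (hk : IsHyp cs k)
    (hκ : LetterProp cs κ) (J : ℕ) :
    ∃ C : ℝ, 0 ≤ C ∧ ∀ (N : Type) (x : N → N → W → ℂ) (K : ℝ), 0 ≤ K →
      Bd (KX cs q x oneW) K → ∀ j : ℤ, j ≤ J → Bd (KX cs q x (geW cs j)) (C * K) := by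
  choose C hC hB using fun i : ℕ => bd_eq (cs := cs) hq hk hκ i
  refine ⟨1 + ∑ i ∈ Finset.range J, C i, by
    have := Finset.sum_nonneg (s := Finset.range J) fun i _ => hC i
    linarith, ?_⟩
  intro N x K hK hb j hj
  have h1 : Bd (fun p p' => ∑ i ∈ Finset.range j.toNat, KX cs q x (eqW cs i) p p')
      (∑ i ∈ Finset.range j.toNat, C i * K) := Bd.sum _ fun i _ => hB i N x K hK hb
  have h2 := Bd.sub hb h1
  have h3 : KX cs q x (geW cs j) = fun p p' =>
      KX cs q x oneW p p' - ∑ i ∈ Finset.range j.toNat, KX cs q x (eqW cs i) p p' := by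
    funext p p'
    exact KGe_KX q x j p p'
  rw [h3]
  refine h2.mono ?_
  rw [← Finset.sum_mul, add_mul, one_mul]
  have h4 : ∑ i ∈ Finset.range j.toNat, C i ≤ ∑ i ∈ Finset.range J, C i :=
    Finset.sum_le_sum_of_subset_of_nonneg (Finset.range_subset_range.2 (by omega)) fun i _ _ => hC i
  have h5 := mul_le_mul_of_nonneg_right h4 hK
  linarith

end Pool.Agent.H26.HR
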