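import Pool.Agent.H26.HR.BdL
import Pool.Agent.H26.HR.CcL
import Pool.Agent.H26.HR.Far
import Pool.Agent.H26.HB.Main

/-!
# Module KZero (HR): no cancellation

PLAN. `KX_one_eq`: `KX x oneW = KX x (fun _ _ _ => 1)` is the full sum. `KX_zero_eq`: if `ℓ (w⁻¹ w') = ℓ w + ℓ w'` then
`Cc w w' = single (w⁻¹ w') 1` (`Cc_of_add`), so both kernels are `x i j (w⁻¹ w')`; otherwise `KX x (eqW 0)` vanishes
(`Cc_supp_eq`: an element `u` of the support with `ℓ u = ℓ w + ℓ w'` is `w⁻¹ w'`).
`bd_zero`: let `T` be the finite set of the reflections `t` with `∃ v, t ∈ N(v), ℓ v ≤ κ + k + 1` (`ℓ t ≤ 2 ℓ v + 1`, balls are finite: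
`HB.finite_length_le`). By `common_small` and `common_lt`: `ℓ (w⁻¹ w') = ℓ w + ℓ w'` iff no `t ∈ T` is in `N(w) ∩ N(w')`. Induction over
finite sets `T' ⊆ T`: the kernel `[no t ∈ T' in N(w) ∩ N(w')] X` is bounded by `2^|T'| K`: the kernel for `T' ∪ {t}` is
`Y - [t ∈ N(w)] [t ∈ N(w')] Y` with `Y` the kernel for `T'` (`Bd.sub`, `Bd.restrict`). `C = 2^|T|`.
-/

set_option autoImplicit false

namespace Pool.Agent.H26.HR

open Pool.Agent.H26.HB Pool.Agent.H73.HVN

universe u v

variable {B : Type v} {W : Type u} [Group W] {M : CoxeterMatrix B} {cs : CoxeterSystem M W}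

private theorem KZero_pos (q : B → ℝ) {N : Type} (x : N → N → W → ℂ) (p p' : N × W)
    (P : W → W → W → ℂ) (h : cs.length (p.2⁻¹ * p'.2) = cs.length p.2 + cs.length p'.2) :
    KX cs q x P p p' = P p.2 p'.2 (p.2⁻¹ * p'.2) * x p.1 p'.1 (p.2⁻¹ * p'.2) := by
  rw [KX, Cc_of_add q h, Finsupp.sum_single_index]
  · rw [one_mul]
  · rw [zero_mul, zero_mul]

private theorem KZero_neg (q : B → ℝ) {N : Type} (x : N → N → W → ℂ) (p p' : N × W)
    (h : ¬ cs.length (p.2⁻¹ * p'.2) = cs.length p.2 + cs.length p'.2) :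
    KX cs q x (eqW cs 0) p p' = 0 := by
  rw [KX, Finsupp.sum]
  refine Finset.sum_eq_zero fun u hu => ?_
  rw [Finsupp.mem_support_iff] at hu
  have hne : ¬ cs.length u + 0 = cs.length p.2 + cs.length p'.2 := by
    intro he
    apply h
    rw [add_zero] at he
    rw [← he, Cc_supp_eq q hu he]
  rw [eqW, if_neg hne, mul_zero, zero_mul]

open Classical in
theorem KX_zero_eq (q : B → ℝ) {N : Type} (x : N → N → W → ℂ) (p p' : N × W) :
    KX cs q x (eqW cs 0) p p' =
      if cs.length (p.2⁻¹ * p'.2) = cs.length p.2 + cs.length p'.2 then KX cs q x oneW p p'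
      else 0 := by
  by_cases h : cs.length (p.2⁻¹ * p'.2) = cs.length p.2 + cs.length p'.2
  · rw [if_pos h, KZero_pos q x p p' _ h, KZero_pos q x p p' _ h, eqW, add_zero, if_pos h, oneW]
  · rw [if_neg h, KZero_neg q x p p' h]

open Classical in
theorem KX_zero_val (q : B → ℝ) {N : Type} (x : N → N → W → ℂ) (p p' : N × W) :
    KX cs q x (eqW cs 0) p p' =
      if cs.length (p.2⁻¹ * p'.2) = cs.length p.2 + cs.length p'.2 then
        x p.1 p'.1 (p.2⁻¹ * p'.2) else 0 := by
  by_cases h : cs.length (p.2⁻¹ * p'.2) = cs.length p.2 + cs.length p'.2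
  · rw [if_pos h, KZero_pos q x p p' _ h, eqW, add_zero, if_pos h, one_mul]
  · rw [if_neg h, KZero_neg q x p p' h]

private theorem KZero_finite [Finite B] (n : ℕ) :
    {t : W | ∃ v, cs.IsLeftInversion v t ∧ cs.length v ≤ n}.Finite := by
  refine (finite_length_le (cs := cs) (2 * n)).subset ?_
  rintro t ⟨v, hv, hn⟩
  have h1 : cs.length t ≤ cs.length (t * v) + cs.length v := by
    have h := cs.length_mul_le (t * v) v⁻¹
    rwa [mul_inv_cancel_right, cs.length_inv] at h
  have h2 := hv.2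
  change cs.length t ≤ 2 * n
  omega

open Classical in
/-- The kernel restricted to the pairs without common inversion in a finite set. -/
private theorem KZero_finset {N : Type} {X : N × W → N × W → ℂ} {K : ℝ} (hK : 0 ≤ K) (hX : Bd X K)
    (T : Finset W) :
    Bd (fun p p' : N × W => if ∀ t ∈ T, ¬ (cs.IsLeftInversion p.2 t ∧ cs.IsLeftInversion p'.2 t) then
      X p p' else 0) (2 ^ T.card * K) := by
  induction T using Finset.induction_on with
  | empty =>
    have e : (fun p p' : N × W => if ∀ t ∈ (∅ : Finset W),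
        ¬ (cs.IsLeftInversion p.2 t ∧ cs.IsLeftInversion p'.2 t) then X p p' else 0) = X := by
      funext p p'
      rw [if_pos]
      intro t ht
      exact absurd ht (Finset.notMem_empty t)
    rw [e, Finset.card_empty, pow_zero, one_mul]
    exact hX
  | insert t T ht ih =>
    have h0 : (0 : ℝ) ≤ 2 ^ T.card * K := mul_nonneg (pow_nonneg zero_le_two _) hK
    have h1 := ih.sub (ih.restrict h0 (fun p => cs.IsLeftInversion p.2 t)
      (fun p => cs.IsLeftInversion p.2 t))
    have e : (2 : ℝ) ^ (insert t T).card * K = 2 ^ T.card * K + 2 ^ T.card * K := by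
      rw [Finset.card_insert_of_notMem ht, pow_succ]
      ring
    rw [e]
    refine cast ?_ h1
    congr 1
    funext p p'
    by_cases h2 : ∀ t' ∈ T, ¬ (cs.IsLeftInversion p.2 t' ∧ cs.IsLeftInversion p'.2 t')
    · by_cases h3 : cs.IsLeftInversion p.2 t ∧ cs.IsLeftInversion p'.2 t
      · have h4 : ¬ ∀ t' ∈ insert t T, ¬ (cs.IsLeftInversion p.2 t' ∧ cs.IsLeftInversion p'.2 t') :=
          fun h => h t (Finset.mem_insert_self _ _) h3
        rw [if_pos h2, if_pos h3, if_neg h4, sub_self]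
      · have h4 : ∀ t' ∈ insert t T, ¬ (cs.IsLeftInversion p.2 t' ∧ cs.IsLeftInversion p'.2 t') := by
          intro t' ht'
          rcases Finset.mem_insert.1 ht' with rfl | h
          · exact h3
          · exact h2 t' h
        rw [if_pos h2, if_neg h3, if_pos h4, sub_zero]
    · have h4 : ¬ ∀ t' ∈ insert t T, ¬ (cs.IsLeftInversion p.2 t' ∧ cs.IsLeftInversion p'.2 t') :=
        fun h => h2 fun t' ht' => h t' (Finset.mem_insert_of_mem ht')
      rw [if_neg h2, if_neg h4]
      simp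

theorem bd_zero [Finite B] (q : B → ℝ) {k κ : ℕ} (hk : IsHyp cs k) (hκ : LetterProp cs κ) :
    ∃ C : ℝ, 0 ≤ C ∧ ∀ (N : Type) (x : N → N → W → ℂ) (K : ℝ), 0 ≤ K →
      Bd (KX cs q x oneW) K → Bd (KX cs q x (eqW cs 0)) (C * K) := by
  classical
  obtain ⟨T, hT⟩ : ∃ T : Finset W, ∀ t, t ∈ T ↔ ∃ v, cs.IsLeftInversion v t ∧
      cs.length v ≤ κ + k + 1 :=
    ⟨(KZero_finite (cs := cs) (κ + k + 1)).toFinset, fun t => by
      rw [Set.Finite.mem_toFinset, Set.mem_ofPred_eq]⟩
  refine ⟨2 ^ T.card, by positivity, fun N x K hK hX => ?_⟩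
  refine cast ?_ (KZero_finset (cs := cs) hK hX T)
  congr 1
  funext p p'
  rw [KX_zero_eq]
  by_cases h : cs.length (p.2⁻¹ * p'.2) = cs.length p.2 + cs.length p'.2
  · rw [if_pos h, if_pos]
    rintro t - ⟨h1, h2⟩
    exact absurd h (common_lt cs h1 h2).ne
  · rw [if_neg h, if_neg]
    intro hcon
    have hlt : cs.length (p.2⁻¹ * p'.2) < cs.length p.2 + cs.length p'.2 := by
      refine lt_of_le_of_ne ?_ h
      have h1 := cs.length_mul_le p.2⁻¹ p'.2
      rwa [cs.length_inv] at h1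
    obtain ⟨t, h1, h2, v, h3, h4⟩ := common_small hk hκ hlt
    exact hcon t ((hT t).2 ⟨v, h3, h4⟩) ⟨h1, h2⟩

end Pool.Agent.H26.HR
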