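import Pool.Agent.H26.HR.PreL
import Pool.Agent.H26.HB.Main

/-!
# Module RayL (HR): a limit of geodesics

PLAN. For every `n` choose a reduced word `ω n` of `w n` (`cs.exists_isReduced`, length `≥ n`) and put
`p m n = wordProd ((ω n).take m)`; for `m ≤ m' ≤ n`: `ℓ (p m n) = m`, `Pre (p m n) (p m' n)`, `Pre (p m n) (w n)`
(`pre_of_reduced`, `List.take_append_drop`, a piece of a reduced word is reduced). Let `𝒰 = Filter.hyperfilter ℕ`. For fixed `m` the
values `p m n` (`n ≥ m`) lie in the ball of radius `m`, which is finite (`HB.finite_length_le`), so there is `g m` with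
`∀ᶠ n in 𝒰, p m n = g m` (`Ultrafilter.eventually_exists_mem_iff`, or: the finite union of the sets `{n | p m n = y}`,
`Ultrafilter.finite_biUnion_mem_iff`). Sets in `𝒰` are infinite and contain elements `≥ N` (`Filter.hyperfilter_le_cofinite`,
`Nat.cofinite_eq_atTop`; intersect with `∀ᶠ n, N ≤ n`).
-/

set_option autoImplicit false

namespace Pool.Agent.H26.HR

open Pool.Agent.H26.HB Pool.Agent.H73.HVN

universe u v

variable {B : Type v} {W : Type u} [Group W] {M : CoxeterMatrix B} {cs : CoxeterSystem M W}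

private theorem RayL_ge (N : ℕ) : ∀ᶠ n in (Filter.hyperfilter ℕ : Filter ℕ), N ≤ n := by
  have h := Filter.hyperfilter_le_cofinite (α := ℕ)
  rw [Nat.cofinite_eq_atTop] at h
  exact h (Filter.eventually_ge_atTop N)

private theorem RayL_length (m : ℕ) (w : W) (hm : m ≤ cs.length w) :
    cs.length (cs.wordProd ((wrd cs w).take m)) = m := by
  have h1 : cs.IsReduced ((wrd cs w).take m) := (wrd_isReduced cs w).take m
  have h2 : cs.length (cs.wordProd ((wrd cs w).take m)) = ((wrd cs w).take m).length := h1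
  rw [h2, List.length_take, wrd_length]
  omega

private theorem RayL_pre (m : ℕ) (w : W) : Pre cs (cs.wordProd ((wrd cs w).take m)) w := by
  have h1 : cs.IsReduced ((wrd cs w).take m ++ (wrd cs w).drop m) := by
    rw [List.take_append_drop]
    exact wrd_isReduced cs w
  have h2 := pre_of_reduced h1
  rw [List.take_append_drop, wrd_prod] at h2
  exact h2

private theorem RayL_pre2 (m m' : ℕ) (hmm : m ≤ m') (w : W) :
    Pre cs (cs.wordProd ((wrd cs w).take m)) (cs.wordProd ((wrd cs w).take m')) := by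
  have h0 : (wrd cs w).take m ++ ((wrd cs w).take m').drop m = (wrd cs w).take m' := by
    have h := List.take_append_drop m ((wrd cs w).take m')
    rw [List.take_take, min_eq_left hmm] at h
    exact h
  have h1 : cs.IsReduced ((wrd cs w).take m ++ ((wrd cs w).take m').drop m) := by
    rw [h0]
    exact (wrd_isReduced cs w).take m'
  have h2 := pre_of_reduced h1
  rw [h0] at h2
  exact h2

theorem exists_ray [Finite B] {w : ℕ → W} (hw : ∀ n, n ≤ cs.length (w n)) :
    ∃ g : ℕ → W, (∀ m, cs.length (g m) = m) ∧ (∀ m m', m ≤ m' → Pre cs (g m) (g m')) ∧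
      ∀ m N, ∃ n, N ≤ n ∧ Pre cs (g m) (w n) := by
  have key : ∀ m : ℕ, ∃ g : W, ∀ᶠ n in (Filter.hyperfilter ℕ : Filter ℕ),
      cs.wordProd ((wrd cs (w n)).take m) = g := by
    intro m
    have hfin := finite_length_le (cs := cs) m
    have h1 : ∀ᶠ n in (Filter.hyperfilter ℕ : Filter ℕ), ∃ y ∈ {w : W | cs.length w ≤ m},
        cs.wordProd ((wrd cs (w n)).take m) = y := by
      refine Filter.Eventually.of_forall fun n => ⟨_, ?_, rfl⟩
      show cs.length _ ≤ m
      refine (cs.length_wordProd_le _).trans ?_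
      rw [List.length_take]
      exact min_le_left _ _
    obtain ⟨y, _, hy⟩ := (Ultrafilter.eventually_exists_mem_iff hfin).1 h1
    exact ⟨y, hy⟩
  choose g hg using key
  refine ⟨g, fun m => ?_, fun m m' hmm => ?_, fun m N => ?_⟩
  · obtain ⟨n, hn, hn'⟩ := ((hg m).and (RayL_ge m)).exists
    rw [← hn]
    exact RayL_length m (w n) (hn'.trans (hw n))
  · obtain ⟨n, hn, hn'⟩ := ((hg m).and (hg m')).exists
    rw [← hn, ← hn']
    exact RayL_pre2 m m' hmm (w n)
  · obtain ⟨n, hn, hn'⟩ := ((hg m).and (RayL_ge N)).exists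
    refine ⟨n, hn', ?_⟩
    rw [← hn]
    exact RayL_pre m (w n)

end Pool.Agent.H26.HR
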