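import Pool.Agent.H26.HR.Invol
import Pool.Agent.H26.HR.RayL
import Pool.Agent.H73.HVN.Parab

/-!
# Module Letter (HR): the letter property of hyperbolic Coxeter groups

PLAN. Suppose not. For all `n : ℕ` (`κ = n`) there are `w n` with `n ≤ ℓ (w n)` and, for all `i`, `b n i` with
`2 n ≤ gp (w n) (b n i)` and `i` not a left descent of `b n i`. Let `g` be from `exists_ray`. Let
`J = {i | ∃ D, ∀ m, ℓ (g_m⁻¹ s_i g_m) ≤ D}`. For `t ∈ WP cs J` there is `D` with `ℓ (g_m⁻¹ t g_m) ≤ D` for all `m`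
(`Subgroup.closure_induction`). (1) By `invol_bound`, for `m` large `g_m⁻¹ t g_m` lies in the ball of radius `2 k` for all `t` in a
given finite set of involutions of `WP cs J`, and conjugation is injective: so every finite set of involutions of `WP cs J`
has at most `N₀ = #{w | ℓ w ≤ 2 k}` elements (`HB.finite_length_le`). (2) If `e ∈ WP cs J` then `ℓ e ≤ N₀`: a reduced word of `e`
has all letters in `J` (`exists_reduced_word_mem`), so the `ℓ e` different entries of its `leftInvSeq` are involutions in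
`WP cs J` (they are products `s_1 ⋯ s_j ⋯ s_1`; `getD_leftInvSeq`). (3) `g_m = e_m a_m`, `e_m ∈ WP cs J`,
`ℓ g_m = ℓ e_m + ℓ a_m`, no `i ∈ J` is a left descent of `a_m` (`exists_min_left`, `length_mul_of_min_left`). For `m > N₀`,
`a_m ≠ 1` has a left descent `i_m ∉ J`. By finiteness (`e_m` in a ball, `i_m ∈ B`) there are `e`, `i ∉ J` such that
`e_m = e`, `i_m = i` for arbitrarily large `m`. (4) Contradiction: `i ∈ J` with `D = 3 k + 1`. Let `D_e` be a bound for
`ℓ (g_m⁻¹ e g_m)`. Given `m` choose `m' ≥ m + N₀ + D_e + 2 k` with `e_m' = e`, `i_m' = i`, and then `n ≥ m'` with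
`Pre g_m' (w n)`; `a = e⁻¹ g_m'`, `b = b n i`. Then `gp a g_m' ≥ 2 m' - N₀ - D_e` (`ℓ a ≥ m' - N₀`,
`wd a g_m' = ℓ (g_m'⁻¹ e g_m') ≤ D_e`), `gp g_m' b ≥ 2 m' - k` (`gp_four`, `gp g_m' (w n) = 2 m'` by `gp_pre`,
`gp (w n) b ≥ 2 n`); by `gp_four` again (`gp g_m g_m' = 2 m`) `near_wall` applies to `g = g_m`, `a`, `b` with `c = k`.
-/

set_option autoImplicit false

namespace Pool.Agent.H26.HR

open Pool.Agent.H26.HB Pool.Agent.H73.HVN

universe u v

variable {B : Type v} {W : Type u} [Group W] {M : CoxeterMatrix B} {cs : CoxeterSystem M W}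

private theorem Letter_bound {J : Set B} {g : ℕ → W}
    (hJ : ∀ i ∈ J, ∃ D, ∀ m, cs.length ((g m)⁻¹ * cs.simple i * g m) ≤ D) {t : W}
    (ht : t ∈ WP cs J) : ∃ D, ∀ m, cs.length ((g m)⁻¹ * t * g m) ≤ D := by
  unfold WP at ht
  induction ht using Subgroup.closure_induction with
  | mem x hx =>
    obtain ⟨i, hi, rfl⟩ := hx
    exact hJ i hi
  | one => exact ⟨0, fun m => by simp⟩
  | mul x y _ _ hx hy =>
    obtain ⟨D, hD⟩ := hx
    obtain ⟨D', hD'⟩ := hy
    refine ⟨D + D', fun m => ?_⟩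
    have h : (g m)⁻¹ * (x * y) * g m = ((g m)⁻¹ * x * g m) * ((g m)⁻¹ * y * g m) := by group
    rw [h]
    exact (cs.length_mul_le _ _).trans (Nat.add_le_add (hD m) (hD' m))
  | inv x _ hx =>
    obtain ⟨D, hD⟩ := hx
    refine ⟨D, fun m => ?_⟩
    have h : (g m)⁻¹ * x⁻¹ * g m = ((g m)⁻¹ * x * g m)⁻¹ := by group
    rw [h, cs.length_inv]
    exact hD m

/-- finite sets of involutions with bounded displacement along a ray are small -/
private theorem Letter_card [Finite B] {k : ℕ} (hk : IsHyp cs k) {g : ℕ → W}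
    (hg : ∀ m, cs.length (g m) = m) (hpre : ∀ m m', m ≤ m' → Pre cs (g m) (g m'))
    (T : Finset W) (hT : ∀ t ∈ T, t * t = 1)
    (hD : ∀ t ∈ T, ∃ D, ∀ m, cs.length ((g m)⁻¹ * t * g m) ≤ D) :
    T.card ≤ (finite_length_le (cs := cs) (2 * k)).toFinset.card := by
  classical
  have h1 : ∀ t : W, ∃ D, t ∈ T → ∀ m, cs.length ((g m)⁻¹ * t * g m) ≤ D := by
    intro t
    by_cases ht : t ∈ T
    · obtain ⟨D, h⟩ := hD t ht
      exact ⟨D, fun _ => h⟩
    · exact ⟨0, fun h => absurd h ht⟩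
  choose D hD' using h1
  have hle : ∀ t ∈ T, D t ≤ T.sup D := fun t ht => Finset.le_sup ht
  refine Finset.card_le_card_of_injOn (fun t => (g (T.sup D))⁻¹ * t * g (T.sup D)) ?_ ?_
  · intro t ht
    have h2 := invol_bound hk (hT t ht) hg hpre (hD' t ht) (T.sup D) (hle t ht)
    simp only [Set.Finite.coe_toFinset, Set.mem_setOf_eq]
    omega
  · intro t _ t' _ h
    simpa using h

private theorem Letter_seq_mem {J : Set B} {ω : List B} (h : ∀ i ∈ ω, i ∈ J) :
    ∀ t ∈ cs.leftInvSeq ω, t ∈ WP cs J := by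
  induction ω with
  | nil => simp
  | cons i ω ih =>
    intro t ht
    have hi : cs.simple i ∈ WP cs J := Subgroup.subset_closure ⟨i, h i (by simp), rfl⟩
    rw [CoxeterSystem.leftInvSeq, List.mem_cons, List.mem_map] at ht
    rcases ht with rfl | ⟨x, hx, rfl⟩
    · exact hi
    · have h1 := ih (fun k hk => h k (by simp [hk])) x hx
      rw [MulAut.conj_apply]
      exact mul_mem (mul_mem hi h1) (inv_mem hi)

private theorem Letter_len [Finite B] {k : ℕ} (hk : IsHyp cs k) {g : ℕ → W}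
    (hg : ∀ m, cs.length (g m) = m) (hpre : ∀ m m', m ≤ m' → Pre cs (g m) (g m')) {J : Set B}
    (hJ : ∀ i ∈ J, ∃ D, ∀ m, cs.length ((g m)⁻¹ * cs.simple i * g m) ≤ D) {e : W}
    (he : e ∈ WP cs J) :
    cs.length e ≤ (finite_length_le (cs := cs) (2 * k)).toFinset.card := by
  classical
  obtain ⟨ω, hω, rfl, hL⟩ := exists_reduced_word_mem cs he
  have h1 : ((cs.leftInvSeq ω).toFinset).card = cs.length (cs.wordProd ω) := by
    rw [List.toFinset_card_of_nodup hω.nodup_leftInvSeq, cs.length_leftInvSeq, hω.eq]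
  rw [← h1]
  refine Letter_card hk hg hpre _ ?_ ?_
  · intro t ht
    have h2 := cs.isReflection_of_mem_leftInvSeq ω (List.mem_toFinset.1 ht)
    exact h2.mul_self
  · intro t ht
    exact Letter_bound hJ (Letter_seq_mem hL t (List.mem_toFinset.1 ht))

private theorem Letter_descent {a : W} (ha : cs.length a ≠ 0) : ∃ i, cs.IsLeftDescent a i := by
  refine cs.exists_leftDescent_of_ne_one fun h => ha ?_
  rw [h, cs.length_one]

theorem exists_letter [Finite B] {k : ℕ} (hk : IsHyp cs k) : ∃ κ : ℕ, LetterProp cs κ := by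
  classical
  by_contra hcon
  push Not at hcon
  have h1 : ∀ n : ℕ, ∃ w : W, n ≤ cs.length w ∧ ∀ i : B, ∃ w' : W, 2 * n ≤ gp cs w w' ∧
      ¬ cs.IsLeftDescent w' i := by
    intro n
    have h := hcon n
    unfold LetterProp at h
    push Not at h
    exact h
  choose w hw b hb hbd using h1
  obtain ⟨g, hg, hpre, hgw⟩ := exists_ray hw
  set J : Set B := {i | ∃ D, ∀ m, cs.length ((g m)⁻¹ * cs.simple i * g m) ≤ D} with hJdef
  have hJ : ∀ i ∈ J, ∃ D, ∀ m, cs.length ((g m)⁻¹ * cs.simple i * g m) ≤ D := fun i hi => hi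
  set N₀ := (finite_length_le (cs := cs) (2 * k)).toFinset.card with hN₀
  have hlen : ∀ e ∈ WP cs J, cs.length e ≤ N₀ := fun e he => Letter_len hk hg hpre hJ he
  -- the decomposition of the ray
  have h2 : ∀ m, ∃ (e : W) (i : B), e ∈ WP cs J ∧ i ∉ J ∧ cs.IsLeftDescent (e⁻¹ * g (m + N₀ + 1)) i := by
    intro m
    obtain ⟨e, a, ha, he, hea⟩ := exists_min_left cs J (g (m + N₀ + 1))
    have h3 := length_mul_of_min_left cs ha he
    rw [← hea, hg] at h3
    have h4 := hlen e he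
    obtain ⟨i, hi⟩ := Letter_descent (cs := cs) (a := a) (by omega)
    refine ⟨e, i, he, fun hiJ => ha i hiJ hi, ?_⟩
    rw [hea, inv_mul_cancel_left]
    exact hi
  choose e i he hi hd using h2
  haveI : Finite {x : W | cs.length x ≤ N₀} := (finite_length_le (cs := cs) N₀).to_subtype
  obtain ⟨⟨⟨e₀, he₀⟩, i₀⟩, hinf⟩ := Finite.exists_infinite_fiber
    (fun m : ℕ => ((⟨e m, hlen _ (he m)⟩ : {x : W | cs.length x ≤ N₀}), i m))
  have hinf' := Set.infinite_coe_iff.1 hinf
  have h5 : ∀ N, ∃ m, N < m ∧ e m = e₀ ∧ i m = i₀ := by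
    intro N
    obtain ⟨m, hm, hNm⟩ := hinf'.exists_gt N
    simp only [Set.mem_preimage, Set.mem_singleton_iff, Prod.mk.injEq, Subtype.mk.injEq] at hm
    exact ⟨m, hNm, hm.1, hm.2⟩
  have he₀' : e₀ ∈ WP cs J := by
    obtain ⟨m, -, h, -⟩ := h5 0
    rw [← h]
    exact he m
  have hi₀ : i₀ ∉ J := by
    obtain ⟨m, -, -, h⟩ := h5 0
    rw [← h]
    exact hi m
  apply hi₀
  refine ⟨3 * k + 1, fun m => ?_⟩
  obtain ⟨De, hDe⟩ := Letter_bound hJ he₀'
  obtain ⟨m₁, hm₁, h6, h7⟩ := h5 (m + N₀ + De + 2 * k)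
  set m' := m₁ + N₀ + 1 with hm'
  have ha : cs.IsLeftDescent (e₀⁻¹ * g m') i₀ := by
    have h := hd m₁
    rw [h6, h7] at h
    exact h
  obtain ⟨n, hn, hpn⟩ := hgw m' m'
  have hla : m' ≤ cs.length (e₀⁻¹ * g m') + N₀ := by
    have h8 := cs.length_mul_le e₀ (e₀⁻¹ * g m')
    rw [mul_inv_cancel_left, hg] at h8
    have h9 := hlen e₀ he₀'
    omega
  -- the Gromov products
  have hga : 2 * m' ≤ gp cs (g m') (e₀⁻¹ * g m') + N₀ + De := by
    have h8 := gp_add (cs := cs) (g m') (e₀⁻¹ * g m')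
    have h9 : wd cs (g m') (e₀⁻¹ * g m') = cs.length ((g m')⁻¹ * e₀ * g m') := by
      unfold wd
      rw [← cs.length_inv ((g m')⁻¹ * e₀ * g m')]
      congr 1
      group
    have h10 := hDe m'
    rw [h9, hg] at h8
    omega
  have hgb : 2 * m' ≤ gp cs (g m') (b n i₀) + k := by
    have h8 := gp_four hk (g m') (w n) (b n i₀)
    rw [gp_pre hpn, hg] at h8
    have h9 := hb n i₀
    omega
  have hgg : gp cs (g m) (g m') = 2 * m := by
    rw [gp_pre (hpre m m' (by omega)), hg]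
  have h8 := gp_four hk (g m) (g m') (e₀⁻¹ * g m')
  have h9 := gp_four hk (g m) (g m') (b n i₀)
  have h10 := gp_four hk (e₀⁻¹ * g m') (g m') (b n i₀)
  rw [gp_comm (e₀⁻¹ * g m') (g m')] at h10
  rw [hgg] at h8 h9
  have h11 := near_wall hk (g := g m) (c := k) ha (hbd n i₀) (by rw [hg]; omega)
    (by rw [hg]; omega) (by rw [hg]; omega)
  omega

end Pool.Agent.H26.HR
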