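import Pool.Agent.H26.HR.Letter
import Pool.Agent.H26.HR.Blk
import Pool.Agent.H26.HR.FejL
import Pool.Agent.H26.HR.CBf
import Pool.Agent.H26.HB.Main

/-!
# Project HR: the main theorem
-/

set_option autoImplicit false

open scoped ComplexOrder InnerProductSpace
open Filter Topology

namespace Pool.Agent.H26.HR

open Pool.Agent.H26.HB Pool.Agent.H73.HVN

universe u v

variable {B : Type v} {W : Type u} [Group W] {M : CoxeterMatrix B} {cs : CoxeterSystem M W}

private theorem Main_sqrt {r ε a : ℕ} (hε : ε ≤ 1) (ha : a < r + ε) :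
    √((a + 1 : ℕ) : ℝ) * √((r + ε - 1 - a + 1 : ℕ) : ℝ) ≤ (r : ℝ) + 1 := by
  rw [← Real.sqrt_mul (by positivity)]
  have h0 : (0 : ℝ) ≤ (r : ℝ) + 1 := by positivity
  rw [Real.sqrt_le_left h0]
  have h1 : a + 1 ≤ r + 1 := by omega
  have h2 : r + ε - 1 - a + 1 ≤ r + 1 := by omega
  have h3 : ((a + 1 : ℕ) : ℝ) ≤ (r : ℝ) + 1 := by exact_mod_cast h1
  have h4 : ((r + ε - 1 - a + 1 : ℕ) : ℝ) ≤ (r : ℝ) + 1 := by exact_mod_cast h2
  rw [sq]
  exact mul_le_mul h3 h4 (by positivity) h0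

theorem bd_fej [Finite B] {q : B → ℝ} (hq : Admissible cs q) {k : ℕ} (hk : IsHyp cs k) :
    ∃ C : ℝ, 0 ≤ C ∧ ∀ r : ℕ, 1 ≤ r → ∀ (N : Type) (x : N → N → W → ℂ) (K : ℝ), 0 ≤ K →
      Bd (KX cs q x oneW) K → Bd (KX cs q x (fejW cs r)) (C * K) := by
  obtain ⟨κ, hκ⟩ := exists_letter hk
  obtain ⟨C, hC, hb⟩ := bd_blk hq hk hκ
  refine ⟨6 * C, by positivity, ?_⟩
  intro r hr N x K hK hx
  have hr0 : (0 : ℝ) < r := by
    have : 0 < r := hr
    exact_mod_cast this
  have h1 : ∀ ε ∈ Finset.range 2,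
      Bd (fun p p' => ∑ a ∈ Finset.range (r + ε), blk cs q x ε a (r + ε - 1 - a) p p')
        (∑ a ∈ Finset.range (r + ε), C * K * ((r : ℝ) + 1)) := by
    intro ε hε
    have hε' : ε ≤ 1 := by
      have := Finset.mem_range.1 hε
      omega
    refine Bd.sum (Finset.range (r + ε)) (X := fun a => blk cs q x ε a (r + ε - 1 - a))
      (K := fun _ => C * K * ((r : ℝ) + 1)) fun a ha => ?_
    refine (hb N x K hK hx ε a (r + ε - 1 - a) hε').mono ?_
    exact mul_le_mul_of_nonneg_left (Main_sqrt hε' (Finset.mem_range.1 ha)) (by positivity)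
  have h2 := (Bd.sum _ h1).smul (((2 : ℝ) / (r * (r + 1)) : ℝ) : ℂ)
  have h3 : KX cs q x (fejW cs r) = fun p p' =>
      (((2 : ℝ) / (r * (r + 1)) : ℝ) : ℂ) * ∑ ε ∈ Finset.range 2, ∑ a ∈ Finset.range (r + ε),
        blk cs q x ε a (r + ε - 1 - a) p p' := by
    funext p p'
    exact fej_blk hr x p p'
  rw [h3]
  refine h2.mono ?_
  rw [Complex.norm_real, Real.norm_of_nonneg (by positivity)]
  simp only [Finset.sum_const, Finset.card_range, nsmul_eq_mul, Finset.sum_range_succ,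
    Finset.sum_range_zero, zero_add, add_zero, Nat.cast_add, Nat.cast_one, Nat.cast_zero]
  rw [div_mul_eq_mul_div, div_le_iff₀ (by positivity)]
  have h4 : (1 : ℝ) ≤ r := by exact_mod_cast hr
  have h5 : 0 ≤ C * K := by positivity
  have h6 : 2 * ((r : ℝ) * (C * K * ((r : ℝ) + 1)) + ((r : ℝ) + 1) * (C * K * ((r : ℝ) + 1))) =
      (C * K) * (((r : ℝ) + 1) * (2 * (2 * r + 1))) := by ring
  have h7 : 6 * C * K * ((r : ℝ) * (r + 1)) = (C * K) * (((r : ℝ) + 1) * (6 * r)) := by ring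
  rw [h6, h7]
  refine mul_le_mul_of_nonneg_left ?_ h5
  refine mul_le_mul_of_nonneg_left ?_ (by positivity)
  linarith

theorem cbap_HA [Finite B] {k : ℕ} (hk : IsHyp cs k) {q : B → ℝ} (hq : Admissible cs q) :
    ∃ C : ℝ, HasWeakStarCBAP (HA cs q) C := by
  obtain ⟨C, hC, hker⟩ := bd_fej hq hk
  have hfin : ∀ r : ℕ, {w : W | ((fej r (cs.length w) : ℝ) : ℂ) ≠ 0}.Finite := by
    intro r
    refine (finite_length_le (cs := cs) r).subset ?_
    intro w hw
    by_contra hlt
    apply hw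
    have h1 : r - cs.length w = 0 := by
      have : r < cs.length w := not_le.mp hlt
      omega
    simp [fej, h1]
  choose Φ hΦn hΦm using fun r : ℕ => exists_phi cs q (fun w => ((fej r (cs.length w) : ℝ) : ℂ))
    (hfin r)
  have hcb : ∀ r : ℕ, CBNormLE (HA cs q) (Φ (r + 1)) C := fun r =>
    cb_of_bd hq (fun N x K hK hx => hker (r + 1) (by omega) N x K hK hx) (hΦm (r + 1))
  refine ⟨C, ULift ℕ, inferInstance, inferInstance, inferInstance, fun r => Φ (r.down + 1), ?_, ?_⟩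
  · intro r
    exact ⟨hΦn _, finiteDimensional_range cs hq (hΦm _) (hfin _), hcb _⟩
  · intro x φ hφ
    refine tendsto_weak cs hq (fun r : ULift ℕ => hcb r.down) x ?_ φ hφ
    refine tendsto_mult cs (c := fun (r : ULift ℕ) w => ((fej (r.down + 1) (cs.length w) : ℝ) : ℂ))
      (fun r => hΦm _) ?_ ?_ x
    · intro r w
      rw [Complex.norm_real, Real.norm_of_nonneg (fej_nonneg _ _)]
      exact fej_le_one _ _
    · intro w
      have h1 : Tendsto (fun r : ULift.{u} ℕ => r.down + 1) atTop atTop := by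
        refine tendsto_atTop.2 fun b => ?_
        filter_upwards [eventually_ge_atTop (ULift.up b)] with r hr
        have h2 : b ≤ r.down := hr
        omega
      have h2 := (fej_tendsto (cs.length w)).comp h1
      have h3 := (Complex.continuous_ofReal.tendsto 1).comp h2
      rw [Complex.ofReal_one] at h3
      exact h3

end Pool.Agent.H26.HR
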