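import Pool.Agent.H26.HR.PreL

/-!
# Module PathL (HR): paths

PLAN. All by induction over the word / the path. `path_len`: `up`, `down`, `stay`: `ℓ (x s_i) = ℓ x + 1` resp. `ℓ x - 1`
resp. `ℓ x`. `path_zero`: only `up` steps. `path_of_reduced`: every letter is an `up` step (the prefixes of the product are
reduced too). `path_split`: induction over `α`. `path_first`: induction over the path: if the first step is a descent step,
`α = []`; otherwise it is an `up` step and the induction hypothesis for `x s_i` gives the word `i :: α`.
-/

set_option autoImplicit false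

namespace Pool.Agent.H26.HR

open Pool.Agent.H26.HB Pool.Agent.H73.HVN

universe u v

variable {B : Type v} {W : Type u} [Group W] {M : CoxeterMatrix B} {cs : CoxeterSystem M W}

theorem path_len {x : W} {ω : List B} {u : W} {n : ℕ} (h : Path cs x ω u n) :
    cs.length u + n ≤ cs.length x + ω.length := by
  induction h with
  | nil x => simp
  | @up x i ω u n hi hp ih =>
    rw [cs.not_isRightDescent_iff] at hi
    rw [List.length_cons]
    omega
  | @down x i ω u n hi hp ih =>
    rw [cs.isRightDescent_iff] at hi
    rw [List.length_cons]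
    omega
  | @stay x i ω u n hi hp ih =>
    rw [List.length_cons]
    omega

private theorem PathL_zero {x : W} {ω : List B} {u : W} {n : ℕ} (h : Path cs x ω u n) (hn : n = 0) :
    u = x * cs.wordProd ω ∧ cs.length u = cs.length x + ω.length := by
  induction h with
  | nil x => simp
  | @up x i ω u n hi hp ih =>
    obtain ⟨h1, h2⟩ := ih hn
    rw [cs.not_isRightDescent_iff] at hi
    refine ⟨?_, ?_⟩
    · rw [h1, cs.wordProd_cons, mul_assoc]
    · rw [List.length_cons]
      omega
  | @down x i ω u n hi hp ih => omega
  | @stay x i ω u n hi hp ih => omega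

theorem path_zero {x : W} {ω : List B} {u : W} (h : Path cs x ω u 0) :
    u = x * cs.wordProd ω ∧ cs.length u = cs.length x + ω.length :=
  PathL_zero h rfl

theorem path_of_reduced {x : W} {ω : List B}
    (h : cs.length (x * cs.wordProd ω) = cs.length x + ω.length) :
    Path cs x ω (x * cs.wordProd ω) 0 := by
  induction ω generalizing x with
  | nil =>
    rw [cs.wordProd_nil, mul_one]
    exact Path.nil x
  | cons i ω ih =>
    rw [cs.wordProd_cons, ← mul_assoc, List.length_cons] at h
    have h1 := cs.length_mul_le (x * cs.simple i) (cs.wordProd ω)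
    have h2 := cs.length_wordProd_le ω
    have hi : ¬ cs.IsRightDescent x i := by
      intro h3
      rw [cs.isRightDescent_iff] at h3
      omega
    have h4 := hi
    rw [cs.not_isRightDescent_iff] at h4
    rw [cs.wordProd_cons, ← mul_assoc]
    exact Path.up hi (ih (by omega))

theorem path_append {x k u : W} {α β : List B} {n n' : ℕ} (h : Path cs x α k n)
    (h' : Path cs k β u n') : Path cs x (α ++ β) u (n + n') := by
  induction h with
  | nil x =>
    rw [List.nil_append, Nat.zero_add]
    exact h'
  | @up x i ω k n hi hp ih =>
    rw [List.cons_append]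
    exact Path.up hi (ih h')
  | @down x i ω k n hi hp ih =>
    rw [List.cons_append, Nat.add_right_comm]
    exact Path.down hi (ih h')
  | @stay x i ω k n hi hp ih =>
    rw [List.cons_append, Nat.add_right_comm]
    exact Path.stay hi (ih h')

theorem path_split {x u : W} {α β : List B} {m : ℕ} (h : Path cs x (α ++ β) u m) :
    ∃ k n n', Path cs x α k n ∧ Path cs k β u n' ∧ n + n' = m := by
  induction α generalizing x m with
  | nil => exact ⟨x, 0, m, Path.nil x, h, Nat.zero_add m⟩
  | cons i α ih =>
    rw [List.cons_append] at h
    cases h with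
    | up hi hp =>
      obtain ⟨k, n, n', h1, h2, h3⟩ := ih hp
      exact ⟨k, n, n', Path.up hi h1, h2, h3⟩
    | down hi hp =>
      obtain ⟨k, n, n', h1, h2, h3⟩ := ih hp
      exact ⟨k, n + 1, n', Path.down hi h1, h2, by omega⟩
    | stay hi hp =>
      obtain ⟨k, n, n', h1, h2, h3⟩ := ih hp
      exact ⟨k, n + 1, n', Path.stay hi h1, h2, by omega⟩

/-- the first descent step of a path -/
theorem path_first {x u : W} {ω : List B} {n : ℕ} (h : Path cs x ω u n) (hn : n ≠ 0) :
    ∃ (α : List B) (i : B) (β : List B), ω = α ++ i :: β ∧
      cs.length (x * cs.wordProd α) = cs.length x + α.length ∧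
      cs.IsRightDescent (x * cs.wordProd α) i := by
  induction h with
  | nil x => exact absurd rfl hn
  | @up x i ω u n hi hp ih =>
    obtain ⟨α, j, β, h1, h2, h3⟩ := ih hn
    have h4 := hi
    rw [cs.not_isRightDescent_iff] at h4
    have h5 : x * cs.wordProd (i :: α) = x * cs.simple i * cs.wordProd α := by
      rw [cs.wordProd_cons, mul_assoc]
    refine ⟨i :: α, j, β, ?_, ?_, ?_⟩
    · rw [h1, List.cons_append]
    · rw [h5, List.length_cons]
      omega
    · rw [h5]
      exact h3
  | @down x i ω u n hi hp ih =>
    refine ⟨[], i, ω, rfl, ?_, ?_⟩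
    · simp
    · rw [cs.wordProd_nil, mul_one]
      exact hi
  | @stay x i ω u n hi hp ih =>
    refine ⟨[], i, ω, rfl, ?_, ?_⟩
    · simp
    · rw [cs.wordProd_nil, mul_one]
      exact hi

end Pool.Agent.H26.HR
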