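import Pool.Agent.H26.HR.Inv

/-!
# Module PreL (HR): prefixes and the Gromov product

PLAN. Everything is elementary (`length_mul_le`, `length_inv`, `omega` after unfolding). `Pre.inv`: `ℓ (t w) ≤ ℓ (t v) + ℓ (v⁻¹ w)
< ℓ v + ℓ (v⁻¹ w) = ℓ w`. `exists_pre_length`: `take m` of a reduced word. `exists_word_pre`: reduced words of `v` and
`v⁻¹ w`. `gp_four`: the four point condition `hk a c b 1`. `near_wall`: with `s = s_i`: by `refl_lt` (`t = s`)
`wd b (s a) < wd b a`, `ℓ (s a) = ℓ a - 1`, so `gp b (s a) ≥ gp a b`; by `gp_four`, `gp g (s a) ≥ 2 ℓ g - c - k`, that is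
`wd g (s a) ≤ ℓ a - 1 - ℓ g + c + k`; then the four point condition for `(g, s g; 1, a)`:
`wd g (s g) + ℓ a ≤ max (ℓ g + wd (s g) a) (wd g a + ℓ (s g)) + k` with `wd (s g) a = wd g (s a)`,
`wd g a ≤ ℓ a - ℓ g + c`, `ℓ (s g) ≤ ℓ g + 1`.
-/

set_option autoImplicit false

namespace Pool.Agent.H26.HR

open Pool.Agent.H26.HB Pool.Agent.H73.HVN

universe u v

variable {B : Type v} {W : Type u} [Group W] {M : CoxeterMatrix B} {cs : CoxeterSystem M W}

theorem wd_comm (a b : W) : wd cs a b = wd cs b a := by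
  unfold wd
  rw [← cs.length_inv (a⁻¹ * b)]
  congr 1
  group

theorem wd_tri (a b c : W) : wd cs a c ≤ wd cs a b + wd cs b c := by
  unfold wd
  have h := cs.length_mul_le (a⁻¹ * b) (b⁻¹ * c)
  have e : a⁻¹ * b * (b⁻¹ * c) = a⁻¹ * c := by group
  rw [e] at h
  exact h

theorem wd_mul_left (g a b : W) : wd cs (g * a) (g * b) = wd cs a b := by
  unfold wd
  congr 1
  group

theorem gp_add (a b : W) : gp cs a b + wd cs a b = cs.length a + cs.length b := by
  have h : wd cs a b ≤ cs.length a + cs.length b := by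
    unfold wd
    have h1 := cs.length_mul_le a⁻¹ b
    rwa [cs.length_inv] at h1
  unfold gp
  omega

theorem gp_comm (a b : W) : gp cs a b = gp cs b a := by
  unfold gp
  rw [wd_comm a b, add_comm]

theorem gp_self (a : W) : gp cs a a = 2 * cs.length a := by
  have h := gp_add (cs := cs) a a
  have h1 : wd cs a a = 0 := by
    unfold wd
    rw [inv_mul_cancel, cs.length_one]
  omega

theorem gp_le_left (a b : W) : gp cs a b ≤ 2 * cs.length a := by
  have h := gp_add (cs := cs) a b
  have h1 : cs.length b ≤ cs.length a + wd cs a b := by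
    unfold wd
    have h2 := cs.length_mul_le a (a⁻¹ * b)
    rwa [mul_inv_cancel_left] at h2
  omega

theorem gp_le_right (a b : W) : gp cs a b ≤ 2 * cs.length b := by
  rw [gp_comm]
  exact gp_le_left b a

theorem pre_one (w : W) : Pre cs 1 w := by
  unfold Pre
  rw [inv_one, one_mul, cs.length_one, zero_add]

theorem pre_refl (w : W) : Pre cs w w := by
  unfold Pre
  rw [inv_mul_cancel, cs.length_one, add_zero]

theorem Pre.length_le {v w : W} (h : Pre cs v w) : cs.length v ≤ cs.length w := by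
  unfold Pre at h
  omega

theorem Pre.trans {u v w : W} (h : Pre cs u v) (h' : Pre cs v w) : Pre cs u w := by
  unfold Pre at h h' ⊢
  have h1 := cs.length_mul_le (u⁻¹ * v) (v⁻¹ * w)
  have e1 : u⁻¹ * v * (v⁻¹ * w) = u⁻¹ * w := by group
  rw [e1] at h1
  have h2 := cs.length_mul_le u (u⁻¹ * w)
  rw [mul_inv_cancel_left] at h2
  omega

theorem Pre.mul {v v' w : W} (h : Pre cs v w) (h' : Pre cs v' (v⁻¹ * w)) :
    Pre cs (v * v') w ∧ cs.length (v * v') = cs.length v + cs.length v' := by
  unfold Pre at h h' ⊢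
  have e1 : v'⁻¹ * (v⁻¹ * w) = (v * v')⁻¹ * w := by group
  rw [e1] at h'
  have h1 := cs.length_mul_le v v'
  have h2 := cs.length_mul_le (v * v') ((v * v')⁻¹ * w)
  rw [mul_inv_cancel_left] at h2
  constructor <;> omega

/-- `v` is a prefix of `v v'` if `v v'` is a prefix of something and the lengths add -/
theorem Pre.of_mul {v v' w : W} (h : Pre cs (v * v') w)
    (h' : cs.length (v * v') = cs.length v + cs.length v') :
    Pre cs v w ∧ Pre cs v' (v⁻¹ * w) := by
  unfold Pre at h ⊢
  have e1 : v'⁻¹ * (v⁻¹ * w) = (v * v')⁻¹ * w := by group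
  rw [e1]
  have h1 := cs.length_mul_le v' ((v * v')⁻¹ * w)
  have e2 : v' * ((v * v')⁻¹ * w) = v⁻¹ * w := by group
  rw [e2] at h1
  have h2 := cs.length_mul_le v (v⁻¹ * w)
  rw [mul_inv_cancel_left] at h2
  constructor <;> omega

theorem Pre.inv {v w t : W} (h : Pre cs v w) (ht : cs.IsLeftInversion v t) :
    cs.IsLeftInversion w t := by
  refine ⟨ht.1, ?_⟩
  have h1 := ht.2
  unfold Pre at h
  have h2 := cs.length_mul_le (t * v) (v⁻¹ * w)
  have e1 : t * v * (v⁻¹ * w) = t * w := by group
  rw [e1] at h2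
  omega

theorem pre_simple_iff {i : B} {w : W} : Pre cs (cs.simple i) w ↔ cs.IsLeftDescent w i := by
  unfold Pre
  rw [cs.isLeftDescent_iff, cs.length_simple, cs.inv_simple]
  constructor <;> intro h <;> omega

theorem exists_pre_length {w : W} {m : ℕ} (hm : m ≤ cs.length w) :
    ∃ v, Pre cs v w ∧ cs.length v = m := by
  obtain ⟨ω, hω, rfl⟩ := cs.exists_isReduced w
  have h0 : cs.length (cs.wordProd ω) = ω.length := hω
  have h1 : cs.length (cs.wordProd (ω.take m)) = (ω.take m).length := hω.take m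
  have h2 : cs.length (cs.wordProd (ω.drop m)) = (ω.drop m).length := hω.drop m
  have h3 : cs.wordProd ω = cs.wordProd (ω.take m) * cs.wordProd (ω.drop m) := by
    rw [← cs.wordProd_append, List.take_append_drop]
  rw [List.length_take] at h1
  rw [List.length_drop] at h2
  refine ⟨cs.wordProd (ω.take m), ?_, by omega⟩
  unfold Pre
  rw [h0]
  have h4 : (cs.wordProd (ω.take m))⁻¹ * cs.wordProd ω = cs.wordProd (ω.drop m) := by
    rw [h3, inv_mul_cancel_left]
  rw [h4]
  omega

theorem pre_of_reduced {α β : List B} (h : cs.IsReduced (α ++ β)) :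
    Pre cs (cs.wordProd α) (cs.wordProd (α ++ β)) := by
  have h0 : cs.length (cs.wordProd (α ++ β)) = (α ++ β).length := h
  have h1 : cs.IsReduced ((α ++ β).take α.length) := h.take _
  have h2 : cs.IsReduced ((α ++ β).drop α.length) := h.drop _
  rw [List.take_left'] at h1
  · rw [List.drop_left'] at h2
    · have h1' : cs.length (cs.wordProd α) = α.length := h1
      have h2' : cs.length (cs.wordProd β) = β.length := h2
      unfold Pre
      rw [h0, cs.wordProd_append, inv_mul_cancel_left, List.length_append]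
      omega
    · rfl
  · rfl

theorem exists_word_pre {v w : W} (h : Pre cs v w) :
    ∃ α β : List B, cs.IsReduced (α ++ β) ∧ cs.wordProd α = v ∧ cs.wordProd (α ++ β) = w := by
  obtain ⟨α, hα, hα'⟩ := cs.exists_isReduced v
  obtain ⟨β, hβ, hβ'⟩ := cs.exists_isReduced (v⁻¹ * w)
  have e : cs.wordProd (α ++ β) = w := by
    rw [cs.wordProd_append, ← hα', ← hβ', mul_inv_cancel_left]
  refine ⟨α, β, ?_, hα'.symm, e⟩
  unfold CoxeterSystem.IsReduced at hα hβ ⊢
  unfold Pre at h
  rw [e, List.length_append, ← hα, ← hβ, ← hα', ← hβ']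
  exact h

theorem gp_pre {v w : W} (h : Pre cs v w) : gp cs v w = 2 * cs.length v := by
  have h1 := gp_add (cs := cs) v w
  unfold Pre at h
  unfold wd at h1
  omega

theorem gp_four {k : ℕ} (hk : IsHyp cs k) (a b c : W) :
    min (gp cs a b) (gp cs b c) ≤ gp cs a c + k := by
  have h := hk a c b 1
  have e : ∀ x : W, wd cs x 1 = cs.length x := by
    intro x
    unfold wd
    rw [mul_one, cs.length_inv]
  rw [e, e, e, wd_comm c b] at h
  have h1 := gp_add (cs := cs) a b
  have h2 := gp_add (cs := cs) b c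
  have h3 := gp_add (cs := cs) a c
  omega

theorem near_wall {k : ℕ} (hk : IsHyp cs k) {i : B} {a b g : W} {c : ℕ}
    (ha : cs.IsLeftDescent a i) (hb : ¬ cs.IsLeftDescent b i)
    (h1 : 2 * cs.length g ≤ gp cs g a + c) (h2 : 2 * cs.length g ≤ gp cs g b + c)
    (h3 : 2 * cs.length g ≤ gp cs a b + c) :
    cs.length (g⁻¹ * cs.simple i * g) ≤ c + 2 * k + 1 := by
  have e1 : ∀ x : W, wd cs x 1 = cs.length x := by
    intro x
    unfold wd
    rw [mul_one, cs.length_inv]
  have e2 : ∀ x : W, wd cs 1 x = cs.length x := by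
    intro x
    rw [wd_comm]
    exact e1 x
  have ha' : cs.IsLeftInversion a (cs.simple i) := (cs.isLeftInversion_simple_iff_isLeftDescent a i).2 ha
  have hb' : ¬ cs.IsLeftInversion b (cs.simple i) := fun h =>
    hb ((cs.isLeftInversion_simple_iff_isLeftDescent b i).1 h)
  have r1 := refl_lt cs ha' hb'
  have r2 := cs.isLeftDescent_iff.1 ha
  have r3 : wd cs b (cs.simple i * a) < wd cs b a := r1
  have g1 := gp_add (cs := cs) b (cs.simple i * a)
  have g2 := gp_add (cs := cs) a b
  rw [wd_comm a b] at g2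
  have g3 := gp_four hk g b (cs.simple i * a)
  have g4 := gp_add (cs := cs) g (cs.simple i * a)
  have g5 := gp_add (cs := cs) g a
  have g6 := hk g (cs.simple i * g) 1 a
  have e3 : wd cs (cs.simple i * g) a = wd cs g (cs.simple i * a) := by
    unfold wd
    congr 1
    rw [mul_inv_rev, cs.inv_simple, mul_assoc]
  have e4 : wd cs g (cs.simple i * g) = cs.length (g⁻¹ * cs.simple i * g) := by
    unfold wd
    rw [mul_assoc]
  have e5 : cs.length (cs.simple i * g) ≤ cs.length g + 1 := by
    have h := cs.length_mul_le (cs.simple i) g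
    rw [cs.length_simple] at h
    omega
  rw [e1, e1, e2, e3, e4] at g6
  omega

/-- the letter property after `m` steps, reflections: `t`-separated points -/
theorem inv_prefix_iff {v w t : W} (ht : cs.IsReflection t) (hv : ¬ cs.IsLeftInversion v t) :
    cs.IsLeftInversion w t ↔ cs.IsLeftInversion (v⁻¹ * w) (v⁻¹ * t * v) := by
  have h := inv_mul_iff cs ht v (v⁻¹ * w)
  rw [mul_inv_cancel_left] at h
  rw [h]
  tauto

end Pool.Agent.H26.HR
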