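import Pool.Agent.H26.HR.PathL
import Pool.Agent.H26.HR.Far

/-!
# Module WallS (HR): the wall argument

PLAN. Put `w* = y₀ k₀⁻¹`, `y = y₀ (wordProd γ)`, `t = y s_i y⁻¹` (a reflection, `t ∈ N(y s_i)`, `t ∉ N(y)` since
`ℓ (y s_i) = ℓ y + 1`). `k₀ (wordProd γ) = w*⁻¹ y`. Claim: every reflection `K ≠ t` with (`∀ v, t ∈ N(v) → K ∈ N(v)`) is in
`N(y₀)`. First `t ∈ N(w*)`: `i` is a right descent of `w*⁻¹ y`, so `ℓ (w*⁻¹ t y) < ℓ (w*⁻¹ y)`, i.e. `w*⁻¹ t w* ∈ N(w*⁻¹ y)`, and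
`inv_mul_iff` for `y = w* (w*⁻¹ y)`, `t ∉ N(y)`. So `K ∈ N(w*)`, `K ∈ N(y s_i)`, and `K ∈ N(y)` (`inv_mul_iff` for `y · s_i`:
otherwise `y⁻¹ K y ∈ N(s_i) = {s_i}`, `K = t`). Suppose `K ∉ N(y₀)`. Then `K' = w*⁻¹ K w*` satisfies: `K' ∈ N(w*⁻¹ y₀)` (`inv_mul_iff`
for `y₀ = w* (w*⁻¹ y₀)`), and `w*⁻¹ y₀ = k₀` is a prefix of `k₀ (wordProd γ) = w*⁻¹ y` by `h1` (`|γ| ≥ ℓ (wordProd γ)`), so
`K' ∈ N(w*⁻¹ y)` (`Pre.inv`), and `inv_mul_iff` for `y = w* (w*⁻¹ y)` gives `K ∉ N(y)`: contradiction. Then `far_wall` with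
`v₀ = y s_i` and `y0 = y₀`.
-/

set_option autoImplicit false

namespace Pool.Agent.H26.HR

open Pool.Agent.H26.HB Pool.Agent.H73.HVN

universe u v

variable {B : Type v} {W : Type u} [Group W] {M : CoxeterMatrix B} {cs : CoxeterSystem M W}

theorem wall_step {k κ : ℕ} (hk : IsHyp cs k) (hκ : LetterProp cs κ) {y₀ k₀ : W} {γ : List B} {i : B}
    (h1 : cs.length (k₀ * cs.wordProd γ) = cs.length k₀ + γ.length)
    (h2 : cs.IsRightDescent (k₀ * cs.wordProd γ) i)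
    (h3 : ¬ cs.IsRightDescent (y₀ * cs.wordProd γ) i) :
    ∃ v, cs.IsLeftInversion v
        (y₀ * cs.wordProd γ * cs.simple i * (y₀ * cs.wordProd γ)⁻¹) ∧
      cs.length v ≤ cs.length y₀ + κ + k + 1 := by
  obtain ⟨p, hp⟩ : ∃ p, p = k₀ * cs.wordProd γ := ⟨_, rfl⟩
  obtain ⟨y, hy⟩ : ∃ y, y = y₀ * cs.wordProd γ := ⟨_, rfl⟩
  obtain ⟨w, hw⟩ : ∃ w, w = y₀ * k₀⁻¹ := ⟨_, rfl⟩
  rw [← hp] at h1 h2
  rw [← hy] at h3
  rw [← hy]
  have hwp : w * p = y := by
    rw [hw, hp, hy]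
    group
  have hwk : w * k₀ = y₀ := by
    rw [hw]
    group
  have ht : cs.IsReflection (y * cs.simple i * y⁻¹) := ⟨y, i, rfl⟩
  -- `t` is an inversion of `y s_i` and not of `y`
  have hty : ¬ cs.IsLeftInversion y (y * cs.simple i * y⁻¹) := by
    intro h
    apply h3
    have := h.2
    rwa [inv_mul_cancel_right] at this
  have htys : cs.IsLeftInversion (y * cs.simple i) (y * cs.simple i * y⁻¹) := by
    refine ⟨ht, ?_⟩
    have e : y * cs.simple i * y⁻¹ * (y * cs.simple i) = y := by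
      rw [mul_assoc (y * cs.simple i), inv_mul_cancel_left, mul_assoc, cs.simple_mul_simple_self, mul_one]
    rw [e]
    have := cs.not_isRightDescent_iff.1 h3
    omega
  -- `t` is an inversion of `w`
  have hconj : w⁻¹ * (y * cs.simple i * y⁻¹) * w = p * cs.simple i * p⁻¹ := by
    rw [← hwp]
    group
  have htw : cs.IsLeftInversion w (y * cs.simple i * y⁻¹) := by
    have h := inv_mul_iff cs ht w p
    rw [hwp, hconj] at h
    have hpi : cs.IsLeftInversion p (p * cs.simple i * p⁻¹) := by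
      refine ⟨⟨p, i, rfl⟩, ?_⟩
      rw [inv_mul_cancel_right]
      exact h2
    by_contra hcon
    exact hty (h.2 (fun e => hcon (e.2 hpi)))
  have hpre : Pre cs k₀ p := by
    have e : k₀⁻¹ * p = cs.wordProd γ := by
      rw [hp, inv_mul_cancel_left]
    have l1 := cs.length_wordProd_le γ
    have l2 := cs.length_mul_le k₀ (cs.wordProd γ)
    rw [← hp] at l2
    unfold Pre
    rw [e]
    omega
  apply far_wall hk hκ htys y₀
  intro K hK hKt hall
  have hKw := hall w htw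
  have hKys := hall _ htys
  have hKy : cs.IsLeftInversion y K := by
    by_contra hcon
    have h := (inv_mul_iff cs hK y (cs.simple i)).1 hKys
    have h' : cs.IsLeftInversion (cs.simple i) (y⁻¹ * K * y) := by
      by_contra h''
      exact h ⟨fun a => absurd a hcon, fun a => absurd a h''⟩
    have hl := h'.2
    rw [cs.length_simple] at hl
    have h0 : y⁻¹ * K * y * cs.simple i = 1 := by
      rw [← cs.length_eq_zero_iff]
      omega
    apply hKt
    have h1' : y⁻¹ * K * y = cs.simple i := by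
      have := eq_inv_of_mul_eq_one_left h0
      rwa [cs.inv_simple] at this
    rw [← h1']
    group
  by_contra hcon
  have h := inv_mul_iff cs hK w k₀
  rw [hwk] at h
  have hk0 : cs.IsLeftInversion k₀ (w⁻¹ * K * w) := by
    by_contra h''
    exact hcon (h.2 (fun e => h'' (e.1 hKw)))
  have hKp := hpre.inv hk0
  have h2' := (inv_mul_iff cs hK w p)
  rw [hwp] at h2'
  exact h2'.1 hKy ⟨fun _ => hKp, fun _ => hKw⟩

end Pool.Agent.H26.HR
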