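import Pool.Agent.H26.HR.PreL

/-!
# Module ZPre (HR): canonical prefixes

PLAN. `exists_pre`: induction over `m`. `m = 0`: `z = 1`. `m + 1`: let `i` be the letter of `v` (`hκ v`, `κ ≤ ℓ v`);
`gp v v = 2 ℓ v`, so `i` is a left descent of `v`; `v₁ = s_i v`, `ℓ v₁ = ℓ v - 1`; `z = s_i z₁`, `z₁` from the induction
hypothesis for `v₁`. If `2 (m + 1) + 2 κ ≤ gp v u + 2` then `2 κ ≤ gp v u`, so `i` is a left descent of `u`,
`gp v₁ (s_i u) = gp v u - 2` (`wd` is invariant, the lengths drop by one), and `Pre z₁ (s_i u)`; so `Pre z u`.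

`conv_gp`: let `D = wd v u`, `v⁻¹ u = a b` with `D = ℓ a + ℓ b`, `ℓ a = j = (ℓ v + D - ℓ u) / 2 ≤ D`. `p = v a`. If `t ∉ N(p)`,
then `inv_mul_iff` for `p = v a`: `v⁻¹ t v ∈ N(a)`, hence (prefix) `v⁻¹ t v ∈ N(a b)`, and `inv_mul_iff` for `u = v (a b)` gives
`t ∉ N(u)`: contradiction. So `ℓ v ≤ ℓ p` and the four point condition
`wd 1 p + wd v u ≤ max (wd 1 v + wd p u) (wd 1 u + wd p v) + k` gives `2 ℓ v + D ≤ ℓ v + ℓ u + 2 k + 1`.
-/

set_option autoImplicit false

namespace Pool.Agent.H26.HR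

open Pool.Agent.H26.HB Pool.Agent.H73.HVN

universe u v

variable {B : Type v} {W : Type u} [Group W] {M : CoxeterMatrix B} {cs : CoxeterSystem M W}

theorem exists_pre {κ : ℕ} (hκ : LetterProp cs κ) (m : ℕ) (v : W) (hm : m + κ ≤ cs.length v) :
    ∃ z, cs.length z = m ∧ Pre cs z v ∧ ∀ u, 2 * m + 2 * κ ≤ gp cs v u + 2 → Pre cs z u := by
  induction m generalizing v with
  | zero => exact ⟨1, cs.length_one, pre_one v, fun u _ => pre_one u⟩
  | succ m ih =>
    obtain ⟨i, hi⟩ := hκ v (by omega)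
    have hvi : cs.IsLeftDescent v i := hi v (by rw [gp_self]; omega)
    have hlv : cs.length (cs.simple i * v) + 1 = cs.length v := cs.isLeftDescent_iff.mp hvi
    obtain ⟨z, hz, hzv, hzu⟩ := ih (cs.simple i * v) (by omega)
    have hmul : ∀ u, cs.IsLeftDescent u i → Pre cs z (cs.simple i * u) →
        Pre cs (cs.simple i * z) u ∧ cs.length (cs.simple i * z) = cs.length (cs.simple i) + cs.length z := by
      intro u hui hzu'
      refine Pre.mul (pre_simple_iff.mpr hui) ?_
      rw [cs.inv_simple]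
      exact hzu'
    have h1 := hmul v hvi hzv
    refine ⟨cs.simple i * z, ?_, h1.1, ?_⟩
    · rw [h1.2, cs.length_simple, hz]
      omega
    · intro u hu
      have hui : cs.IsLeftDescent u i := hi u (by omega)
      have hlu : cs.length (cs.simple i * u) + 1 = cs.length u := cs.isLeftDescent_iff.mp hui
      have g1 := gp_add (cs := cs) v u
      have g2 := gp_add (cs := cs) (cs.simple i * v) (cs.simple i * u)
      rw [wd_mul_left] at g2
      exact (hmul u hui (hzu (cs.simple i * u) (by omega))).1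

theorem conv_gp {k : ℕ} (hk : IsHyp cs k) {t v u : W} (hv : cs.IsLeftInversion v t)
    (hu : cs.IsLeftInversion u t)
    (hmin : ∀ p, cs.IsLeftInversion p t → cs.length v ≤ cs.length p) :
    2 * cs.length v ≤ gp cs v u + 2 * k + 1 := by
  have hlu : cs.length u ≤ cs.length v + cs.length (v⁻¹ * u) := by
    have h := cs.length_mul_le v (v⁻¹ * u)
    rwa [mul_inv_cancel_left] at h
  have hlv : cs.length v ≤ cs.length u + cs.length (v⁻¹ * u) := by
    have h := cs.length_mul_le u (u⁻¹ * v)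
    rw [mul_inv_cancel_left] at h
    have h2 : cs.length (u⁻¹ * v) = cs.length (v⁻¹ * u) := by
      rw [← cs.length_inv (u⁻¹ * v), mul_inv_rev, inv_inv]
    omega
  obtain ⟨a, ha, hal⟩ := exists_pre_length (cs := cs) (w := v⁻¹ * u)
    (m := (cs.length v + cs.length (v⁻¹ * u) - cs.length u) / 2) (by omega)
  have hinv : cs.IsLeftInversion (v * a) t := by
    by_contra hcon
    rw [inv_mul_iff cs hv.1, not_not] at hcon
    have h1 : cs.IsLeftInversion a (v⁻¹ * t * v) := hcon.mp hv
    have h2 : cs.IsLeftInversion (v⁻¹ * u) (v⁻¹ * t * v) := Pre.inv ha h1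
    have h3 : cs.IsLeftInversion (v * (v⁻¹ * u)) t := by
      rw [mul_inv_cancel_left]
      exact hu
    rw [inv_mul_iff cs hv.1] at h3
    exact h3 ⟨fun _ => h2, fun _ => hv⟩
  have hle : cs.length v ≤ cs.length (v * a) := hmin _ hinv
  have hfour := hk 1 (v * a) v u
  have e1 : wd cs 1 (v * a) = cs.length (v * a) := by
    rw [wd, inv_one, one_mul]
  have e2 : wd cs v u = cs.length (v⁻¹ * u) := rfl
  have e3 : wd cs 1 v = cs.length v := by
    rw [wd, inv_one, one_mul]
  have e4 : wd cs 1 u = cs.length u := by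
    rw [wd, inv_one, one_mul]
  have e5 : wd cs (v * a) v = cs.length a := by
    rw [wd, mul_inv_rev, inv_mul_cancel_right, cs.length_inv]
  have e6 : wd cs (v * a) u + cs.length a = cs.length (v⁻¹ * u) := by
    have h : cs.length (v⁻¹ * u) = cs.length a + cs.length (a⁻¹ * (v⁻¹ * u)) := ha
    rw [wd, mul_inv_rev, mul_assoc, h]
    omega
  have hgp := gp_add (cs := cs) v u
  rw [e1, e2, e3, e4, e5] at hfour
  rw [e2] at hgp
  rcases le_total (cs.length v + wd cs (v * a) u) (cs.length u + cs.length a) with h | h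
  · rw [max_eq_right h] at hfour
    omega
  · rw [max_eq_left h] at hfour
    omega

end Pool.Agent.H26.HR
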